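import Pool.Agent.Lib.MP_f04ccf_co.Large.Defs

set_option autoImplicit false

namespace Pool.Agent.EG

open Finset

section
variable {V : Type*} [Fintype V] [DecidableEq V] {F : V → V → Prop} [DecidableRel F]

omit [Fintype V] [DecidableEq V] in
theorem dF_add_nF (x : V) (S : Finset V) : dF F x S + nF F x S = S.card := by
  unfold dF nF
  exact Finset.card_filter_add_card_filter_not (s := S) (fun y => F x y)

omit [Fintype V] [DecidableEq V] in
theorem dF_mono (x : V) {S T : Finset V} (h : S ⊆ T) : dF F x S ≤ dF F x T :=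
  card_le_card (filter_subset_filter _ h)

omit [Fintype V] [DecidableEq V] in
theorem nF_mono (x : V) {S T : Finset V} (h : S ⊆ T) : nF F x S ≤ nF F x T :=
  card_le_card (filter_subset_filter _ h)

omit [Fintype V] [DecidableEq V] in
theorem dF_le (x : V) (S : Finset V) : dF F x S ≤ S.card := card_filter_le _ _

omit [Fintype V] [DecidableEq V] in
theorem nF_le (x : V) (S : Finset V) : nF F x S ≤ S.card := card_filter_le _ _

omit [Fintype V] [DecidableEq V] in
theorem e2_le (S : Finset V) : e2 F S ≤ S.card ^ 2 := by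
  unfold e2
  calc ∑ x ∈ S, dF F x S ≤ ∑ x ∈ S, S.card := sum_le_sum fun x _ => dF_le x S
    _ = S.card ^ 2 := by simp [sq]

omit [Fintype V] [DecidableEq V] in
theorem e2_mono {S T : Finset V} (h : S ⊆ T) : e2 F S ≤ e2 F T := by
  unfold e2
  calc ∑ x ∈ S, dF F x S ≤ ∑ x ∈ S, dF F x T := sum_le_sum fun x _ => dF_mono x h
    _ ≤ ∑ x ∈ T, dF F x T := sum_le_sum_of_subset h

omit [Fintype V] [DecidableEq V] in
/-- symmetric double counting -/
theorem sum_dF_comm (hs : ∀ x y, F x y → F y x) (S T : Finset V) :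
    ∑ x ∈ S, dF F x T = ∑ x ∈ T, dF F x S := by
  unfold dF
  have e : ∀ x y, F x y ↔ F y x := fun x y => ⟨hs x y, hs y x⟩
  simp only [card_filter]
  rw [sum_comm]
  refine sum_congr rfl fun x _ => sum_congr rfl fun y _ => ?_
  simp only [e x y]

omit [Fintype V] [DecidableEq V] in
theorem sum_nF_comm (hs : ∀ x y, F x y → F y x) (S T : Finset V) :
    ∑ x ∈ S, nF F x T = ∑ x ∈ T, nF F x S := by
  unfold nF
  have e : ∀ x y, F x y ↔ F y x := fun x y => ⟨hs x y, hs y x⟩
  simp only [card_filter]
  rw [sum_comm]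
  refine sum_congr rfl fun x _ => sum_congr rfl fun y _ => ?_
  simp only [e x y]

omit [Fintype V] in
theorem dF_union (x : V) {S T : Finset V} (h : Disjoint S T) :
    dF F x (S ∪ T) = dF F x S + dF F x T := by
  unfold dF
  rw [filter_union, card_union_of_disjoint]
  exact disjoint_filter_filter h

omit [Fintype V] in
theorem nF_union (x : V) {S T : Finset V} (h : Disjoint S T) :
    nF F x (S ∪ T) = nF F x S + nF F x T := by
  unfold nF
  rw [filter_union, card_union_of_disjoint]
  exact disjoint_filter_filter h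

omit [Fintype V] in
theorem e2_union (hs : ∀ x y, F x y → F y x) {S T : Finset V} (h : Disjoint S T) :
    e2 F (S ∪ T) = e2 F S + e2 F T + 2 * ∑ x ∈ T, dF F x S := by
  unfold e2
  rw [sum_union h]
  simp only [dF_union _ h, sum_add_distrib]
  have := sum_dF_comm hs S T
  omega

end

end Pool.Agent.EG
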