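import Pool.Agent.Lib.MP_f04ccf_co.Large.Basic1

set_option autoImplicit false

namespace Pool.Agent.EG

open Finset

section
variable {V : Type*} [Fintype V] [DecidableEq V] {F : V → V → Prop} [DecidableRel F]
variable {r : ℕ} {p : V → Fin r}

theorem sum_e2_cl (p : V → Fin r) : ∑ u, e2 F (cl p u) = D2 F p := by
  unfold D2 e2
  have h : ∀ u : Fin r, ∑ x ∈ cl p u, dF F x (cl p u) = ∑ x ∈ univ.filter (fun x => p x = u), ind F p x := by
    intro u
    unfold cl
    refine sum_congr rfl fun x hx => ?_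
    have hx' : p x = u := (mem_filter.mp hx).2
    unfold ind cl
    rw [hx']
  rw [sum_congr rfl fun u _ => h u]
  exact sum_fiberwise_of_maps_to (fun x _ => mem_univ (p x)) _

theorem sum_card_cl (h : Hyp F r) (p : V → Fin r) :
    ∑ u, ((cl p u).card : ℝ) = (r:ℝ)^2 + 1 := by
  have h1 : ∑ u, (cl p u).card = Fintype.card V := by
    unfold cl
    rw [← Finset.card_univ]
    exact (card_eq_sum_card_fiberwise (fun x _ => mem_univ (p x))).symm
  rw [h.card] at h1
  have h2 : ((∑ u, (cl p u).card : ℕ) : ℝ) = ((r^2+1 : ℕ) : ℝ) := by rw [h1]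
  push_cast at h2
  exact h2

theorem mem_cl {p : V → Fin r} {u : Fin r} {x : V} : x ∈ cl p u ↔ p x = u := by
  simp [cl]

/-- minimality: moving `y` to the class `w` -/
theorem ind_le (h : Cfg F p) (y : V) (w : Fin r) : ind F p y ≤ dF F y (cl p w) := by
  by_cases hw : w = p y
  · rw [hw]; exact le_refl _
  have hmin := h.min (Function.update p y w)
  -- express D2 through sums over classes
  have hs := h.symm
  have hirr := h.irr
  set q := Function.update p y w with hq
  have hpy : p y ≠ w := fun hh => hw hh.symm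
  -- D2 p = ∑ over x ≠ y + ind y
  -- indicator forms
  have key : ∀ (s : V → Fin r), (D2 F s : ℤ) =
      ∑ x ∈ univ.erase y, ∑ z ∈ univ.erase y, (if F x z ∧ s z = s x then (1:ℤ) else 0)
        + 2 * ∑ z ∈ univ.erase y, (if F y z ∧ s z = s y then (1:ℤ) else 0) := by
    intro s
    have e1 : ∀ x, (ind F s x : ℤ) = ∑ z, (if F x z ∧ s z = s x then (1:ℤ) else 0) := by
      intro x
      unfold ind dF cl
      rw [filter_filter, card_filter]
      push_cast
      refine sum_congr rfl fun z _ => ?_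
      by_cases h1 : F x z <;> by_cases h2 : s z = s x <;> simp [h1, h2]
    unfold D2
    push_cast
    simp_rw [e1]
    rw [← add_sum_erase univ _ (mem_univ y)]
    have e2' : ∀ x ∈ univ.erase y, ∑ z, (if F x z ∧ s z = s x then (1:ℤ) else 0) =
        (if F x y ∧ s y = s x then (1:ℤ) else 0)
        + ∑ z ∈ univ.erase y, (if F x z ∧ s z = s x then (1:ℤ) else 0) := by
      intro x _
      rw [← add_sum_erase univ _ (mem_univ y)]
    rw [sum_congr rfl e2', sum_add_distrib]
    have e3 : ∑ z, (if F y z ∧ s z = s y then (1:ℤ) else 0)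
        = ∑ z ∈ univ.erase y, (if F y z ∧ s z = s y then (1:ℤ) else 0) := by
      rw [← add_sum_erase univ _ (mem_univ y)]
      simp [hirr y]
    have e4 : ∑ x ∈ univ.erase y, (if F x y ∧ s y = s x then (1:ℤ) else 0)
        = ∑ z ∈ univ.erase y, (if F y z ∧ s z = s y then (1:ℤ) else 0) := by
      refine sum_congr rfl fun x _ => ?_
      have a1 : F x y ↔ F y x := ⟨hs x y, hs y x⟩
      have a2 : s y = s x ↔ s x = s y := eq_comm
      simp only [a1, a2]
    rw [e3, e4]
    ring
  have hmin' : (D2 F p : ℤ) ≤ (D2 F q : ℤ) := by exact_mod_cast hmin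
  rw [key p, key q] at hmin'
  have hqx : ∀ x ∈ univ.erase y, q x = p x := by
    intro x hx
    rw [hq, Function.update_of_ne (ne_of_mem_erase hx)]
  have hqy : q y = w := by rw [hq, Function.update_self]
  have e5 : ∑ x ∈ univ.erase y, ∑ z ∈ univ.erase y, (if F x z ∧ q z = q x then (1:ℤ) else 0)
      = ∑ x ∈ univ.erase y, ∑ z ∈ univ.erase y, (if F x z ∧ p z = p x then (1:ℤ) else 0) := by
    refine sum_congr rfl fun x hx => sum_congr rfl fun z hz => ?_
    rw [hqx x hx, hqx z hz]
  have e6 : ∑ z ∈ univ.erase y, (if F y z ∧ q z = q y then (1:ℤ) else 0)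
      = ∑ z ∈ univ.erase y, (if F y z ∧ p z = w then (1:ℤ) else 0) := by
    refine sum_congr rfl fun z hz => ?_
    rw [hqx z hz, hqy]
  rw [e5, e6] at hmin'
  have e7 : ∀ u : Fin r, (dF F y (cl p u) : ℤ)
      = ∑ z ∈ univ.erase y, (if F y z ∧ p z = u then (1:ℤ) else 0) := by
    intro u
    have : (dF F y (cl p u) : ℤ) = ∑ z, (if F y z ∧ p z = u then (1:ℤ) else 0) := by
      unfold dF cl
      rw [filter_filter, card_filter]
      push_cast
      refine sum_congr rfl fun z _ => ?_
      by_cases h1 : F y z <;> by_cases h2 : p z = u <;> simp [h1, h2]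
    rw [this, ← add_sum_erase univ _ (mem_univ y)]
    simp [hirr y]
  have : (ind F p y : ℤ) ≤ (dF F y (cl p w) : ℤ) := by
    unfold ind
    rw [e7, e7]
    linarith
  exact_mod_cast this

theorem slack_nonneg (h : Hyp F r) (p : V → Fin r) (u : Fin r) : 0 ≤ slack F p u := by
  have h1 := h.turan (cl p u) 1
  unfold slack
  push_cast at h1
  linarith

theorem sum_slack (h : Hyp F r) (p : V → Fin r) :
    ∑ u, slack F p u = (D2 F p : ℝ)/2 - ((r:ℝ) - 1) := by
  unfold slack
  rw [sum_sub_distrib, ← sum_div, ← mul_sum, sum_sub_distrib, sum_card_cl h p]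
  have h1 : ∑ u, (e2 F (cl p u) : ℝ) = (D2 F p : ℝ) := by
    rw [← sum_e2_cl (F := F) p]; push_cast; rfl
  rw [h1]
  simp
  ring

/-- `turan` with `q = 1` for `M_w ∪ Y` -/
theorem cover (h : Hyp F r) (p : V → Fin r) (w : Fin r) (Y : Finset V) (hY : ∀ y ∈ Y, p y ≠ w) :
    ∑ y ∈ Y, ((cx F p w y : ℝ) - 1 - (((cl p w).card : ℝ) - r)) - (e2 F Y : ℝ)/2
      ≤ slack F p w := by
  have hd : Disjoint (cl p w) Y := by
    rw [Finset.disjoint_left]
    intro x hx hxY
    exact hY x hxY (mem_cl.mp hx)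
  have h1 := h.turan (cl p w ∪ Y) 1
  rw [e2_union h.symm hd, card_union_of_disjoint hd] at h1
  have h2 : ∀ y, (dF F y (cl p w) : ℝ) = (cl p w).card - (cx F p w y : ℝ) := by
    intro y
    have := dF_add_nF (F := F) y (cl p w)
    unfold cx
    have h3 : ((dF F y (cl p w) + nF F y (cl p w) : ℕ) : ℝ) = ((cl p w).card : ℝ) := by rw [this]
    push_cast at h3
    linarith
  push_cast at h1
  simp_rw [h2] at h1
  rw [sum_sub_distrib] at h1
  rw [sum_sub_distrib, sum_sub_distrib]
  simp only [sum_const, nsmul_eq_mul] at *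
  unfold slack
  nlinarith [h1]

end

end Pool.Agent.EG
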