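import Pool.Agent.Lib.MP_f04ccf_co.Large.Basic2

set_option autoImplicit false

namespace Pool.Agent.EG

open Finset

section
variable {V : Type*} [Fintype V] [DecidableEq V] {F : V → V → Prop} [DecidableRel F]
variable {r : ℕ} {p : V → Fin r}

theorem sum_Ev (p : V → Fin r) : ∑ v, Ev F p v = ∑ x, cd F p x := by
  unfold Ev cd
  have h1 : ∀ v : Fin r, ∑ x ∈ univ.filter (fun x => p x ≠ v), cx F p v x
      = ∑ x, (if p x ≠ v then cx F p v x else 0) := fun v => by rw [Finset.sum_filter]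
  have h2 : ∀ x : V, ∑ v ∈ univ.erase (p x), cx F p v x
      = ∑ v, (if p x ≠ v then cx F p v x else 0) := by
    intro x
    rw [← Finset.sum_filter]
    refine Finset.sum_congr ?_ (fun _ _ => rfl)
    ext v
    simp only [Finset.mem_erase, Finset.mem_univ, and_true, Finset.mem_filter, true_and]
    exact ne_comm
  rw [Finset.sum_congr rfl fun v _ => h1 v, Finset.sum_congr rfl fun x _ => h2 x]
  exact Finset.sum_comm

/-- number of non-neighbours in a set of vertices cut by the classes -/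
theorem nF_sum_cl (p : V → Fin r) (y : V) (I : Finset (Fin r)) :
    nF F y (univ.filter (fun x => p x ∈ I)) = ∑ v ∈ I, cx F p v y := by
  unfold cx nF
  rw [Finset.card_eq_sum_card_fiberwise (f := p) (t := I)]
  · refine Finset.sum_congr rfl fun v hv => ?_
    congr 1
    ext x
    simp only [cl, Finset.mem_filter, Finset.mem_univ, true_and]
    constructor
    · rintro ⟨⟨_, h2⟩, h3⟩
      exact ⟨h3, h2⟩
    · rintro ⟨h1, h2⟩
      exact ⟨⟨by rw [h1]; exact hv, h2⟩, h1⟩
  · intro x hx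
    simp only [Finset.coe_filter, Finset.mem_filter, Finset.mem_univ, true_and] at hx
    exact hx.1

theorem Ev_eq (h : Hyp F r) (p : V → Fin r) (v : Fin r) : Ev F p v = ∑ x ∈ cl p v, cd F p x := by
  unfold Ev cx
  rw [sum_nF_comm h.symm]
  refine Finset.sum_congr rfl fun y hy => ?_
  have hy' : p y = v := mem_cl.1 hy
  unfold cd
  rw [hy', ← nF_sum_cl]
  congr 1
  ext x
  simp

/-- number of cross `G`-edges (twice). -/
theorem sum_cd (h : Cfg F p) (hr : 1 ≤ r) : (∑ x, cd F p x : ℕ) ≤ 2*(r:ℝ)^2 := by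
  have hr1 : (1:ℝ) ≤ r := by exact_mod_cast hr
  have hr0 : (0:ℝ) < r := by linarith
  -- total non-degree
  have h1 : ∀ x : V, cd F p x + cx F p (p x) x = nF F x univ := by
    intro x
    unfold cd
    rw [Finset.sum_erase_add _ _ (Finset.mem_univ (p x)), ← nF_sum_cl]
    congr 1
    ext y
    simp
  have h2 : ∀ x : V, ind F p x + cx F p (p x) x = (cl p (p x)).card := by
    intro x
    exact dF_add_nF x _
  have h3 : ∑ x : V, (cl p (p x)).card = ∑ u, (cl p u).card ^ 2 := by
    have : ∀ u : Fin r, (cl p u).card ^ 2 = ∑ x ∈ univ.filter (fun x => p x = u), (cl p (p x)).card := by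
      intro u
      rw [Finset.sum_congr rfl (g := fun _ => (cl p u).card)
        (fun x hx => by rw [(Finset.mem_filter.1 hx).2])]
      rw [Finset.sum_const, smul_eq_mul, pow_two]
      rfl
    rw [Finset.sum_congr rfl fun u _ => this u]
    exact (Finset.sum_fiberwise_of_maps_to (fun x _ => Finset.mem_univ (p x)) _).symm
  have h4 : ∑ x : V, (dF F x univ + nF F x univ) = Fintype.card V * Fintype.card V := by
    rw [Finset.sum_congr rfl fun x _ => dF_add_nF x univ]
    simp [Finset.card_univ]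
  have h5 : (∑ x : V, (cd F p x : ℝ)) + ∑ x : V, (cx F p (p x) x : ℝ)
      = ((r:ℝ)^2 + 1)^2 - (e2 F (univ : Finset V) : ℝ) := by
    have e1 : ∑ x : V, (cd F p x + cx F p (p x) x) = ∑ x : V, nF F x univ :=
      Finset.sum_congr rfl fun x _ => h1 x
    have e2' : e2 F (univ : Finset V) + ∑ x : V, nF F x univ = Fintype.card V * Fintype.card V := by
      rw [← h4, Finset.sum_add_distrib]; rfl
    rw [h.card] at e2'
    rw [Finset.sum_add_distrib] at e1
    have e3 : ((e2 F (univ : Finset V) + (∑ x : V, cd F p x + ∑ x : V, cx F p (p x) x) : ℕ) : ℝ)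
        = (((r^2+1) * (r^2+1) : ℕ) : ℝ) := by
      rw [e1, e2']
    push_cast at e3
    linarith
  have h6 : (∑ x : V, (cx F p (p x) x : ℝ)) = (∑ u, ((cl p u).card : ℝ) ^ 2) - (D2 F p : ℝ) := by
    have e1 : D2 F p + ∑ x : V, cx F p (p x) x = ∑ u, (cl p u).card ^ 2 := by
      rw [← h3]
      unfold D2
      rw [← Finset.sum_add_distrib]
      exact Finset.sum_congr rfl fun x _ => h2 x
    have e3 : ((D2 F p + ∑ x : V, cx F p (p x) x : ℕ) : ℝ) = ((∑ u, (cl p u).card ^ 2 : ℕ) : ℝ) := by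
      rw [e1]
    push_cast at e3
    linarith
  -- Cauchy-Schwarz
  have h7 : ((r:ℝ)^2 + 1)^2 ≤ r * ∑ u, ((cl p u).card : ℝ) ^ 2 := by
    have := sq_sum_le_card_mul_sum_sq (s := (univ : Finset (Fin r))) (f := fun u => ((cl p u).card : ℝ))
    rw [sum_card_cl h.toHyp p] at this
    simpa using this
  have h8 : ((r:ℝ)^2 + 1)^2 / r ≤ ∑ u, ((cl p u).card : ℝ) ^ 2 := by
    rw [div_le_iff₀ hr0]; linarith
  have h9 := h.edges
  have h10 := h.D2le
  have h11 : ((r:ℝ)^2 + 1)^2 - ((r:ℝ)^2 + 1) * r * (r - 1) - ((r:ℝ)^2 + 1)^2 / r + (r:ℝ)^2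
      = 2 * (r:ℝ)^2 - (r - 1) - 1/r := by
    field_simp
    ring
  have h12 : 0 ≤ 1/(r:ℝ) := by positivity
  push_cast
  linarith

end

end Pool.Agent.EG
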