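import Pool.Agent.Lib.MP_f04ccf_co.Large.Defs

set_option autoImplicit false

namespace Pool.Agent.EG

open Finset

section
variable {V : Type*} [Fintype V] [DecidableEq V] {F : V → V → Prop} [DecidableRel F]
variable {r : ℕ}

/-- from `Hyp.turan` with `q = ⌊|A|/r⌋` -/
theorem tur_real (h : Hyp F r) (hr : 1 ≤ r) (A : Finset V) :
    (A.card:ℝ) * ((A.card:ℝ) - r - (A.card:ℝ)/r) ≤ (e2 F A : ℝ) := by
  have hr1 : (1:ℝ) ≤ r := by exact_mod_cast hr
  have hr0 : (0:ℝ) < r := by linarith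
  have ht := h.turan A (A.card / r)
  set n : ℕ := A.card with hn
  set q : ℕ := n / r with hq
  have h1 : r * q ≤ n := Nat.mul_div_le n r
  have h2 : n < r * (q + 1) := by
    have := Nat.lt_mul_div_succ n (show 0 < r from hr)
    exact this
  have h1' : (r:ℝ) * q ≤ n := by exact_mod_cast h1
  have h2' : (n:ℝ) ≤ r * ((q:ℝ) + 1) := by
    have : (n:ℝ) < r * ((q:ℝ) + 1) := by exact_mod_cast h2
    exact this.le
  have hn0 : (0:ℝ) ≤ n := Nat.cast_nonneg n
  have key : (2 * q * n - r * q * (q + 1) : ℝ) - (n:ℝ) * (n - r) / r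
      = ((n:ℝ) - r * q) * (r * (q + 1) - n) / r := by
    field_simp
    ring
  have key2 : 0 ≤ ((n:ℝ) - r * q) * (r * (q + 1) - n) / r :=
    div_nonneg (mul_nonneg (by linarith) (by linarith)) hr0.le
  have key3 : (n:ℝ) * ((n:ℝ) - r - (n:ℝ)/r) = ((r:ℝ) - 1) * ((n:ℝ) * (n - r) / r) - n := by
    field_simp
    ring
  have key4 : ((r:ℝ) - 1) * ((n:ℝ) * (n - r) / r)
      ≤ ((r:ℝ) - 1) * (2 * q * n - r * q * (q + 1)) := by
    apply mul_le_mul_of_nonneg_left _ (by linarith)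
    linarith
  linarith

end

end Pool.Agent.EG
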