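import Pool.Agent.Lib.MP_f04ccf_co.Large.Basic3
import Pool.Agent.Lib.MP_f04ccf_co.Large.Tur2

set_option autoImplicit false

namespace Pool.Agent.EG

open Finset

section
variable {V : Type*} [Fintype V] [DecidableEq V] {F : V → V → Prop} [DecidableRel F]
variable {r : ℕ} {p : V → Fin r} {ε η H : ℝ} {U : Finset (Fin r)}

theorem phb_ww_nonneg (v : Fin r) (x : V) : 0 ≤ ww F p ε η v x := by
  unfold ww
  split_ifs
  · positivity
  · exact le_rfl

theorem phb_ww_le (v : Fin r) (x : V) : ww F p ε η v x ≤ (cx F p v x : ℝ)/r := by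
  unfold ww
  split_ifs
  · exact le_rfl
  · positivity

/-- facts on the parameters used for both `PH_base` and `PH_plus` -/
theorem phb_r (hP : Par r ε η H) : 1 ≤ r := by
  rcases Nat.eq_zero_or_pos r with h0 | h0
  · have h1 := hP.r1
    rw [h0] at h1
    norm_num at h1
  · exact h0

theorem phb_not_FF {z : V} (hz : z ∉ FF F p ε U) {v : Fin r} (hv : v ∉ U) (hpz : p z ≠ v) :
    (cx F p v z : ℝ) < (1 - 2*ε) * r := by
  by_contra hcon
  apply hz
  unfold FF
  rw [mem_biUnion]
  refine ⟨v, by simp [hv], ?_⟩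
  unfold FFv
  rw [mem_filter]
  exact ⟨mem_univ _, hpz, le_of_not_gt hcon⟩

/-- sum of the weights of one light class over vertices outside it -/
theorem phb_w1 (hP : Par r ε η H) (hU : Lt F p η U) {v : Fin r} (hv : v ∉ U) (Z : Finset V)
    (hZ : ∀ x ∈ Z, p x ≠ v) : ∑ x ∈ Z, ww F p ε η v x ≤ η * r := by
  have hr : 1 ≤ r := phb_r hP
  have hr0 : (0:ℝ) < r := by exact_mod_cast hr
  have h1 : ∑ x ∈ Z, ww F p ε η v x ≤ (Ev F p v : ℝ) / r := by
    calc ∑ x ∈ Z, ww F p ε η v x ≤ ∑ x ∈ Z, (cx F p v x : ℝ)/r :=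
          sum_le_sum (fun x _ => phb_ww_le v x)
      _ = (∑ x ∈ Z, (cx F p v x : ℝ)) / r := by rw [sum_div]
      _ ≤ (Ev F p v : ℝ) / r := by
          apply div_le_div_of_nonneg_right _ hr0.le
          unfold Ev
          push_cast
          apply sum_le_sum_of_subset_of_nonneg
          · intro x hx
            rw [mem_filter]
            exact ⟨mem_univ _, hZ x hx⟩
          · intro x _ _
            positivity
  have h2 := hU.E v hv
  calc ∑ x ∈ Z, ww F p ε η v x ≤ (Ev F p v : ℝ) / r := h1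
    _ ≤ η * (r:ℝ)^2 / r := div_le_div_of_nonneg_right h2 hr0.le
    _ = η * r := by field_simp

/-- number of vertices of positive weight for one light class, outside it -/
theorem phb_w4 (hP : Par r ε η H) (hU : Lt F p η U) {v : Fin r} (hv : v ∉ U) (Z : Finset V)
    (hZ : ∀ x ∈ Z, p x ≠ v) :
    ((Z.filter (fun x => 0 < ww F p ε η v x)).card : ℝ) ≤ 20/ε * r := by
  have hr : 1 ≤ r := phb_r hP
  have hr0 : (0:ℝ) < r := by exact_mod_cast hr
  have hε := hP.ε0
  have hη := hP.η0
  have h1 : ((Z.filter (fun x => 0 < ww F p ε η v x)).card : ℝ) * (ε*η/20*r) ≤ (Ev F p v : ℝ) := by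
    calc ((Z.filter (fun x => 0 < ww F p ε η v x)).card : ℝ) * (ε*η/20*r)
        = ∑ x ∈ Z.filter (fun x => 0 < ww F p ε η v x), (ε*η/20*r) := by
          rw [sum_const, nsmul_eq_mul]
      _ ≤ ∑ x ∈ Z.filter (fun x => 0 < ww F p ε η v x), (cx F p v x : ℝ) := by
          apply sum_le_sum
          intro x hx
          rw [mem_filter] at hx
          by_contra hcon
          have : ww F p ε η v x = 0 := by
            unfold ww
            rw [if_neg hcon]
          rw [this] at hx
          exact lt_irrefl _ hx.2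
      _ ≤ (Ev F p v : ℝ) := by
          unfold Ev
          push_cast
          apply sum_le_sum_of_subset_of_nonneg
          · intro x hx
            rw [mem_filter] at hx
            rw [mem_filter]
            exact ⟨mem_univ _, hZ x hx.1⟩
          · intro x _ _
            positivity
  have h2 := hU.E v hv
  have h3 : 0 < ε*η/20*r := by positivity
  have h4 : ((Z.filter (fun x => 0 < ww F p ε η v x)).card : ℝ) * (ε*η/20*r)
      ≤ (20/ε*r) * (ε*η/20*r) := by
    calc _ ≤ (Ev F p v : ℝ) := h1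
      _ ≤ η * (r:ℝ)^2 := h2
      _ = (20/ε*r) * (ε*η/20*r) := by field_simp
  exact le_of_mul_le_mul_right h4 h3

/-- `∑_{v ∈ L} w_v(x) ≤ cd x / r` if `p x ∉ L` -/
theorem phb_wd (L : Finset (Fin r)) (x : V) (hx : p x ∉ L) :
    wd L (ww F p ε η) x ≤ (cd F p x : ℝ)/r := by
  unfold wd
  calc ∑ v ∈ L, ww F p ε η v x ≤ ∑ v ∈ L, (cx F p v x : ℝ)/r := sum_le_sum (fun v _ => phb_ww_le v x)
    _ = (∑ v ∈ L, (cx F p v x : ℝ))/r := by rw [sum_div]
    _ ≤ (cd F p x : ℝ)/r := by
        apply div_le_div_of_nonneg_right _ (Nat.cast_nonneg r)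
        unfold cd
        push_cast
        apply sum_le_sum_of_subset_of_nonneg
        · intro v hv
          rw [mem_erase]
          exact ⟨fun h => hx (h ▸ hv), mem_univ _⟩
        · intro v _ _
          positivity

/-- `PH` for the base `{y,y'}` in the light class `p y` -/
theorem PH_base (h : Cfg F p) (hP : Par r ε η H) (hU : Lt F p η U) (y y' : V) (hy : p y ∉ U)
    (hyy : p y' = p y) (hcy : (cd F p y : ℝ) ≤ r/8) (hcy' : (cd F p y' : ℝ) ≤ r/8) :
    PH F ((univ \ U).erase (p y)) ((ZZ F p ε U).filter (fun z => F y z ∧ F y' z)) (ww F p ε η)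
      (fun v => ww F p ε η v y + ww F p ε η v y') r ε (10*η) (1/ε) (200/ε) (1/4) := by
  have hr : 1 ≤ r := phb_r hP
  have hr0 : (0:ℝ) < r := by exact_mod_cast hr
  have hε := hP.ε0
  have hε1 := hP.ε1
  have hη := hP.η0
  have hL : ∀ v ∈ (univ \ U).erase (p y), v ∉ U ∧ v ≠ p y := by
    intro v hv
    rw [mem_erase, mem_sdiff] at hv
    exact ⟨hv.2.2, hv.1⟩
  have hZ : ∀ x ∈ (ZZ F p ε U).filter (fun z => F y z ∧ F y' z), p x ∈ U ∧ x ∉ FF F p ε U := by
    intro x hx
    rw [mem_filter] at hx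
    have := hx.1
    unfold ZZ at this
    rw [mem_filter] at this
    exact this.2
  have hsumcd : ∀ x : V, p x = p y → (cd F p x : ℝ) ≤ r/8 →
      ∑ v ∈ (univ \ U).erase (p y), ww F p ε η v x ≤ 1/8 := by
    intro x hx hcx
    have h1 := phb_wd (F := F) (p := p) (ε := ε) (η := η) ((univ \ U).erase (p y)) x
      (by rw [hx]; simp)
    unfold wd at h1
    refine h1.trans ?_
    rw [div_le_iff₀ hr0]
    linarith
  have haS : ∑ v ∈ (univ \ U).erase (p y), (ww F p ε η v y + ww F p ε η v y') ≤ 1/4 := by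
    rw [sum_add_distrib]
    have h1 := hsumcd y rfl hcy
    have h2 := hsumcd y' hyy hcy'
    linarith
  refine ⟨h.symm, h.irr, hr, fun A => tur_real h.toHyp hr A, ?_, ?_, ?_, ?_, ?_, ?_, ?_, haS⟩
  · intro v _ x _
    exact phb_ww_nonneg v x
  · intro v hv
    have h1 := phb_w1 (ε := ε) hP hU (hL v hv).1
      ((ZZ F p ε U).filter (fun z => F y z ∧ F y' z))
      (fun x hx hxv => (hL v hv).1 (hxv ▸ (hZ x hx).1))
    have h2 : η * r ≤ 10 * η * r := by nlinarith [mul_pos hη hr0]
    exact h1.trans h2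
  · intro v hv x hx
    have h1 := phb_not_FF (hZ x hx).2 (hL v hv).1
      (fun hxv => (hL v hv).1 (hxv ▸ (hZ x hx).1))
    refine (phb_ww_le v x).trans ?_
    rw [div_le_iff₀ hr0]
    exact h1.le
  · have h1 : ∀ x ∈ (ZZ F p ε U).filter (fun z => F y z ∧ F y' z),
        wd ((univ \ U).erase (p y)) (ww F p ε η) x ≤ (cd F p x : ℝ)/r := by
      intro x hx
      apply phb_wd
      intro hcon
      exact (hL _ hcon).1 (hZ x hx).1
    have h2 := sum_cd h hr
    push_cast at h2
    calc ∑ x ∈ (ZZ F p ε U).filter (fun z => F y z ∧ F y' z),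
          wd ((univ \ U).erase (p y)) (ww F p ε η) x
        ≤ ∑ x ∈ (ZZ F p ε U).filter (fun z => F y z ∧ F y' z), (cd F p x : ℝ)/r := sum_le_sum h1
      _ ≤ ∑ x, (cd F p x : ℝ)/r := by
          apply sum_le_sum_of_subset_of_nonneg (subset_univ _)
          intro x _ _
          positivity
      _ = (∑ x, (cd F p x : ℝ))/r := by rw [sum_div]
      _ ≤ (2*(r:ℝ)^2)/r := div_le_div_of_nonneg_right h2 hr0.le
      _ = 2 * r := by field_simp
      _ ≤ 1/ε * r := by
          apply mul_le_mul_of_nonneg_right _ hr0.le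
          rw [le_div_iff₀ hε]
          linarith
  · intro v hv
    have h1 := phb_w4 (ε := ε) hP hU (hL v hv).1
      ((ZZ F p ε U).filter (fun z => F y z ∧ F y' z))
      (fun x hx hxv => (hL v hv).1 (hxv ▸ (hZ x hx).1))
    refine h1.trans ?_
    apply mul_le_mul_of_nonneg_right _ hr0.le
    apply div_le_div_of_nonneg_right _ hε.le
    norm_num
  · intro v _
    exact add_nonneg (phb_ww_nonneg v y) (phb_ww_nonneg v y')
  · intro v hv
    have h1 : ww F p ε η v y + ww F p ε η v y'
        ≤ ∑ v ∈ (univ \ U).erase (p y), (ww F p ε η v y + ww F p ε η v y') :=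
      single_le_sum (f := fun v => ww F p ε η v y + ww F p ε η v y')
        (fun v _ => add_nonneg (phb_ww_nonneg v y) (phb_ww_nonneg v y')) hv
    have h2 : ww F p ε η v y + ww F p ε η v y' ≤ 1/4 := h1.trans haS
    show ww F p ε η v y + ww F p ε η v y' ≤ 1 - 2*ε
    linarith

end

end Pool.Agent.EG
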