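import Pool.Agent.Lib.MP_f04ccf_co.Large.Defs

/-!
Numerical consequences of the parameter hypotheses `Par`.
-/

set_option autoImplicit false

namespace Pool.Agent.EG

variable {r : ℕ} {ε η H : ℝ}

theorem Par_eta_small (hP : Par r ε η H) : η ≤ 1/10^12 := by
  have h1 := hP.η1
  have h2 := hP.ε0
  have h3 := hP.ε1
  have h4 : ε^2 ≤ (1/1000)^2 := by nlinarith
  calc η ≤ ε^2/10^6 := h1
    _ ≤ (1/1000)^2/10^6 := by gcongr
    _ = 1/10^12 := by norm_num

theorem Par_log_nonneg (hP : Par r ε η H) : 0 ≤ Real.log (5/η) := by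
  apply Real.log_nonneg
  rw [le_div_iff₀ hP.η0]
  have := Par_eta_small hP
  norm_num at this
  linarith

theorem Par_H0 (hP : Par r ε η H) : 100/ε + 1 ≤ H := by
  have := Par_log_nonneg hP
  have := hP.H1
  linarith

theorem Par_H1 (hP : Par r ε η H) : 1 ≤ H := by
  have := Par_H0 hP
  have h2 : 0 < 100/ε := by have := hP.ε0; positivity
  linarith

/-- numerical check: `lam = 10^4 H/ε^2`, `lam1 = ε^2/(8H)` -/
theorem PPar_of_Par (hP : Par r ε η H) (S₀ : ℝ) (h0 : 0 ≤ S₀) (h1 : S₀ ≤ 1) :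
    PPar ε H (10^4*H/ε^2) (ε^2/(8*H)) (10*η) (1/ε) (200/ε) S₀ := by
  have hε := hP.ε0
  have hε1 := hP.ε1
  have hη := hP.η0
  have hH1 := Par_H1 hP
  have hH : 0 < H := by linarith
  have hH2 := hP.H2
  have c1 : (2*(10^4*H/ε^2)*(10*η) + 4*(10*η)/ε^2) * H ≤ ε^2/(8*H)/2 := by
    have e1 : (2*(10^4*H/ε^2)*(10*η) + 4*(10*η)/ε^2) * H
        = (2*10^5*(η*H^3) + 40*(η*H^2)) / (ε^2 * H) := by
      field_simp
      ring
    have e2 : ε^2/(8*H)/2 = (ε^4/16) / (ε^2 * H) := by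
      field_simp
      ring
    rw [e1, e2]
    apply div_le_div_of_nonneg_right _ (by positivity)
    have h3 : η*H^2 ≤ η*H^3 := by
      have : H^2 ≤ H^3 := by nlinarith [sq_nonneg H]
      exact mul_le_mul_of_nonneg_left this hη.le
    have h4 : 0 < ε^4 := by positivity
    linarith
  refine ⟨hε, hε1, Par_H0 hP, by positivity, by positivity, by positivity, by positivity,
    by positivity, h0, c1, ?_, ?_, ?_⟩
  · have e1 : 2*(200/ε)*H = 400*(H/ε) := by field_simp; norm_num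
    have e2 : (10^4*H/ε^2)*ε/8 = 1250*(H/ε) := by field_simp; norm_num
    rw [e1, e2]
    have : 0 < H/ε := by positivity
    linarith
  · apply le_of_eq
    field_simp
  · have h5 : (2*(10^4*H/ε^2)*(10*η) + 4*(10*η)/ε^2) * S₀ * H
        = ((2*(10^4*H/ε^2)*(10*η) + 4*(10*η)/ε^2) * H) * S₀ := by ring
    rw [h5]
    have h6 : ((2*(10^4*H/ε^2)*(10*η) + 4*(10*η)/ε^2) * H) * S₀
        ≤ (ε^2/(8*H)/2) * 1 := by
      apply mul_le_mul c1 h1 h0 (by positivity)
    refine h6.trans ?_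
    have h7 : ε^2/(8*H)/2 * 1 = ε^2/(16*H) := by field_simp; norm_num
    rw [h7, div_le_div_iff₀ (by positivity) (by norm_num)]
    nlinarith [mul_pos hε hH]

theorem Par_big (hP : Par r ε η H) : 2 < (10^4*H/ε^2)*ε/8 := by
  have hε := hP.ε0
  have hε1 := hP.ε1
  have hH1 := Par_H1 hP
  have e2 : (10^4*H/ε^2)*ε/8 = 1250*(H/ε) := by field_simp; norm_num
  rw [e2]
  have : 1 ≤ H/ε := by
    rw [le_div_iff₀ hε]
    linarith
  linarith

/-- `n ≤ 4/η` -/
theorem Par_log (hP : Par r ε η H) (n : ℕ) (hn : (n:ℝ) ≤ 4/η) :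
    100/ε + 1 + Real.log (n+1) ≤ H := by
  have hη := hP.η0
  have h1 : Real.log ((n:ℝ)+1) ≤ Real.log (5/η) := by
    apply Real.log_le_log (by positivity)
    have h2 : 1 ≤ 1/η := by
      rw [le_div_iff₀ hη]
      have := Par_eta_small hP
      norm_num at this
      linarith
    have h3 : 5/η = 4/η + 1/η := by ring
    linarith
  have := hP.H1
  linarith

/-- `5/η · (10/η) r / r^2 ≤ ε/8` and friends: everything of the form `(4/η+2) (8/η+1/ε) r / r^2` -/
theorem Par_c5 (hP : Par r ε η H) (n : ℕ) (hn : (n:ℝ) ≤ 4/η) (z : ℝ) (hz : z ≤ (8/η + 1/ε) * r) :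
    ((n:ℝ)+2) * z / (r:ℝ)^2 ≤ ε/8 := by
  have hε := hP.ε0
  have hε1 := hP.ε1
  have hη := hP.η0
  have hη1 := hP.η1
  have hr1 := hP.r1
  have hηs := Par_eta_small hP
  norm_num at hηs
  have hr : 0 < (r:ℝ) := by
    by_contra hc
    push Not at hc
    have : η^3 * r ≤ 0 := mul_nonpos_of_nonneg_of_nonpos (by positivity) hc
    linarith
  have hn2 : (n:ℝ) + 2 ≤ 5/η := by
    have h2 : 2 ≤ 1/η := by
      rw [le_div_iff₀ hη]
      linarith
    have h3 : 5/η = 4/η + 1/η := by ring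
    linarith
  have hz2 : z ≤ 9/η * r := by
    have h2 : 1/ε ≤ 1/η := by
      apply one_div_le_one_div_of_le hη
      have : ε^2/10^6 ≤ ε := by
        rw [div_le_iff₀ (by norm_num)]
        nlinarith
      linarith
    have h3 : 9/η = 8/η + 1/η := by ring
    rw [h3]
    have h4 : (8/η + 1/ε) * r ≤ (8/η + 1/η) * (r:ℝ) := by gcongr
    linarith
  rw [div_le_iff₀ (by positivity)]
  have h5 : ((n:ℝ)+2) * z ≤ (5/η) * (9/η * r) := by
    calc ((n:ℝ)+2) * z ≤ ((n:ℝ)+2) * (9/η * r) := by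
          apply mul_le_mul_of_nonneg_left hz2 (by positivity)
      _ ≤ (5/η) * (9/η * r) := by
          apply mul_le_mul_of_nonneg_right hn2 (by positivity)
  refine h5.trans ?_
  have h6 : (5/η) * (9/η * r) = 45 * r / η^2 := by field_simp; norm_num
  rw [h6, div_le_iff₀ (by positivity)]
  have h7 : η ≤ ε/1000 := by
    have : ε^2/10^6 ≤ ε/1000 := by
      rw [div_le_div_iff₀ (by norm_num) (by norm_num)]
      nlinarith
    linarith
  -- `45 r ≤ ε/8 * r^2 * η^2`, and `1 ≤ η^3 r`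
  have h8 : 45 * (η * (η^2 * r)) ≤ ε/8 * (η^2 * r) := by
    have : 45 * η ≤ ε/8 := by linarith
    have h9 : 0 < η^2 * r := by positivity
    nlinarith
  have h10 : 45 ≤ ε/8 * (η^2 * r) := by
    have : η * (η^2 * r) = η^3 * r := by ring
    rw [this] at h8
    linarith
  calc 45 * (r:ℝ) ≤ (ε/8 * (η^2 * r)) * r := mul_le_mul_of_nonneg_right h10 hr.le
    _ = ε/8 * (r:ℝ)^2 * η^2 := by ring

end Pool.Agent.EG
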