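import Pool.Agent.Lib.MP_f04ccf_co.Large.Defs

set_option autoImplicit false

namespace Pool.Agent.EG

open Finset

section
variable {V : Type*} [Fintype V] [DecidableEq V] {F : V → V → Prop} [DecidableRel F]
variable {ι : Type*} [DecidableEq ι] {L : Finset ι} {Z : Finset V} {w : ι → V → ℝ} {a : ι → ℝ}
variable {r : ℕ} {ε η₁ C₀ N₀ S₀ H lam lam1 : ℝ}

/-- sum of the penalties over `Z` -/
theorem sum_pen (h : PH F L Z w a r ε η₁ C₀ N₀ S₀) (hε : 0 < ε) (hl : 0 ≤ lam) (hl1 : 0 ≤ lam1)
    (hη : 0 ≤ η₁) (J : Finset V) (hJ : J ⊆ Z) :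
    ∑ x ∈ Z, pen L w a ε lam lam1 J x
      ≤ r * ((2*lam*η₁ + 4*η₁/ε^2) * (S₀ + ∑ x ∈ J, wd L w x) + lam1*C₀
          + 2*N₀*((satSet L w a ε J).card : ℝ)) := by
  have hr : (0 : ℝ) ≤ r := Nat.cast_nonneg r
  have hC0 : ∀ v ∈ L, 0 ≤ CC w a J v := by
    intro v hv
    unfold CC
    exact add_nonneg (h.a0 v hv) (sum_nonneg fun x hx => h.w0 v hv x (hJ hx))
  -- the total load
  have hsumC : ∑ v ∈ L, CC w a J v ≤ S₀ + ∑ x ∈ J, wd L w x := by
    unfold CC wd
    rw [sum_add_distrib, sum_comm]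
    linarith [h.aS]
  have hsum0 : 0 ≤ ∑ v ∈ L, CC w a J v := sum_nonneg hC0
  -- first part
  have h1 : ∑ x ∈ Z, lam * (∑ v ∈ L, 2 * CC w a J v * w v x) ≤
      lam * (2 * (η₁ * r) * ∑ v ∈ L, CC w a J v) := by
    rw [← mul_sum]
    refine mul_le_mul_of_nonneg_left ?_ hl
    rw [sum_comm, mul_sum]
    refine sum_le_sum fun v hv => ?_
    rw [← mul_sum]
    have e1 := h.w1 v hv
    have e2 := hC0 v hv
    calc 2 * CC w a J v * ∑ x ∈ Z, w v x ≤ 2 * CC w a J v * (η₁ * r) :=
          mul_le_mul_of_nonneg_left e1 (by positivity)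
      _ = 2 * (η₁ * r) * CC w a J v := by ring
  -- second part
  have h2 : ∑ x ∈ Z, lam1 * wd L w x ≤ lam1 * (C₀ * r) := by
    rw [← mul_sum]
    exact mul_le_mul_of_nonneg_left h.w3 hl1
  -- third part
  have h3 : ∑ x ∈ Z, ((blkSet L w a ε J x).card : ℝ) ≤
      N₀ * r * ((satSet L w a ε J).card : ℝ) + 2 * η₁ * r / ε ^ 2 * ∑ v ∈ L, CC w a J v := by
    -- blocked elements for an index
    set Bv : ι → Finset V := fun v => Z.filter fun x => 0 < w v x ∧ 1 - ε < CC w a J v + w v x
      with hBv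
    have e1 : ∑ x ∈ Z, ((blkSet L w a ε J x).card : ℝ) = ∑ v ∈ L, ((Bv v).card : ℝ) := by
      have e2 : ∀ x ∈ Z, ((blkSet L w a ε J x).card : ℝ) =
          ∑ v ∈ L, if 0 < w v x ∧ 1 - ε < CC w a J v + w v x then (1 : ℝ) else 0 := by
        intro x _
        unfold blkSet
        rw [card_filter]
        push_cast
        rfl
      rw [sum_congr rfl e2, sum_comm]
      refine sum_congr rfl fun v _ => ?_
      simp only [hBv]
      rw [card_filter]
      push_cast
      rfl
    have e3 : ∀ v ∈ L, ((Bv v).card : ℝ) ≤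
        (if v ∈ satSet L w a ε J then N₀ * r else 0) + 2 * η₁ * r / ε ^ 2 * CC w a J v := by
      intro v hv
      have hCv := hC0 v hv
      have hc0 : 0 ≤ 2 * η₁ * r / ε ^ 2 * CC w a J v := by positivity
      by_cases hs : v ∈ satSet L w a ε J
      · rw [if_pos hs]
        have e4 : ((Bv v).card : ℝ) ≤ ((Z.filter (fun x => 0 < w v x)).card : ℝ) := by
          have e5 : Bv v ⊆ Z.filter (fun x => 0 < w v x) := fun x hx => by
            simp only [hBv, mem_filter] at hx
            exact mem_filter.2 ⟨hx.1, hx.2.1⟩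
          exact_mod_cast card_le_card e5
        have := h.w4 v hv
        linarith
      · rw [if_neg hs, zero_add]
        have hC1 : CC w a J v ≤ 1 - 3 / 2 * ε := by
          by_contra hcon
          exact hs (by unfold satSet; exact mem_filter.2 ⟨hv, not_le.1 hcon⟩)
        rcases (Bv v).eq_empty_or_nonempty with h0 | ⟨x0, hx0⟩
        · rw [h0, card_empty, Nat.cast_zero]; exact hc0
        · have e5 : ε < CC w a J v := by
            simp only [hBv, mem_filter] at hx0
            have := h.w2 v hv x0 hx0.1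
            linarith [hx0.2.2]
          -- number of the blocked elements
          have e6 : ((Bv v).card : ℝ) * (ε / 2) ≤ η₁ * r := by
            calc ((Bv v).card : ℝ) * (ε / 2) = ∑ _x ∈ Bv v, ε / 2 := by
                  rw [sum_const, nsmul_eq_mul]
              _ ≤ ∑ x ∈ Bv v, w v x := by
                  refine sum_le_sum fun x hx => ?_
                  simp only [hBv, mem_filter] at hx
                  linarith [hx.2.2]
              _ ≤ ∑ x ∈ Z, w v x :=
                  sum_le_sum_of_subset_of_nonneg (filter_subset _ _) fun x hx _ => h.w0 v hv x hx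
              _ ≤ η₁ * r := h.w1 v hv
          have e7 : ((Bv v).card : ℝ) ≤ 2 * η₁ * r / ε := by
            rw [le_div_iff₀ hε]
            linarith
          have e8 : 2 * η₁ * r / ε ≤ 2 * η₁ * r / ε ^ 2 * CC w a J v := by
            have e9 : 2 * η₁ * r / ε = 2 * η₁ * r / ε ^ 2 * ε := by
              field_simp
            rw [e9]
            exact mul_le_mul_of_nonneg_left e5.le (by positivity)
          linarith
    rw [e1]
    refine (sum_le_sum e3).trans (le_of_eq ?_)
    rw [sum_add_distrib, ← mul_sum, ← sum_filter, sum_const, nsmul_eq_mul]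
    have e10 : L.filter (fun v => v ∈ satSet L w a ε J) = satSet L w a ε J := by
      ext v
      simp only [mem_filter, satSet]
      tauto
    rw [e10]
    ring
  unfold pen
  rw [sum_add_distrib, sum_add_distrib, ← mul_sum _ _ (2 : ℝ)]
  have hk : 0 ≤ 2 * lam * η₁ + 4 * η₁ / ε ^ 2 := by positivity
  have h4 := mul_le_mul_of_nonneg_left hsumC (mul_nonneg hr hk)
  have e11 : 2 * (2 * η₁ * (r : ℝ) / ε ^ 2 * ∑ v ∈ L, CC w a J v) =
      r * (4 * η₁ / ε ^ 2) * ∑ v ∈ L, CC w a J v := by ring
  nlinarith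

end

end Pool.Agent.EG
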