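import Pool.Agent.Lib.MP_f04ccf_co.Large.Defs

/-!
MP_f04ccf_co, large `r`: monotonicity facts on the weighted greedy process.
-/

set_option autoImplicit false

namespace Pool.Agent.EG

open Finset

section
variable {V : Type*} [Fintype V] [DecidableEq V] {F : V → V → Prop} [DecidableRel F]
variable {ι : Type*} [DecidableEq ι] {L : Finset ι} {Z : Finset V} {w : ι → V → ℝ} {a : ι → ℝ}
variable {r : ℕ} {ε η₁ C₀ N₀ S₀ H lam lam1 : ℝ}

private theorem pinc_CC_mono (h : PH F L Z w a r ε η₁ C₀ N₀ S₀) {J J' : Finset V} (hJ : J ⊆ J')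
    (hJ' : J' ⊆ Z) {v : ι} (hv : v ∈ L) : CC w a J v ≤ CC w a J' v := by
  unfold CC
  have := Finset.sum_le_sum_of_subset_of_nonneg hJ (f := fun x => w v x)
    (fun x hx _ => h.w0 v hv x (hJ' hx))
  linarith

private theorem pinc_CC_nonneg (h : PH F L Z w a r ε η₁ C₀ N₀ S₀) {J : Finset V} (hJ : J ⊆ Z)
    {v : ι} (hv : v ∈ L) : 0 ≤ CC w a J v := by
  unfold CC
  have h1 := h.a0 v hv
  have h2 : 0 ≤ ∑ x ∈ J, w v x := Finset.sum_nonneg fun x hx => h.w0 v hv x (hJ hx)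
  linarith

private theorem pinc_wd_nonneg (h : PH F L Z w a r ε η₁ C₀ N₀ S₀) {x : V} (hx : x ∈ Z) :
    0 ≤ wd L w x := Finset.sum_nonneg fun v hv => h.w0 v hv x hx

/-- monotonicity of `pen`, `CC`, `sat` in `J` -/
theorem pen_mono (h : PH F L Z w a r ε η₁ C₀ N₀ S₀) (hl : 0 ≤ lam) (hl1 : 0 ≤ lam1)
    {J J' : Finset V} (hJ : J ⊆ J') (hJ' : J' ⊆ Z) (x : V) (hx : x ∈ Z) :
    pen L w a ε lam lam1 J x ≤ pen L w a ε lam lam1 J' x := by
  unfold pen
  have h1 : ∑ v ∈ L, 2 * CC w a J v * w v x ≤ ∑ v ∈ L, 2 * CC w a J' v * w v x := by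
    refine Finset.sum_le_sum fun v hv => ?_
    have h2 := pinc_CC_mono h hJ hJ' hv
    exact mul_le_mul_of_nonneg_right (by linarith) (h.w0 v hv x hx)
  have h3 : (blkSet L w a ε J x).card ≤ (blkSet L w a ε J' x).card := by
    apply Finset.card_le_card
    intro v hv
    unfold blkSet at hv ⊢
    rw [Finset.mem_filter] at hv ⊢
    have h2 := pinc_CC_mono h hJ hJ' hv.1
    exact ⟨hv.1, hv.2.1, by linarith [hv.2.2]⟩
  have h4 : ((blkSet L w a ε J x).card : ℝ) ≤ ((blkSet L w a ε J' x).card : ℝ) := by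
    exact_mod_cast h3
  have h5 := mul_le_mul_of_nonneg_left h1 hl
  linarith

theorem pen_nonneg (h : PH F L Z w a r ε η₁ C₀ N₀ S₀) (hl : 0 ≤ lam) (hl1 : 0 ≤ lam1)
    (J : Finset V) (hJ : J ⊆ Z) (x : V) (hx : x ∈ Z) : 0 ≤ pen L w a ε lam lam1 J x := by
  unfold pen
  have h1 : 0 ≤ ∑ v ∈ L, 2 * CC w a J v * w v x := by
    refine Finset.sum_nonneg fun v hv => ?_
    have h2 := pinc_CC_nonneg h hJ hv
    exact mul_nonneg (by linarith) (h.w0 v hv x hx)
  have h2 := pinc_wd_nonneg h hx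
  have h3 := mul_nonneg hl h1
  have h4 := mul_nonneg hl1 h2
  positivity

/-- `(C+w)^2 - C^2 - w^2 = 2 C w` if `x ∉ J`; if `x ∈ J` nothing changes and `pen ≥ 0`. -/
theorem QQ_insert (h : PH F L Z w a r ε η₁ C₀ N₀ S₀) (hl : 0 ≤ lam) (hl1 : 0 ≤ lam1)
    (J : Finset V) (hJ : J ⊆ Z) (x : V) (hx : x ∈ Z) :
    QQ L w a lam lam1 (insert x J) ≤ QQ L w a lam lam1 J + pen L w a ε lam lam1 J x := by
  by_cases hxJ : x ∈ J
  · rw [Finset.insert_eq_of_mem hxJ]
    linarith [pen_nonneg (ε := ε) h hl hl1 J hJ x hx]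
  have hCC : ∀ v, CC w a (insert x J) v = CC w a J v + w v x := by
    intro v
    unfold CC
    rw [Finset.sum_insert hxJ]
    ring
  unfold QQ pen
  rw [Finset.sum_insert hxJ]
  have h1 : ∑ v ∈ L, ((CC w a (insert x J) v)^2 - (a v)^2 - ∑ y ∈ insert x J, (w v y)^2) =
      ∑ v ∈ L, ((CC w a J v)^2 - (a v)^2 - ∑ y ∈ J, (w v y)^2) +
        ∑ v ∈ L, 2 * CC w a J v * w v x := by
    rw [← Finset.sum_add_distrib]
    refine Finset.sum_congr rfl fun v _ => ?_
    rw [hCC, Finset.sum_insert hxJ]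
    ring
  rw [h1]
  have h2 : (0:ℝ) ≤ 2 * ((blkSet L w a ε J x).card : ℝ) := by positivity
  linarith

theorem sat_mono (h : PH F L Z w a r ε η₁ C₀ N₀ S₀)
    {J J' : Finset V} (hJ : J ⊆ J') (hJ' : J' ⊆ Z) :
    (satSet L w a ε J).card ≤ (satSet L w a ε J').card := by
  apply Finset.card_le_card
  intro v hv
  unfold satSet at hv ⊢
  rw [Finset.mem_filter] at hv ⊢
  have h2 := pinc_CC_mono h hJ hJ' hv.1
  exact ⟨hv.1, by linarith [hv.2]⟩

/-- if `pen x < 2` and `CC J v ≤ 1-ε` for all `v` then the same for `insert x J` -/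
theorem unblocked (h : PH F L Z w a r ε η₁ C₀ N₀ S₀) (hl : 0 ≤ lam) (hl1 : 0 ≤ lam1)
    (J : Finset V) (hJ : J ⊆ Z) (x : V) (hx : x ∈ Z) (hp : pen L w a ε lam lam1 J x < 2)
    (hC : ∀ v ∈ L, CC w a J v ≤ 1 - ε) : ∀ v ∈ L, CC w a (insert x J) v ≤ 1 - ε := by
  intro v hv
  by_cases hxJ : x ∈ J
  · rw [Finset.insert_eq_of_mem hxJ]
    exact hC v hv
  have hCC : CC w a (insert x J) v = CC w a J v + w v x := by
    unfold CC
    rw [Finset.sum_insert hxJ]
    ring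
  have hcard : (blkSet L w a ε J x).card = 0 := by
    unfold pen at hp
    have h1 : 0 ≤ ∑ v ∈ L, 2 * CC w a J v * w v x := by
      refine Finset.sum_nonneg fun v hv => ?_
      have h2 := pinc_CC_nonneg h hJ hv
      exact mul_nonneg (by linarith) (h.w0 v hv x hx)
    have h2 := pinc_wd_nonneg h hx
    have h3 := mul_nonneg hl h1
    have h4 := mul_nonneg hl1 h2
    have h5 : ((blkSet L w a ε J x).card : ℝ) < 1 := by linarith
    have h6 : (blkSet L w a ε J x).card < 1 := by exact_mod_cast h5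
    omega
  rw [Finset.card_eq_zero] at hcard
  have hnot : ¬ (0 < w v x ∧ 1 - ε < CC w a J v + w v x) := by
    intro hcon
    have : v ∈ blkSet L w a ε J x := by
      unfold blkSet
      rw [Finset.mem_filter]
      exact ⟨hv, hcon⟩
    rw [hcard] at this
    exact Finset.notMem_empty _ this
  rw [hCC]
  rcases (h.w0 v hv x hx).lt_or_eq with h1 | h1
  · by_contra hc
    push Not at hc
    exact hnot ⟨h1, hc⟩
  · rw [← h1, add_zero]
    exact hC v hv

end

end Pool.Agent.EG
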