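import Pool.Agent.Lib.MP_f04ccf_co.Large.Defs

set_option autoImplicit false

namespace Pool.Agent.EG

open Finset

section
variable {V : Type*} [Fintype V] [DecidableEq V] {F : V → V → Prop} [DecidableRel F]
variable {ι : Type*} [DecidableEq ι] {L : Finset ι} {Z : Finset V} {w : ι → V → ℝ} {a : ι → ℝ}
variable {r : ℕ} {ε η₁ C₀ N₀ S₀ H lam lam1 : ℝ}

/-- `C^2 - a^2 - ∑ w^2 ≥ 0`, and for saturated `v` it is at least `ε/4` -/
theorem QQ_lower (h : PH F L Z w a r ε η₁ C₀ N₀ S₀) (hε : 0 < ε) (hε1 : ε ≤ 1/1000)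
    (hl : 0 ≤ lam) (J : Finset V) (hJ : J ⊆ Z) :
    lam1 * (∑ x ∈ J, wd L w x) + lam * (ε/4) * ((satSet L w a ε J).card : ℝ)
      ≤ QQ L w a lam lam1 J := by
  unfold QQ
  have hw : ∀ v ∈ L, ∀ x ∈ J, 0 ≤ w v x := fun v hv x hx => h.w0 v hv x (hJ hx)
  -- a general bound
  have key : ∀ v ∈ L, ∀ B : ℝ, a v ≤ B → (∀ x ∈ J, w v x ≤ B) →
      (a v) ^ 2 + ∑ x ∈ J, (w v x) ^ 2 ≤ B * CC w a J v := by
    intro v hv B ha hB
    unfold CC
    rw [mul_add, mul_sum]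
    refine add_le_add ?_ (sum_le_sum fun x hx => ?_)
    · rw [sq]; exact mul_le_mul_of_nonneg_right ha (h.a0 v hv)
    · rw [sq]; exact mul_le_mul_of_nonneg_right (hB x hx) (hw v hv x hx)
  have hC0 : ∀ v ∈ L, 0 ≤ ∑ x ∈ J, w v x := fun v hv => sum_nonneg (hw v hv)
  have h0 : ∀ v ∈ L, 0 ≤ (CC w a J v) ^ 2 - (a v) ^ 2 - ∑ x ∈ J, (w v x) ^ 2 := by
    intro v hv
    have h1 : a v ≤ CC w a J v := by unfold CC; linarith [hC0 v hv]
    have h2 : ∀ x ∈ J, w v x ≤ CC w a J v := by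
      intro x hx
      have h3 := single_le_sum (f := fun x => w v x) (fun y hy => hw v hv y hy) hx
      have h4 := h.a0 v hv
      unfold CC
      linarith
    have := key v hv _ h1 h2
    nlinarith
  have h1 : ∀ v ∈ satSet L w a ε J,
      ε / 4 ≤ (CC w a J v) ^ 2 - (a v) ^ 2 - ∑ x ∈ J, (w v x) ^ 2 := by
    intro v hv
    unfold satSet at hv
    rw [mem_filter] at hv
    obtain ⟨hvL, hvC⟩ := hv
    have h1 : a v ≤ CC w a J v - ε / 2 := by linarith [h.a1 v hvL]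
    have h2 : ∀ x ∈ J, w v x ≤ CC w a J v - ε / 2 := by
      intro x hx
      linarith [h.w2 v hvL x (hJ hx)]
    have := key v hvL _ h1 h2
    nlinarith
  have h2 : ε / 4 * ((satSet L w a ε J).card : ℝ) ≤
      ∑ v ∈ L, ((CC w a J v) ^ 2 - (a v) ^ 2 - ∑ x ∈ J, (w v x) ^ 2) := by
    calc ε / 4 * ((satSet L w a ε J).card : ℝ)
        = ∑ _v ∈ satSet L w a ε J, ε / 4 := by
          rw [sum_const, nsmul_eq_mul, mul_comm]
      _ ≤ ∑ v ∈ satSet L w a ε J, ((CC w a J v) ^ 2 - (a v) ^ 2 - ∑ x ∈ J, (w v x) ^ 2) :=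
          sum_le_sum h1
      _ ≤ ∑ v ∈ L, ((CC w a J v) ^ 2 - (a v) ^ 2 - ∑ x ∈ J, (w v x) ^ 2) :=
          sum_le_sum_of_subset_of_nonneg (filter_subset _ _) fun v hv _ => h0 v hv
  have h3 := mul_le_mul_of_nonneg_left h2 hl
  linarith

end

end Pool.Agent.EG
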