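import Pool.Agent.Lib.MP_f04ccf_co.Large.Defs

set_option autoImplicit false

namespace Pool.Agent.EG

open Finset

theorem harm (n : ℕ) (ε : ℝ) (hε : 0 < ε) :
    ∑ i ∈ range (n+1), 1/((n:ℝ) - i + ε/2) ≤ 2/ε + 1 + Real.log (n+1) := by
  have h1 : ∑ i ∈ range (n+1), 1/((n:ℝ) - i + ε/2) =
      ∑ i ∈ range (n+1), 1/((i:ℝ) + ε/2) := by
    rw [← Finset.sum_range_reflect (fun i : ℕ => 1/((i:ℝ) + ε/2)) (n+1)]
    refine Finset.sum_congr rfl fun i hi => ?_
    have h2 : i ≤ n := by
      have := Finset.mem_range.1 hi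
      omega
    have h3 : n + 1 - 1 - i = n - i := by omega
    simp only [h3]
    rw [Nat.cast_sub h2]
  rw [h1, Finset.sum_range_succ']
  have h4 : ∑ i ∈ range n, 1/(((i + 1 : ℕ) : ℝ) + ε/2) ≤ 1 + Real.log (n+1) := by
    calc ∑ i ∈ range n, 1/(((i + 1 : ℕ) : ℝ) + ε/2)
        ≤ ∑ i ∈ range n, (((i + 1 : ℕ) : ℝ))⁻¹ := by
          refine Finset.sum_le_sum fun i _ => ?_
          rw [← one_div]
          have : (0 : ℝ) < ((i + 1 : ℕ) : ℝ) := by positivity
          exact one_div_le_one_div_of_le this (by linarith)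
      _ = ((harmonic n : ℚ) : ℝ) := by
          unfold harmonic
          push_cast
          rfl
      _ ≤ 1 + Real.log n := harmonic_le_one_add_log n
      _ ≤ 1 + Real.log (n+1) := by
          rcases Nat.eq_zero_or_pos n with h | h
          · subst h
            simp
          · have : (0 : ℝ) < n := by exact_mod_cast h
            have := Real.log_le_log this (show (n : ℝ) ≤ n + 1 by linarith)
            linarith
  have h5 : 1/(((0 : ℕ) : ℝ) + ε/2) = 2/ε := by
    rw [Nat.cast_zero, zero_add, one_div_div]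
  rw [h5]
  linarith

/-- Step A: telescoping. -/
theorem seqA (y P Q K : ℕ → ℝ) (r : ℝ) (hr : 0 < r)
    (h1 : ∀ t, 0 < y t → y t - 1 - y t / r + P t - 1/(y t) * K t ≤ y (t+1))
    (h2 : ∀ t, y (t+1) ≤ y t) (h3 : ∀ t, Q (t+1) ≤ Q t + P t) (hQ0 : Q 0 = 0)
    (hK : ∀ t, K t ≤ K (t+1)) (hK0 : 0 ≤ K 0) (t : ℕ) (hpos : ∀ i < t, 0 < y i) :
    y 0 - t - t * y 0 / r + Q t - (∑ i ∈ range t, 1/(y i)) * K t ≤ y t := by
  induction t with
  | zero => simp [hQ0]
  | succ t ih =>
    have ih' := ih fun i hi => hpos i (by omega)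
    have hp := hpos t (by omega)
    have h4 := h1 t hp
    have h5 : y t ≤ y 0 := by
      have := antitone_nat_of_succ_le h2
      exact this (Nat.zero_le t)
    have h6 : y t / r ≤ y 0 / r := by
      apply div_le_div_of_nonneg_right h5 hr.le
    have h7 : (∑ i ∈ range t, 1/(y i)) * K t ≤ (∑ i ∈ range t, 1/(y i)) * K (t+1) := by
      apply mul_le_mul_of_nonneg_left (hK t)
      refine Finset.sum_nonneg fun i hi => ?_
      have := hpos i (by have := Finset.mem_range.1 hi; omega)
      positivity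
    have h8 : 1/(y t) * K t ≤ 1/(y t) * K (t+1) :=
      mul_le_mul_of_nonneg_left (hK t) (by positivity)
    rw [Finset.sum_range_succ, add_mul]
    push_cast
    have h9 : ((t : ℝ) + 1) * y 0 / r = t * y 0 / r + y 0 / r := by ring
    rw [h9]
    have := h3 t
    linarith

end Pool.Agent.EG
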