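import Pool.Agent.Lib.MP_f04ccf_co.Large.Defs
import Pool.Agent.Lib.MP_f04ccf_co.Large.PHarm

set_option autoImplicit false

namespace Pool.Agent.EG

open Finset

/-- Step B: the invariant for `t ≤ n+1`, and for `t = n+2` if `y (n+1) ≥ ε`; and `P t < 2`. -/
theorem seqB (y P Q S σ : ℕ → ℝ) (n : ℕ) (r ε H lam lam1 ζ M c S₀ : ℝ) (hr : 1 ≤ r)
    (hε : 0 < ε) (hε1 : ε ≤ 1/1000) (hlam : 0 < lam) (hlam1 : 0 < lam1) (hζ : 0 ≤ ζ) (hM : 0 ≤ M)
    (hc : 0 ≤ c) (hS₀ : 0 ≤ S₀)
    (hH : 100/ε + 1 + Real.log (n+1) ≤ H)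
    (c1 : ζ * H ≤ lam1/2) (c2 : M * H ≤ lam*ε/8) (c3 : c * H ≤ ε/8) (c4 : ζ * S₀ * H ≤ ε/8)
    (c5 : ((n:ℝ)+2) * y 0 / r ≤ ε/8)
    (hy0 : (n:ℝ) + ε ≤ y 0)
    (h1 : ∀ t, 0 < y t → y t - 1 - y t / r + P t
      - 1/(y t) * (ζ * (S₀ + S t) + c + M * σ t) ≤ y (t+1))
    (h2 : ∀ t, y (t+1) ≤ y t) (h3 : ∀ t, Q (t+1) ≤ Q t + P t) (hQ0 : Q 0 = 0)
    (hQ : ∀ t, lam1 * S t + lam * (ε/4) * σ t ≤ Q t)
    (hS : ∀ t, S t ≤ S (t+1)) (hS0 : 0 ≤ S 0) (hσ : ∀ t, σ t ≤ σ (t+1)) (hσ0 : 0 ≤ σ 0) :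
    (∀ t ≤ n+1, y 0 - t - 3/8*ε + lam1/2 * S t + lam*ε/8 * σ t ≤ y t) ∧
    (∀ t ≤ n, 0 < y t ∧ P t < 2) ∧
    (ε ≤ y (n+1) → P (n+1) < 2) := by
  have hSn : ∀ t, 0 ≤ S t := fun t => hS0.trans (monotone_nat_of_le_succ hS (Nat.zero_le t))
  have hσn : ∀ t, 0 ≤ σ t := fun t => hσ0.trans (monotone_nat_of_le_succ hσ (Nat.zero_le t))
  have hyanti : ∀ t, y t ≤ y 0 := fun t => antitone_nat_of_succ_le h2 (Nat.zero_le t)
  have hy0' : 0 ≤ y 0 := by
    have : (0 : ℝ) ≤ n := Nat.cast_nonneg n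
    linarith
  have hlog : 0 ≤ Real.log (n+1) := Real.log_nonneg (by
    have : (0 : ℝ) ≤ n := Nat.cast_nonneg n
    linarith)
  have hH0 : 100/ε ≤ H := by linarith
  have hHpos : 0 < H := lt_of_lt_of_le (by positivity) hH0
  -- the quantity K
  have hKH : ∀ t, H * (ζ * (S₀ + S t) + c + M * σ t) ≤
      ε/4 + (lam1/2 * S t + lam*ε/8 * σ t) := by
    intro t
    have e1 := mul_le_mul_of_nonneg_right c1 (hSn t)
    have e2 := mul_le_mul_of_nonneg_right c2 (hσn t)
    nlinarith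
  have hKn : ∀ t, 0 ≤ ζ * (S₀ + S t) + c + M * σ t := by
    intro t
    have := hSn t
    have := hσn t
    positivity
  have hKm : ∀ t, ζ * (S₀ + S t) + c + M * σ t ≤ ζ * (S₀ + S (t+1)) + c + M * σ (t+1) := by
    intro t
    have e1 := mul_le_mul_of_nonneg_left (hS t) hζ
    have e2 := mul_le_mul_of_nonneg_left (hσ t) hM
    nlinarith
  have hW : ∀ t, 0 ≤ lam1/2 * S t + lam*ε/8 * σ t := by
    intro t
    have := hSn t
    have := hσn t
    positivity
  have hr0 : 0 < r := by linarith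
  -- the invariant
  have hinv : ∀ t, t ≤ n+1 → y 0 - t - 3/8*ε + lam1/2 * S t + lam*ε/8 * σ t ≤ y t := by
    intro t
    induction t using Nat.strong_induction_on with
    | _ t ih =>
      intro ht
      have hlow : ∀ i < t, (n:ℝ) - i + ε/2 ≤ y i := by
        intro i hi
        have e1 := ih i hi (by omega)
        have e2 := hW i
        linarith
      have hpos' : ∀ i < t, 0 < (n:ℝ) - i + ε/2 := by
        intro i hi
        have e1 : (i : ℝ) ≤ n := by exact_mod_cast (show i ≤ n by omega)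
        linarith
      have hpos : ∀ i < t, 0 < y i := fun i hi => (hpos' i hi).trans_le (hlow i hi)
      have hsum : ∑ i ∈ range t, 1/(y i) ≤ H := by
        calc ∑ i ∈ range t, 1/(y i) ≤ ∑ i ∈ range t, 1/((n:ℝ) - i + ε/2) := by
              refine Finset.sum_le_sum fun i hi => ?_
              have hi' := Finset.mem_range.1 hi
              exact one_div_le_one_div_of_le (hpos' i hi') (hlow i hi')
          _ ≤ ∑ i ∈ range (n+1), 1/((n:ℝ) - i + ε/2) := by
              refine Finset.sum_le_sum_of_subset_of_nonneg (Finset.range_mono ht) ?_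
              intro i hi _
              have hi' := Finset.mem_range.1 hi
              have e1 : (i : ℝ) ≤ n := by exact_mod_cast (show i ≤ n by omega)
              have : 0 < (n:ℝ) - i + ε/2 := by linarith
              positivity
          _ ≤ 2/ε + 1 + Real.log (n+1) := harm n ε hε
          _ ≤ 100/ε + 1 + Real.log (n+1) := by
              have : 2/ε ≤ 100/ε := by
                apply div_le_div_of_nonneg_right (by norm_num) hε.le
              linarith
          _ ≤ H := hH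
      have hA := seqA y P Q (fun t => ζ * (S₀ + S t) + c + M * σ t) r hr0 h1 h2 h3 hQ0 hKm
        (hKn 0) t hpos
      have e1 : (∑ i ∈ range t, 1/(y i)) * (ζ * (S₀ + S t) + c + M * σ t) ≤
          H * (ζ * (S₀ + S t) + c + M * σ t) := mul_le_mul_of_nonneg_right hsum (hKn t)
      have e2 := hKH t
      have e3 : (t:ℝ) * y 0 / r ≤ ε/8 := by
        refine le_trans ?_ c5
        apply div_le_div_of_nonneg_right _ hr0.le
        apply mul_le_mul_of_nonneg_right _ hy0'
        have : (t : ℝ) ≤ ((n+1 : ℕ) : ℝ) := by exact_mod_cast ht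
        push_cast at this
        linarith
      have e4 := hQ t
      linarith
  -- bound for `P`
  have hP : ∀ t, ε/2 ≤ y t → lam1/2 * S t + lam*ε/8 * σ t ≤ y t + 1 → P t < 2 := by
    intro t ht1 ht2
    have hyt : 0 < y t := by linarith
    have e1 := h1 t hyt
    have e2 := h2 t
    have e3 : y t / r ≤ ε/8 := by
      refine le_trans ?_ c5
      apply div_le_div_of_nonneg_right _ hr0.le
      have : (0 : ℝ) ≤ n := Nat.cast_nonneg n
      have := hyanti t
      nlinarith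
    have e4 : 1/(y t) * (ζ * (S₀ + S t) + c + M * σ t) ≤ 1/2 := by
      have e5 := hKH t
      have e6 : 100/ε * (ζ * (S₀ + S t) + c + M * σ t) ≤
          H * (ζ * (S₀ + S t) + c + M * σ t) := mul_le_mul_of_nonneg_right hH0 (hKn t)
      have e7 : 100 * (ζ * (S₀ + S t) + c + M * σ t) ≤ ε * (ε/4 + (y t + 1)) := by
        have : 100 * (ζ * (S₀ + S t) + c + M * σ t) =
            ε * (100/ε * (ζ * (S₀ + S t) + c + M * σ t)) := by
          field_simp
        rw [this]
        apply mul_le_mul_of_nonneg_left _ hε.le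
        linarith
      rw [one_div, inv_mul_le_iff₀ hyt]
      nlinarith
    linarith
  refine ⟨hinv, ?_, ?_⟩
  · intro t ht
    have e1 := hinv t (by omega)
    have e2 := hW t
    have e3 : (t : ℝ) ≤ n := by exact_mod_cast ht
    refine ⟨by linarith, hP t (by linarith) (by linarith)⟩
  · intro h
    have e1 := hinv (n+1) le_rfl
    push_cast at e1
    exact hP (n+1) (by linarith) (by linarith)

end Pool.Agent.EG
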