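import Pool.Agent.Lib.MP_f04ccf_co.Large.Defs
import Pool.Agent.Lib.MP_f04ccf_co.Large.PInc
import Pool.Agent.Lib.MP_f04ccf_co.Large.PAvg

set_option autoImplicit false

namespace Pool.Agent.EG

open Finset

section
variable {V : Type*} [Fintype V] [DecidableEq V] {F : V → V → Prop} [DecidableRel F]
variable {ι : Type*} [DecidableEq ι] {L : Finset ι} {Z : Finset V} {w : ι → V → ℝ} {a : ι → ℝ}
variable {r : ℕ} {ε η₁ C₀ N₀ S₀ H lam lam1 : ℝ}


theorem AA_insert (Z J : Finset V) (x : V) :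
    AA F Z (insert x J) = (AA F Z J).filter (fun y => F x y) := by
  ext y
  simp only [AA, Finset.mem_filter, Finset.mem_insert, forall_eq_or_imp]
  tauto

/-- the greedy step -/
theorem step (h : PH F L Z w a r ε η₁ C₀ N₀ S₀) (hε : 0 < ε) (hl : 0 ≤ lam) (hl1 : 0 ≤ lam1)
    (hη : 0 ≤ η₁) (J : Finset V) (hJ : J ⊆ Z) (x : V) (hx : x ∈ AA F Z J)
    (hmax : ∀ y ∈ AA F Z J, (dF F y (AA F Z J) : ℝ) - r * pen L w a ε lam lam1 J y
      ≤ dF F x (AA F Z J) - r * pen L w a ε lam lam1 J x) :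
    ((AA F Z J).card : ℝ) - r - ((AA F Z J).card : ℝ)/r + r * pen L w a ε lam lam1 J x
      - (r:ℝ)^2 / ((AA F Z J).card : ℝ) * ((2*lam*η₁ + 4*η₁/ε^2) * (S₀ + ∑ x ∈ J, wd L w x)
          + lam1*C₀ + 2*N₀*((satSet L w a ε J).card : ℝ))
      ≤ ((AA F Z (insert x J)).card : ℝ) := by
  classical
  have hr1 : (1:ℝ) ≤ r := by exact_mod_cast h.r0
  have hr0 : (0:ℝ) < r := by linarith
  have hAZ : AA F Z J ⊆ Z := Finset.filter_subset _ _
  have hsp := sum_pen h hε hl hl1 hη J hJ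
  have ht := h.tur (AA F Z J)
  set A := AA F Z J with hA
  have hm : (0:ℝ) < A.card := by
    have : 0 < A.card := Finset.card_pos.2 ⟨x, hx⟩
    exact_mod_cast this
  have hcard : ((AA F Z (insert x J)).card : ℝ) = dF F x A := by
    rw [AA_insert]; rfl
  have hsum : ∑ y ∈ A, ((dF F y A : ℝ) - r * pen L w a ε lam lam1 J y)
      ≤ A.card * ((dF F x A : ℝ) - r * pen L w a ε lam lam1 J x) := by
    have := Finset.sum_le_card_nsmul A (fun y => (dF F y A : ℝ) - r * pen L w a ε lam lam1 J y)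
      ((dF F x A : ℝ) - r * pen L w a ε lam lam1 J x) hmax
    simpa [nsmul_eq_mul] using this
  have hsum2 : ∑ y ∈ A, ((dF F y A : ℝ) - r * pen L w a ε lam lam1 J y)
      = (e2 F A : ℝ) - r * ∑ y ∈ A, pen L w a ε lam lam1 J y := by
    rw [Finset.sum_sub_distrib, ← Finset.mul_sum]
    unfold e2
    push_cast
    ring
  have hpA : ∑ y ∈ A, pen L w a ε lam lam1 J y ≤ ∑ y ∈ Z, pen L w a ε lam lam1 J y :=
    Finset.sum_le_sum_of_subset_of_nonneg hAZ (fun y hy _ => pen_nonneg h hl hl1 J hJ y hy)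
  set B : ℝ := (2*lam*η₁ + 4*η₁/ε^2) * (S₀ + ∑ x ∈ J, wd L w x)
          + lam1*C₀ + 2*N₀*((satSet L w a ε J).card : ℝ) with hB
  have h1 : (A.card:ℝ) * ((A.card:ℝ) - r - (A.card:ℝ)/r) - r * (r * B)
      ≤ A.card * ((dF F x A : ℝ) - r * pen L w a ε lam lam1 J x) := by
    have : r * ∑ y ∈ A, pen L w a ε lam lam1 J y ≤ r * (r * B) :=
      mul_le_mul_of_nonneg_left (hpA.trans hsp) hr0.le
    linarith
  have h2 : (A.card:ℝ) * (((A.card:ℝ) - r - (A.card:ℝ)/r) - (r:ℝ)^2 / (A.card:ℝ) * B)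
      = (A.card:ℝ) * ((A.card:ℝ) - r - (A.card:ℝ)/r) - r * (r * B) := by
    field_simp
  have h3 : ((A.card:ℝ) - r - (A.card:ℝ)/r) - (r:ℝ)^2 / (A.card:ℝ) * B
      ≤ (dF F x A : ℝ) - r * pen L w a ε lam lam1 J x := by
    refine le_of_mul_le_mul_left ?_ hm
    rw [h2]; exact h1
  rw [hcard]
  linarith

end

end Pool.Agent.EG
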