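import Pool.Agent.Lib.MP_f04ccf_co.Large.Defs
import Pool.Agent.Lib.MP_f04ccf_co.Large.PInc
import Pool.Agent.Lib.MP_f04ccf_co.Large.PLow
import Pool.Agent.Lib.MP_f04ccf_co.Large.PAvg
import Pool.Agent.Lib.MP_f04ccf_co.Large.PStep
import Pool.Agent.Lib.MP_f04ccf_co.Large.PSeqB

set_option autoImplicit false

namespace Pool.Agent.EG

open Finset

section
variable {V : Type*} [Fintype V] [DecidableEq V] {F : V → V → Prop} [DecidableRel F]
variable {ι : Type*} [DecidableEq ι] {L : Finset ι} {Z : Finset V} {w : ι → V → ℝ} {a : ι → ℝ}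
variable {r : ℕ} {ε η₁ C₀ N₀ S₀ H lam lam1 : ℝ}


/-- the process: existence of the greedy sequence with all its properties -/
theorem process (h : PH F L Z w a r ε η₁ C₀ N₀ S₀) (hp : PPar ε H lam lam1 η₁ C₀ N₀ S₀)
    (n : ℕ) (h5 : ((n:ℝ)+2) * Z.card / (r:ℝ)^2 ≤ ε/8) (h6 : 100/ε + 1 + Real.log (n+1) ≤ H)
    (h7 : ((n:ℝ)+ε)*r ≤ Z.card) :
    ∃ (x : ℕ → V) (J : ℕ → Finset V), J 0 = ∅ ∧ (∀ t, J (t+1) = insert (x t) (J t)) ∧
      (∀ t, J t ⊆ Z) ∧
      (∀ t ≤ n, x t ∈ AA F Z (J t) ∧ ∀ y ∈ AA F Z (J t),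
        (dF F y (AA F Z (J t)) : ℝ) - r * pen L w a ε lam lam1 (J t) y
          ≤ dF F (x t) (AA F Z (J t)) - r * pen L w a ε lam lam1 (J t) (x t)) ∧
      (J (n+1)).card = n+1 ∧ IsClq F (J (n+1)) ∧
      (∀ v ∈ L, CC w a (J (n+1)) v ≤ 1 - ε) ∧
      ((Z.card:ℝ)/r - (n+1) - 3/8*ε + lam1/2 * (∑ x ∈ J (n+1), wd L w x)
        + lam*ε/8 * ((satSet L w a ε (J (n+1))).card : ℝ) ≤ ((AA F Z (J (n+1))).card:ℝ)/r) ∧
      (ε*r ≤ ((AA F Z (J (n+1))).card:ℝ) →
        ∃ K : Finset V, K ⊆ Z ∧ IsClq F K ∧ K.card = n+2 ∧ ∀ v ∈ L, CC w a K v ≤ 1 - ε) := by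
  classical
  have hr1 : (1:ℝ) ≤ r := by exact_mod_cast h.r0
  have hr0 : (0:ℝ) < r := by linarith
  have hε := hp.ε0
  have hε1 := hp.ε1
  have hl := hp.lam0
  have hl1 := hp.lam10
  have hZ : Z.Nonempty := by
    rw [← Finset.card_pos]
    have : (0:ℝ) < Z.card := by
      have : 0 < ((n:ℝ)+ε)*r := by positivity
      linarith
    exact_mod_cast this
  obtain ⟨z₀, hz₀⟩ := hZ
  -- the choice function
  have hpick : ∀ J : Finset V, ∃ x : V, x ∈ Z ∧ ((AA F Z J).Nonempty →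
      x ∈ AA F Z J ∧ ∀ y ∈ AA F Z J,
        (dF F y (AA F Z J) : ℝ) - r * pen L w a ε lam lam1 J y
          ≤ dF F x (AA F Z J) - r * pen L w a ε lam lam1 J x) := by
    intro J
    by_cases hne : (AA F Z J).Nonempty
    · obtain ⟨x, hx, hmax⟩ := Finset.exists_max_image (AA F Z J)
        (fun y => (dF F y (AA F Z J) : ℝ) - r * pen L w a ε lam lam1 J y) hne
      refine ⟨x, ?_, fun _ => ⟨hx, hmax⟩⟩
      exact (Finset.mem_filter.1 hx).1
    · exact ⟨z₀, hz₀, fun h => absurd h hne⟩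
  choose pick hpZ hpM using hpick
  let J : ℕ → Finset V := fun t => Nat.rec (motive := fun _ => Finset V) ∅ (fun _ S => insert (pick S) S) t
  have hJ0 : J 0 = ∅ := rfl
  have hJs : ∀ t, J (t+1) = insert (pick (J t)) (J t) := fun t => rfl
  have hJZ : ∀ t, J t ⊆ Z := by
    intro t
    induction t with
    | zero => rw [hJ0]; exact Finset.empty_subset _
    | succ t ih =>
      rw [hJs]
      exact Finset.insert_subset (hpZ _) ih
  have hJsub : ∀ t, J t ⊆ J (t+1) := by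
    intro t; rw [hJs]; exact Finset.subset_insert _ _
  have hAA0 : AA F Z (J 0) = Z := by
    rw [hJ0]; unfold AA; simp
  have hAAs : ∀ t, (AA F Z (J (t+1))).card ≤ (AA F Z (J t)).card := by
    intro t
    rw [hJs, AA_insert]
    exact Finset.card_le_card (Finset.filter_subset _ _)
  have hwd : ∀ x ∈ Z, 0 ≤ wd L w x := fun x hx => Finset.sum_nonneg (fun v hv => h.w0 v hv x hx)
  -- apply seqB
  have hmain := seqB (fun t => ((AA F Z (J t)).card : ℝ)/r)
    (fun t => pen L w a ε lam lam1 (J t) (pick (J t)))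
    (fun t => QQ L w a lam lam1 (J t))
    (fun t => ∑ x ∈ J t, wd L w x)
    (fun t => ((satSet L w a ε (J t)).card : ℝ))
    n r ε H lam lam1 (2*lam*η₁ + 4*η₁/ε^2) (2*N₀) (lam1*C₀) S₀ hr1 hε hε1 hl hl1
    (by have := hp.η₁0; positivity) (by have := hp.N₀0; positivity)
    (by have := hp.C₀0; positivity) hp.S₀0 h6 hp.c1 hp.c2 hp.c3 hp.c4
    (by
      show ((n:ℝ)+2) * (((AA F Z (J 0)).card : ℝ)/r) / r ≤ ε/8
      rw [hAA0]
      have : ((n:ℝ)+2) * ((Z.card : ℝ)/r) / r = ((n:ℝ)+2) * Z.card / (r:ℝ)^2 := by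
        field_simp
      rw [this]; exact h5)
    (by
      show (n:ℝ) + ε ≤ ((AA F Z (J 0)).card : ℝ)/r
      rw [hAA0, le_div_iff₀ hr0]; exact h7)
    (by
      intro t ht
      have ht' : (0:ℝ) < ((AA F Z (J t)).card : ℝ) := by
        have h0 : (0:ℝ) < ((AA F Z (J t)).card : ℝ)/r := ht
        by_contra hcon
        push Not at hcon
        have := div_nonpos_of_nonpos_of_nonneg hcon hr0.le
        linarith
      have hne : (AA F Z (J t)).Nonempty := by
        rw [← Finset.card_pos]; exact_mod_cast ht'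
      obtain ⟨hx, hmax⟩ := hpM (J t) hne
      have hst := step h hε hl.le hl1.le hp.η₁0 (J t) (hJZ t) (pick (J t)) hx hmax
      rw [← hJs t] at hst
      show ((AA F Z (J t)).card : ℝ)/r - 1 - ((AA F Z (J t)).card : ℝ)/r / r
        + pen L w a ε lam lam1 (J t) (pick (J t))
        - 1/(((AA F Z (J t)).card : ℝ)/r) * ((2*lam*η₁ + 4*η₁/ε^2) * (S₀ + ∑ x ∈ J t, wd L w x)
          + lam1*C₀ + 2*N₀*((satSet L w a ε (J t)).card : ℝ)) ≤ ((AA F Z (J (t+1))).card : ℝ)/r
      rw [le_div_iff₀ hr0]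
      refine le_trans (le_of_eq ?_) hst
      field_simp)
    (by
      intro t
      show ((AA F Z (J (t+1))).card : ℝ)/r ≤ ((AA F Z (J t)).card : ℝ)/r
      have : ((AA F Z (J (t+1))).card : ℝ) ≤ ((AA F Z (J t)).card : ℝ) := by
        exact_mod_cast hAAs t
      gcongr)
    (by
      intro t
      show QQ L w a lam lam1 (J (t+1)) ≤ QQ L w a lam lam1 (J t) + pen L w a ε lam lam1 (J t) (pick (J t))
      rw [hJs]
      exact QQ_insert h hl.le hl1.le (J t) (hJZ t) _ (hpZ _))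
    (by
      show QQ L w a lam lam1 (J 0) = 0
      rw [hJ0]; unfold QQ CC; simp)
    (by
      intro t
      exact QQ_lower h hε hε1 hl.le (J t) (hJZ t))
    (by
      intro t
      show ∑ x ∈ J t, wd L w x ≤ ∑ x ∈ J (t+1), wd L w x
      exact Finset.sum_le_sum_of_subset_of_nonneg (hJsub t)
        (fun x hx _ => hwd x (hJZ (t+1) hx)))
    (by
      show 0 ≤ ∑ x ∈ J 0, wd L w x
      rw [hJ0]; simp)
    (by
      intro t
      show ((satSet L w a ε (J t)).card : ℝ) ≤ ((satSet L w a ε (J (t+1))).card : ℝ)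
      exact_mod_cast sat_mono h (hJsub t) (hJZ (t+1)))
    (by positivity)
  obtain ⟨hB1, hB2, hB3⟩ := hmain
  have hpos : ∀ t, (0:ℝ) < ((AA F Z (J t)).card : ℝ)/r → (AA F Z (J t)).Nonempty := by
    intro t ht
    rw [← Finset.card_pos]
    have ht' : (0:ℝ) < ((AA F Z (J t)).card : ℝ) := by
      by_contra hcon
      push Not at hcon
      have := div_nonpos_of_nonpos_of_nonneg hcon hr0.le
      linarith
    exact_mod_cast ht'
  have hmax : ∀ t ≤ n, pick (J t) ∈ AA F Z (J t) ∧ ∀ y ∈ AA F Z (J t),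
        (dF F y (AA F Z (J t)) : ℝ) - r * pen L w a ε lam lam1 (J t) y
          ≤ dF F (pick (J t)) (AA F Z (J t)) - r * pen L w a ε lam lam1 (J t) (pick (J t)) := by
    intro t ht
    exact hpM (J t) (hpos t (hB2 t ht).1)
  -- one step
  have hstep : ∀ (K : Finset V) (x : V), x ∈ AA F Z K → IsClq F K →
      (insert x K).card = K.card + 1 ∧ IsClq F (insert x K) := by
    intro K x hx hK
    have hx' : ∀ y ∈ K, F y x := (Finset.mem_filter.1 hx).2
    have hnot : x ∉ K := fun hxK => h.irr x (hx' x hxK)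
    refine ⟨Finset.card_insert_of_notMem hnot, ?_⟩
    intro u hu v hv huv
    rcases Finset.mem_insert.1 hu with hu1 | hu1
    · rcases Finset.mem_insert.1 hv with hv1 | hv1
      · exact absurd (hu1.trans hv1.symm) huv
      · rw [hu1]; exact h.symm _ _ (hx' v hv1)
    · rcases Finset.mem_insert.1 hv with hv1 | hv1
      · rw [hv1]; exact hx' u hu1
      · exact hK u hu1 v hv1 huv
  have hall : ∀ t ≤ n+1, (J t).card = t ∧ IsClq F (J t) ∧ ∀ v ∈ L, CC w a (J t) v ≤ 1 - ε := by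
    intro t
    induction t with
    | zero =>
      intro _
      refine ⟨by rw [hJ0]; rfl, ?_, ?_⟩
      · intro u hu; rw [hJ0] at hu; exact absurd hu (Finset.notMem_empty _)
      · intro v hv
        have := h.a1 v hv
        rw [hJ0]; unfold CC
        simp only [Finset.sum_empty, add_zero]
        linarith
    | succ t ih =>
      intro ht
      obtain ⟨i1, i2, i3⟩ := ih (by omega)
      have htn : t ≤ n := by omega
      obtain ⟨s1, s2⟩ := hstep (J t) (pick (J t)) (hmax t htn).1 i2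
      refine ⟨?_, ?_, ?_⟩
      · rw [hJs, s1, i1]
      · rw [hJs]; exact s2
      · rw [hJs]
        exact unblocked h hl.le hl1.le (J t) (hJZ t) _ (hpZ _) (hB2 t htn).2 i3
  refine ⟨fun t => pick (J t), J, hJ0, hJs, hJZ, hmax, (hall (n+1) le_rfl).1,
    (hall (n+1) le_rfl).2.1, (hall (n+1) le_rfl).2.2, ?_, ?_⟩
  · have := hB1 (n+1) le_rfl
    simp only [hAA0] at this
    push_cast at this
    exact this
  · intro hbig
    have hy : ε ≤ ((AA F Z (J (n+1))).card : ℝ)/r := by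
      rw [le_div_iff₀ hr0]; exact hbig
    have hP := hB3 hy
    have hne := hpos (n+1) (lt_of_lt_of_le hε hy)
    obtain ⟨i1, i2, i3⟩ := hall (n+1) le_rfl
    obtain ⟨s1, s2⟩ := hstep (J (n+1)) (pick (J (n+1))) (hpM _ hne).1 i2
    refine ⟨insert (pick (J (n+1))) (J (n+1)), Finset.insert_subset (hpZ _) (hJZ (n+1)), s2, ?_, ?_⟩
    · rw [s1, i1]
    · exact unblocked h hl.le hl1.le (J (n+1)) (hJZ (n+1)) _ (hpZ _) hP i3

end

end Pool.Agent.EG
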