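import Mathlib

/-!
Definitions for the large-`r` theorem on MP_f04ccf_co (Erdős–Gyárfás).
`F` is the complement of one colour class of the colouring; `G` (never named) is that colour class,
so `x,y` are `G`-adjacent iff `x ≠ y` and `¬ F x y`.
-/

set_option autoImplicit false

namespace Pool.Agent.EG

open Finset

variable {V : Type*} [Fintype V] [DecidableEq V]

/-- number of `F`-neighbours of `x` in `S` -/
def dF (F : V → V → Prop) [DecidableRel F] (x : V) (S : Finset V) : ℕ :=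
  (S.filter (fun y => F x y)).card

/-- number of elements of `S` that are not `F`-neighbours of `x` (`x` itself counts if `x ∈ S`) -/
def nF (F : V → V → Prop) [DecidableRel F] (x : V) (S : Finset V) : ℕ :=
  (S.filter (fun y => ¬ F x y)).card

/-- twice the number of `F`-edges inside `S` -/
def e2 (F : V → V → Prop) [DecidableRel F] (S : Finset V) : ℕ := ∑ x ∈ S, dF F x S

/-- `S` is a clique of `F` -/
def IsClq (F : V → V → Prop) (S : Finset V) : Prop := ∀ x ∈ S, ∀ y ∈ S, x ≠ y → F x y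

/-- The hypotheses on `F` (everything that is used about the colouring). -/
structure Hyp (F : V → V → Prop) [DecidableRel F] (r : ℕ) : Prop where
  symm : ∀ x y, F x y → F y x
  irr : ∀ x, ¬ F x x
  noClq : ∀ S : Finset V, IsClq F S → S.card ≤ r
  turan : ∀ (S : Finset V) (q : ℕ),
    ((r:ℝ) - 1) * (2 * q * S.card - r * q * (q + 1)) ≤ (e2 F S : ℝ)
  edges : ((r:ℝ)^2 + 1) * r * (r - 1) ≤ (e2 F (univ : Finset V) : ℝ)
  card : Fintype.card V = r^2 + 1

section partition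

variable {r : ℕ}

/-- the class `M_u = {x : p x = u}` of a partition `p` -/
def cl (p : V → Fin r) (u : Fin r) : Finset V := univ.filter (fun x => p x = u)

/-- inside degree `f(x)`: number of `F`-neighbours of `x` in its own class -/
def ind (F : V → V → Prop) [DecidableRel F] (p : V → Fin r) (x : V) : ℕ := dF F x (cl p (p x))

/-- `c_v(x)`: number of non-`F`-neighbours of `x` in the class `M_v` (including `x` if `p x = v`) -/
def cx (F : V → V → Prop) [DecidableRel F] (p : V → Fin r) (v : Fin r) (x : V) : ℕ :=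
  nF F x (cl p v)

/-- cross degree of `x`: number of `G`-neighbours of `x` outside its own class -/
def cd (F : V → V → Prop) [DecidableRel F] (p : V → Fin r) (x : V) : ℕ :=
  ∑ v ∈ univ.erase (p x), cx F p v x

/-- number of `G`-edges between `M_v` and the rest -/
def Ev (F : V → V → Prop) [DecidableRel F] (p : V → Fin r) (v : Fin r) : ℕ :=
  ∑ x ∈ univ.filter (fun x => p x ≠ v), cx F p v x

/-- twice the number of `F`-edges inside the classes (`= 2D`) -/
def D2 (F : V → V → Prop) [DecidableRel F] (p : V → Fin r) : ℕ := ∑ x, ind F p x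

/-- `slack_u = f_u - (r-1) θ_u`, where `f_u = e2 (M_u) / 2`, `θ_u = |M_u| - r` -/
noncomputable def slack (F : V → V → Prop) [DecidableRel F] (p : V → Fin r) (u : Fin r) : ℝ :=
  (e2 F (cl p u) : ℝ) / 2 - ((r:ℝ) - 1) * (((cl p u).card : ℝ) - r)

/-- A configuration: `F` as above with a partition into `r` classes with `D2` minimal. -/
structure Cfg (F : V → V → Prop) [DecidableRel F] (p : V → Fin r) : Prop extends Hyp F r where
  min : ∀ q : V → Fin r, D2 F p ≤ D2 F q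
  D2le : (D2 F p : ℝ) ≤ (r:ℝ)^2

end partition

/-! ### The weighted greedy process -/

section process

variable {ι : Type*} [DecidableEq ι]

/-- candidates: elements of `Z` that are `F`-adjacent to all of `J` -/
def AA (F : V → V → Prop) [DecidableRel F] (Z J : Finset V) : Finset V :=
  Z.filter (fun y => ∀ x ∈ J, F x y)

/-- load of `J` on the index `v` -/
noncomputable def CC (w : ι → V → ℝ) (a : ι → ℝ) (J : Finset V) (v : ι) : ℝ :=
  a v + ∑ x ∈ J, w v x

/-- total weight of `x` -/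
noncomputable def wd (L : Finset ι) (w : ι → V → ℝ) (x : V) : ℝ := ∑ v ∈ L, w v x

/-- the indices by which `x` is blocked -/
noncomputable def blkSet (L : Finset ι) (w : ι → V → ℝ) (a : ι → ℝ) (ε : ℝ) (J : Finset V) (x : V) :
    Finset ι := L.filter (fun v => 0 < w v x ∧ 1 - ε < CC w a J v + w v x)

/-- the saturated indices -/
noncomputable def satSet (L : Finset ι) (w : ι → V → ℝ) (a : ι → ℝ) (ε : ℝ) (J : Finset V) :
    Finset ι := L.filter (fun v => 1 - 3/2*ε < CC w a J v)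

/-- the penalty of `x` -/
noncomputable def pen (L : Finset ι) (w : ι → V → ℝ) (a : ι → ℝ) (ε lam lam1 : ℝ) (J : Finset V)
    (x : V) : ℝ :=
  lam * (∑ v ∈ L, 2 * CC w a J v * w v x) + lam1 * wd L w x
    + 2 * ((blkSet L w a ε J x).card : ℝ)

/-- the potential -/
noncomputable def QQ (L : Finset ι) (w : ι → V → ℝ) (a : ι → ℝ) (lam lam1 : ℝ) (J : Finset V) : ℝ :=
  lam * (∑ v ∈ L, ((CC w a J v)^2 - (a v)^2 - ∑ x ∈ J, (w v x)^2))
    + lam1 * (∑ x ∈ J, wd L w x)

/-- hypotheses of the process (geometry) -/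
structure PH (F : V → V → Prop) [DecidableRel F] (L : Finset ι) (Z : Finset V) (w : ι → V → ℝ)
    (a : ι → ℝ) (r : ℕ) (ε η₁ C₀ N₀ S₀ : ℝ) : Prop where
  symm : ∀ x y, F x y → F y x
  irr : ∀ x, ¬ F x x
  r0 : 1 ≤ r
  tur : ∀ A : Finset V, (A.card:ℝ) * ((A.card:ℝ) - r - (A.card:ℝ)/r) ≤ (e2 F A : ℝ)
  w0 : ∀ v ∈ L, ∀ x ∈ Z, 0 ≤ w v x
  w1 : ∀ v ∈ L, ∑ x ∈ Z, w v x ≤ η₁ * r
  w2 : ∀ v ∈ L, ∀ x ∈ Z, w v x ≤ 1 - 2*ε
  w3 : ∑ x ∈ Z, wd L w x ≤ C₀ * r
  w4 : ∀ v ∈ L, ((Z.filter (fun x => 0 < w v x)).card:ℝ) ≤ N₀ * r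
  a0 : ∀ v ∈ L, 0 ≤ a v
  a1 : ∀ v ∈ L, a v ≤ 1 - 2*ε
  aS : ∑ v ∈ L, a v ≤ S₀

/-- hypotheses of the process (numerical parameters) -/
structure PPar (ε H lam lam1 η₁ C₀ N₀ S₀ : ℝ) : Prop where
  ε0 : 0 < ε
  ε1 : ε ≤ 1/1000
  H0 : 100/ε + 1 ≤ H
  lam0 : 0 < lam
  lam10 : 0 < lam1
  η₁0 : 0 ≤ η₁
  C₀0 : 0 ≤ C₀
  N₀0 : 0 ≤ N₀
  S₀0 : 0 ≤ S₀
  c1 : (2*lam*η₁ + 4*η₁/ε^2) * H ≤ lam1/2
  c2 : 2*N₀*H ≤ lam*ε/8
  c3 : lam1*C₀*H ≤ ε/8
  c4 : (2*lam*η₁ + 4*η₁/ε^2) * S₀ * H ≤ ε/8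

end process

/-! ### Stage 1 objects -/

section stage1

variable {r : ℕ}

/-- `U` contains all heavy classes -/
structure Lt (F : V → V → Prop) [DecidableRel F] (p : V → Fin r) (η : ℝ) (U : Finset (Fin r)) :
    Prop where
  E : ∀ v, v ∉ U → (Ev F p v : ℝ) ≤ η * (r:ℝ)^2
  sl : ∀ v, v ∉ U → slack F p v ≤ η * (r:ℝ)^2
  f : ∀ v, v ∉ U → (e2 F (cl p v) : ℝ)/2 ≤ η * (r:ℝ)^2

/-- global numerical parameters of Stage 1 -/
structure Par (r : ℕ) (ε η H : ℝ) : Prop where
  ε0 : 0 < ε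
  ε1 : ε ≤ 1/1000
  η0 : 0 < η
  η1 : η ≤ ε^2/10^6
  H1 : 100/ε + 1 + Real.log (5/η) ≤ H
  H2 : η * H^3 ≤ ε^4/10^7
  r1 : 1 ≤ η^3 * r

/-- vertices covering at least `(1-2ε) r` vertices of the class `v` -/
noncomputable def FFv (F : V → V → Prop) [DecidableRel F] (p : V → Fin r) (ε : ℝ) (v : Fin r) :
    Finset V := univ.filter (fun z => p z ≠ v ∧ (1 - 2*ε) * r ≤ (cx F p v z : ℝ))

/-- vertices in some `FFv`, `v ∉ U` -/
noncomputable def FF (F : V → V → Prop) [DecidableRel F] (p : V → Fin r) (ε : ℝ)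
    (U : Finset (Fin r)) : Finset V := (univ \ U).biUnion (fun v => FFv F p ε v)

/-- vertices of the heavy classes that are not in `FF` -/
noncomputable def ZZ (F : V → V → Prop) [DecidableRel F] (p : V → Fin r) (ε : ℝ)
    (U : Finset (Fin r)) : Finset V := univ.filter (fun z => p z ∈ U ∧ z ∉ FF F p ε U)

/-- vertices of light classes of inside degree `≥ 4 ε r`, not in `FF` -/
noncomputable def YA (F : V → V → Prop) [DecidableRel F] (p : V → Fin r) (ε : ℝ)
    (U : Finset (Fin r)) : Finset V :=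
  univ.filter (fun y => p y ∉ U ∧ y ∉ FF F p ε U ∧ 4*ε*r ≤ (ind F p y : ℝ))

/-- truncated weights -/
noncomputable def ww (F : V → V → Prop) [DecidableRel F] (p : V → Fin r) (ε η : ℝ) (v : Fin r)
    (x : V) : ℝ := if ε*η/20*r ≤ (cx F p v x : ℝ) then (cx F p v x : ℝ)/r else 0

end stage1

end Pool.Agent.EG
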