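import Pool.Agent.Lib.MP_f04ccf_co.Large.Defs

set_option autoImplicit false

namespace Pool.Agent.EG

open Finset

namespace ITLaux

section
variable {V : Type*} [Fintype V] [DecidableEq V] {ι : Type*} [Fintype ι] [DecidableEq ι]

open Classical in
/-- partial independent transversals on `S` with value `v₀` outside `S` -/
noncomputable def TT (G : V → V → Prop) (X : ι → Finset V) (v₀ : V) (S : Finset ι) :
    Finset (ι → V) :=
  univ.filter (fun f => (∀ i ∈ S, f i ∈ X i) ∧ (∀ i, i ∉ S → f i = v₀) ∧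
    ∀ i ∈ S, ∀ j ∈ S, i ≠ j → ¬ G (f i) (f j))

variable {G : V → V → Prop} {X : ι → Finset V} {v₀ : V}

theorem mem_TT {S : Finset ι} {f : ι → V} : f ∈ TT G X v₀ S ↔
    (∀ i ∈ S, f i ∈ X i) ∧ (∀ i, i ∉ S → f i = v₀) ∧
      ∀ i ∈ S, ∀ j ∈ S, i ≠ j → ¬ G (f i) (f j) := by
  simp only [TT, Finset.mem_filter, Finset.mem_univ, true_and]

theorem TT_empty : (TT G X v₀ (∅ : Finset ι)).card = 1 := by
  rw [Finset.card_eq_one]
  refine ⟨fun _ => v₀, ?_⟩
  ext f
  rw [mem_TT, Finset.mem_singleton]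
  constructor
  · rintro ⟨-, h, -⟩
    funext i
    exact h i (Finset.notMem_empty i)
  · rintro rfl
    simp

theorem TT_fiber (S : Finset ι) {s : ι} (y : V) :
    ((TT G X v₀ S).filter (fun f => f s = y)).card ≤ (TT G X v₀ (S.erase s)).card := by
  refine Finset.card_le_card_of_injOn (fun f => Function.update f s v₀) ?_ ?_
  · intro f hf
    rw [Finset.mem_coe, Finset.mem_filter, mem_TT] at hf
    obtain ⟨⟨h1, h2, h3⟩, -⟩ := hf
    rw [Finset.mem_coe, mem_TT]
    refine ⟨?_, ?_, ?_⟩
    · intro i hi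
      rw [Finset.mem_erase] at hi
      simp only [Function.update_of_ne hi.1]
      exact h1 i hi.2
    · intro i hi
      rw [Finset.mem_erase, not_and_or, not_not] at hi
      by_cases his : i = s
      · simp [his]
      · simp only [Function.update_of_ne his]
        exact h2 i (hi.resolve_left his)
    · intro i hi j hj hij
      rw [Finset.mem_erase] at hi hj
      simp only [Function.update_of_ne hi.1, Function.update_of_ne hj.1]
      exact h3 i hi.2 j hj.2 hij
  · intro f hf g hg hfg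
    rw [Finset.mem_coe, Finset.mem_filter] at hf hg
    funext i
    by_cases his : i = s
    · rw [his, hf.2, hg.2]
    · have := congrFun hfg i
      simpa only [Function.update_of_ne his] using this

open Classical in
theorem TT_good (hsy : ∀ x y, G x y → G y x) (S : Finset ι) {i : ι} (hi : i ∉ S) :
    (((TT G X v₀ S) ×ˢ (X i)).filter (fun p => ∀ s ∈ S, ¬ G p.2 (p.1 s))).card ≤
      (TT G X v₀ (insert i S)).card := by
  refine Finset.card_le_card_of_injOn (fun p => Function.update p.1 i p.2) ?_ ?_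
  · rintro ⟨f, x⟩ hp
    rw [Finset.mem_coe, Finset.mem_filter, Finset.mem_product, mem_TT] at hp
    obtain ⟨⟨⟨h1, h2, h3⟩, hx⟩, h4⟩ := hp
    simp only at hx h1 h2 h3 h4
    rw [Finset.mem_coe, mem_TT]
    have hne : ∀ j ∈ S, j ≠ i := fun j hj h => hi (h ▸ hj)
    refine ⟨?_, ?_, ?_⟩
    · intro j hj
      rw [Finset.mem_insert] at hj
      by_cases hji : j = i
      · subst hji
        simpa using hx
      · simp only [Function.update_of_ne hji]
        exact h1 j (hj.resolve_left hji)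
    · intro j hj
      rw [Finset.mem_insert, not_or] at hj
      simp only [Function.update_of_ne hj.1]
      exact h2 j hj.2
    · intro j hj k hk hjk
      rw [Finset.mem_insert] at hj hk
      by_cases hji : j = i
      · have hki : k ≠ i := fun h => hjk (hji.trans h.symm)
        rw [hji]
        simp only [Function.update_self, Function.update_of_ne hki]
        exact h4 k (hk.resolve_left hki)
      · by_cases hki : k = i
        · rw [hki]
          simp only [Function.update_self, Function.update_of_ne hji]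
          exact fun h => h4 j (hj.resolve_left hji) (hsy _ _ h)
        · simp only [Function.update_of_ne hji, Function.update_of_ne hki]
          exact h3 j (hj.resolve_left hji) k (hk.resolve_left hki) hjk
  · rintro ⟨f, x⟩ hp ⟨g, y⟩ hq hfg
    rw [Finset.mem_coe, Finset.mem_filter, Finset.mem_product, mem_TT] at hp hq
    simp only at hp hq hfg
    have h1 : x = y := by
      have := congrFun hfg i
      simpa using this
    have h2 : f = g := by
      funext j
      by_cases hji : j = i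
      · rw [hji, hp.1.1.2.1 i hi, hq.1.1.2.1 i hi]
      · have := congrFun hfg j
        simpa only [Function.update_of_ne hji] using this
    rw [h1, h2]

open Classical in
theorem TT_bad (S : Finset ι) {s i : ι} (hs : s ∈ S) :
    (((TT G X v₀ S) ×ˢ (X i)).filter (fun p => G p.2 (p.1 s))).card ≤
      (∑ x ∈ X i, ((X s).filter (fun y => G x y)).card) * (TT G X v₀ (S.erase s)).card := by
  have hsub : ((TT G X v₀ S) ×ˢ (X i)).filter (fun p => G p.2 (p.1 s)) ⊆
      (X i).biUnion (fun x => ((X s).filter (fun y => G x y)).biUnion (fun y =>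
        ((TT G X v₀ S).filter (fun f => f s = y)) ×ˢ {x})) := by
    rintro ⟨f, x⟩ hp
    rw [Finset.mem_filter, Finset.mem_product] at hp
    obtain ⟨⟨hf, hx⟩, hG⟩ := hp
    simp only at hf hx hG
    rw [Finset.mem_biUnion]
    refine ⟨x, hx, ?_⟩
    rw [Finset.mem_biUnion]
    refine ⟨f s, ?_, ?_⟩
    · rw [Finset.mem_filter]
      exact ⟨(mem_TT.1 hf).1 s hs, hG⟩
    · rw [Finset.mem_product, Finset.mem_filter]
      exact ⟨⟨hf, rfl⟩, Finset.mem_singleton_self x⟩
  refine (Finset.card_le_card hsub).trans ?_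
  refine Finset.card_biUnion_le.trans ?_
  rw [Finset.sum_mul]
  refine Finset.sum_le_sum fun x _ => ?_
  refine Finset.card_biUnion_le.trans ?_
  rw [← smul_eq_mul, ← Finset.sum_const]
  refine Finset.sum_le_sum fun y _ => ?_
  rw [Finset.card_product, Finset.card_singleton, mul_one]
  exact TT_fiber S y

open Classical in
theorem TT_count (hsy : ∀ x y, G x y → G y x) (S : Finset ι) {i : ι} (hi : i ∉ S) :
    (TT G X v₀ S).card * (X i).card ≤ (TT G X v₀ (insert i S)).card +
      ∑ s ∈ S, (∑ x ∈ X i, ((X s).filter (fun y => G x y)).card) *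
        (TT G X v₀ (S.erase s)).card := by
  rw [← Finset.card_product]
  have hsub : (TT G X v₀ S) ×ˢ (X i) ⊆
      (((TT G X v₀ S) ×ˢ (X i)).filter (fun p => ∀ s ∈ S, ¬ G p.2 (p.1 s))) ∪
      S.biUnion (fun s => ((TT G X v₀ S) ×ˢ (X i)).filter (fun p => G p.2 (p.1 s))) := by
    intro p hp
    rw [Finset.mem_union, Finset.mem_filter, Finset.mem_biUnion]
    by_cases h : ∀ s ∈ S, ¬ G p.2 (p.1 s)
    · exact Or.inl ⟨hp, h⟩
    · push Not at h
      obtain ⟨s, hs, hG⟩ := h
      exact Or.inr ⟨s, hs, Finset.mem_filter.2 ⟨hp, hG⟩⟩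
  refine (Finset.card_le_card hsub).trans ((Finset.card_union_le _ _).trans ?_)
  refine Nat.add_le_add (TT_good hsy S hi) (Finset.card_biUnion_le.trans ?_)
  exact Finset.sum_le_sum fun s hs => TT_bad S hs

open Classical in
theorem TT_step (hsy : ∀ x y, G x y → G y x) {σ : ℝ} (hσ : 0 < σ)
    (hX : ∀ i, σ ≤ (X i).card)
    (hE : ∀ i, ((∑ x ∈ X i, ∑ j ∈ univ.erase i, ((X j).filter (fun y => G x y)).card : ℕ) : ℝ)
      ≤ σ^2/4) : ∀ (n : ℕ) (S : Finset ι), S.card = n → ∀ i, i ∉ S →
      σ/2 * ((TT G X v₀ S).card : ℝ) ≤ ((TT G X v₀ (insert i S)).card : ℝ) := by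
  intro n
  induction n using Nat.strong_induction_on with
  | _ n ih =>
    intro S hS i hi
    have hc := TT_count (X := X) (v₀ := v₀) hsy S hi
    have hc' : ((TT G X v₀ S).card : ℝ) * ((X i).card : ℝ) ≤
        ((TT G X v₀ (insert i S)).card : ℝ) +
        ∑ s ∈ S, ((∑ x ∈ X i, ((X s).filter (fun y => G x y)).card : ℕ) : ℝ) *
          ((TT G X v₀ (S.erase s)).card : ℝ) := by
      exact_mod_cast hc
    set t : ℝ := ((TT G X v₀ S).card : ℝ) with ht
    have ht0 : 0 ≤ t := Nat.cast_nonneg _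
    have hs1 : ∀ s ∈ S, ((TT G X v₀ (S.erase s)).card : ℝ) ≤ 2 / σ * t := by
      intro s hs
      have h1 := ih (S.erase s).card (by rw [← hS]; exact Finset.card_erase_lt_of_mem hs)
        (S.erase s) rfl s (Finset.notMem_erase s S)
      rw [Finset.insert_erase hs, ← ht] at h1
      rw [div_mul_eq_mul_div, le_div_iff₀ hσ]
      linarith
    have hs2 : ∑ s ∈ S, ((∑ x ∈ X i, ((X s).filter (fun y => G x y)).card : ℕ) : ℝ) *
          ((TT G X v₀ (S.erase s)).card : ℝ) ≤
        (∑ s ∈ S, ((∑ x ∈ X i, ((X s).filter (fun y => G x y)).card : ℕ) : ℝ)) * (2 / σ * t) := by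
      rw [Finset.sum_mul]
      exact Finset.sum_le_sum fun s hs => mul_le_mul_of_nonneg_left (hs1 s hs) (Nat.cast_nonneg _)
    have hs3 : ∑ s ∈ S, ((∑ x ∈ X i, ((X s).filter (fun y => G x y)).card : ℕ) : ℝ) ≤ σ^2/4 := by
      refine le_trans ?_ (hE i)
      rw [← Nat.cast_sum]
      rw [Finset.sum_comm]
      refine Nat.cast_le.2 (Finset.sum_le_sum fun x _ => ?_)
      refine Finset.sum_le_sum_of_subset fun s hs => ?_
      rw [Finset.mem_erase]
      exact ⟨fun h => hi (h ▸ hs), Finset.mem_univ s⟩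
    have hs4 : (∑ s ∈ S, ((∑ x ∈ X i, ((X s).filter (fun y => G x y)).card : ℕ) : ℝ)) *
        (2 / σ * t) ≤ σ^2/4 * (2 / σ * t) :=
      mul_le_mul_of_nonneg_right hs3 (by positivity)
    have hs5 : σ^2/4 * (2 / σ * t) = σ/2 * t := by
      field_simp
      ring
    have hs6 : t * σ ≤ t * ((X i).card : ℝ) := mul_le_mul_of_nonneg_left (hX i) ht0
    have : t * σ = σ/2 * t + σ/2 * t := by ring
    linarith

open Classical in
theorem itl_fin (v₀ : V) (hsy : ∀ x y, G x y → G y x) {σ : ℝ} (hσ : 0 < σ)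
    (hX : ∀ i, σ ≤ (X i).card)
    (hE : ∀ i, ((∑ x ∈ X i, ∑ j ∈ univ.erase i, ((X j).filter (fun y => G x y)).card : ℕ) : ℝ)
      ≤ σ^2/4) : ∃ g : ι → V, (∀ i, g i ∈ X i) ∧ ∀ i j, i ≠ j → ¬ G (g i) (g j) := by
  have hpos : ∀ S : Finset ι, 0 < ((TT G X v₀ S).card : ℝ) := by
    intro S
    induction S using Finset.induction_on with
    | empty => rw [TT_empty]; norm_num
    | insert i S hi ih =>
      have h := TT_step (v₀ := v₀) hsy hσ hX hE S.card S rfl i hi
      have : 0 < σ / 2 * ((TT G X v₀ S).card : ℝ) := by positivity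
      linarith
  have h1 := hpos univ
  rw [Nat.cast_pos, Finset.card_pos] at h1
  obtain ⟨f, hf⟩ := h1
  rw [mem_TT] at hf
  exact ⟨f, fun i => hf.1 i (Finset.mem_univ i),
    fun i j hij => hf.2.2 i (Finset.mem_univ i) j (Finset.mem_univ j) hij⟩

end

end ITLaux

section
variable {V : Type*} [Fintype V] [DecidableEq V]

theorem itl {ι : Type*} [DecidableEq ι] [Nonempty V] (G : V → V → Prop) [DecidableRel G]
    (hs : ∀ x y, G x y → G y x) (I : Finset ι) (X : ι → Finset V) (σ : ℝ) (hσ : 0 < σ)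
    (hX : ∀ i ∈ I, σ ≤ (X i).card)
    (hE : ∀ i ∈ I, ((∑ x ∈ X i, ∑ j ∈ I.erase i, ((X j).filter (fun y => G x y)).card : ℕ) : ℝ)
      ≤ σ^2/4) :
    ∃ g : ι → V, (∀ i ∈ I, g i ∈ X i) ∧ ∀ i ∈ I, ∀ j ∈ I, i ≠ j → ¬ G (g i) (g j) := by
  classical
  obtain ⟨v₀⟩ := ‹Nonempty V›
  have hsum : ∀ (i : I) (f : ι → ℕ), ∑ j ∈ (univ : Finset I).erase i, f j
      = ∑ j ∈ I.erase (i : ι), f j := by
    intro i f
    refine Finset.sum_bij (fun (j : I) _ => (j : ι)) ?_ ?_ ?_ ?_
    · intro j hj
      rw [Finset.mem_erase] at hj ⊢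
      exact ⟨fun h => hj.1 (Subtype.ext h), j.2⟩
    · intro j _ k _ h
      exact Subtype.ext h
    · intro j hj
      rw [Finset.mem_erase] at hj
      refine ⟨⟨j, hj.2⟩, ?_, rfl⟩
      rw [Finset.mem_erase]
      exact ⟨fun h => hj.1 (congrArg Subtype.val h), Finset.mem_univ _⟩
    · intro j _
      rfl
  obtain ⟨g, hg1, hg2⟩ := ITLaux.itl_fin (ι := I) (G := G) (X := fun i => X i) v₀ hs hσ
    (fun i => hX i i.2) (by
      intro i
      have h := hE i i.2
      refine le_trans (le_of_eq ?_) h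
      congr 1
      refine Finset.sum_congr rfl fun x _ => ?_
      convert hsum i (fun j => ((X j).filter (fun y => G x y)).card) using 2
      congr 1
      ext y
      simp only [Finset.mem_filter])
  refine ⟨fun i => if h : i ∈ I then g ⟨i, h⟩ else v₀, ?_, ?_⟩
  · intro i hi
    simp only [hi, dif_pos]
    exact hg1 ⟨i, hi⟩
  · intro i hi j hj hij
    simp only [hi, hj, dif_pos]
    exact hg2 ⟨i, hi⟩ ⟨j, hj⟩ (fun h => hij (congrArg Subtype.val h))

end

end Pool.Agent.EG
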