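import Pool.Agent.Lib.MP_f04ccf_co.Large.Basic2
import Pool.Agent.Lib.MP_f04ccf_co.Large.Basic3
import Pool.Agent.Lib.MP_f04ccf_co.Large.ITL

/-!
MP_f04ccf_co, large `r`: extension of a clique by an independent transversal of the light classes.
-/

set_option autoImplicit false

namespace Pool.Agent.EG

open Finset

section
variable {V : Type*} [Fintype V] [DecidableEq V] {F : V → V → Prop} [DecidableRel F]
variable {r : ℕ} {p : V → Fin r}

/-- Extension.  If a clique `J` with `|J| = |U|+1` has at least `σ r` common neighbours in every class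
outside `U`, and these classes have `Ev ≤ (σ r)^2/4`, there is a clique with `r+1` elements. -/
theorem ext (h : Hyp F r) (p : V → Fin r) (U : Finset (Fin r)) (J : Finset V) (hJ : IsClq F J)
    (hc : J.card = U.card + 1) (σ : ℝ) (hσ : 0 < σ) (hr : 1 ≤ r)
    (hX : ∀ v, v ∉ U → σ * r ≤ (((cl p v).filter (fun z => ∀ x ∈ J, F x z)).card : ℝ))
    (hE : ∀ v, v ∉ U → (Ev F p v : ℝ) ≤ (σ*r)^2/4) : False := by
  have hne : Nonempty V := by
    rw [← Fintype.card_pos_iff, h.card]; positivity
  set X : Fin r → Finset V := fun v => (cl p v).filter (fun z => ∀ x ∈ J, F x z) with hXdef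
  have hr' : (0:ℝ) < r := by exact_mod_cast hr
  obtain ⟨g, hg, hgG⟩ := itl (fun x y : V => x ≠ y ∧ ¬ F x y)
    (fun x y hxy => ⟨hxy.1.symm, fun hF => hxy.2 (h.symm _ _ hF)⟩) (univ \ U) X (σ * r)
    (by positivity) (fun i hi => hX i (mem_sdiff.1 hi).2) (by
      intro i hi
      have hi' := (mem_sdiff.1 hi).2
      refine le_trans ?_ (hE i hi')
      rw [Ev_eq h p i]
      have h1 : (∑ x ∈ X i, ∑ j ∈ (univ \ U).erase i,
          ((X j).filter (fun y => x ≠ y ∧ ¬ F x y)).card) ≤ ∑ x ∈ cl p i, cd F p x := by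
        refine le_trans (sum_le_sum (g := fun x => cd F p x) ?_) (sum_le_sum_of_subset (filter_subset _ _))
        intro x hx
        have hpx : p x = i := mem_cl.1 (mem_filter.1 hx).1
        unfold cd
        rw [hpx]
        refine le_trans (sum_le_sum (g := fun j => cx F p j x) ?_)
          (sum_le_sum_of_subset (erase_subset_erase _ (subset_univ _)))
        intro j _
        unfold cx nF
        refine card_le_card ?_
        intro y hy
        rw [mem_filter] at hy ⊢
        exact ⟨(mem_filter.1 hy.1).1, hy.2.2⟩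
      exact_mod_cast h1)
  have hgF : ∀ i ∈ (univ \ U : Finset (Fin r)), ∀ j ∈ (univ \ U : Finset (Fin r)), i ≠ j →
      g i ≠ g j ∧ F (g i) (g j) := by
    intro i hi j hj hij
    have h1 : p (g i) = i := mem_cl.1 (mem_filter.1 (hg i hi)).1
    have h2 : p (g j) = j := mem_cl.1 (mem_filter.1 (hg j hj)).1
    have h3 : g i ≠ g j := fun hh => hij (by rw [← h1, ← h2, hh])
    refine ⟨h3, ?_⟩
    by_contra hF
    exact hgG i hi j hj hij ⟨h3, hF⟩
  have hinj : Set.InjOn g ((univ \ U : Finset (Fin r)) : Set (Fin r)) := by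
    intro i hi j hj hij
    by_contra hne
    exact (hgF i hi j hj hne).1 hij
  have hJg : ∀ x ∈ J, ∀ i ∈ (univ \ U : Finset (Fin r)), F x (g i) := fun x hx i hi =>
    (mem_filter.1 (hg i hi)).2 x hx
  have hdis : Disjoint J ((univ \ U).image g) := by
    rw [disjoint_left]
    intro x hx hx'
    obtain ⟨i, hi, rfl⟩ := mem_image.1 hx'
    exact h.irr _ (hJg _ hx i hi)
  have hcl : IsClq F (J ∪ (univ \ U).image g) := by
    intro x hx y hy hxy
    rw [mem_union] at hx hy
    rcases hx with hx | hx
    · rcases hy with hy | hy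
      · exact hJ x hx y hy hxy
      · obtain ⟨i, hi, rfl⟩ := mem_image.1 hy
        exact hJg x hx i hi
    · obtain ⟨i, hi, rfl⟩ := mem_image.1 hx
      rcases hy with hy | hy
      · exact h.symm _ _ (hJg y hy i hi)
      · obtain ⟨j, hj, rfl⟩ := mem_image.1 hy
        refine (hgF i hi j hj ?_).2
        rintro rfl
        exact hxy rfl
  have hcard := h.noClq _ hcl
  rw [card_union_of_disjoint hdis, card_image_of_injOn hinj, hc,
    card_sdiff_of_subset (subset_univ U), card_univ, Fintype.card_fin] at hcard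
  have hUr : U.card ≤ r := by
    have := card_le_univ U
    rwa [Fintype.card_fin] at this
  omega

end

end Pool.Agent.EG
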