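import Pool.Agent.Lib.MP_f04ccf_co.Large.Heavy
import Pool.Agent.Lib.MP_f04ccf_co.Large.Defs
import Pool.Agent.Lib.MP_f04ccf_co.Large.Basic2
import Pool.Agent.Lib.MP_f04ccf_co.Large.Ext

/-!
MP_f04ccf_co, large `r`: the weights `ww`.
-/

set_option autoImplicit false

namespace Pool.Agent.EG

open Finset

section
variable {V : Type*} [Fintype V] [DecidableEq V] {F : V → V → Prop} [DecidableRel F]
variable {r : ℕ} {p : V → Fin r} {ε η H : ℝ} {U : Finset (Fin r)}

theorem ww_nonneg (v : Fin r) (x : V) : 0 ≤ ww F p ε η v x := by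
  unfold ww
  split_ifs
  · positivity
  · exact le_refl _

theorem ww_le (v : Fin r) (x : V) : ww F p ε η v x ≤ (cx F p v x : ℝ)/r := by
  unfold ww
  split_ifs
  · exact le_refl _
  · positivity

theorem cx_le (hr : 1 ≤ r) (hε : 0 ≤ ε) (hη : 0 ≤ η) (v : Fin r) (x : V) :
    (cx F p v x : ℝ) ≤ ww F p ε η v x * r + ε*η/20*r := by
  have hr0 : (0:ℝ) < r := by exact_mod_cast hr
  have h1 : 0 ≤ ε*η/20*r := by positivity
  unfold ww
  split_ifs with hcx
  · rw [div_mul_cancel₀ _ hr0.ne']
    linarith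
  · push Not at hcx
    linarith

/-- extension in terms of `ww` (uses Ext, Heavy): `∑_{x∈J} c_v(x) ≤ (1-ε) r + |J| ε η/20 r ≤ (1 - 3ε/4) r`,
so at least `(1-2η) r - (1-3ε/4) r ≥ (ε/2) r` common neighbours; `Ev ≤ η r^2 ≤ (ε/2 r)^2/4`. -/
theorem ext_ww (h : Cfg F p) (hP : Par r ε η H) (hU : Lt F p η U) (hk : (U.card : ℝ) ≤ 3/η + 1)
    (U' : Finset (Fin r)) (hU' : U ⊆ U') (hc' : U'.card ≤ U.card + 1) (J : Finset V)
    (hJ : IsClq F J) (hc : J.card = U'.card + 1)
    (hw : ∀ v, v ∉ U' → ∑ x ∈ J, ww F p ε η v x ≤ 1 - ε) : False := by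
  have hε := hP.ε0
  have hη := hP.η0
  have hr1 : 1 ≤ r := by
    by_contra hcon
    have h0 : r = 0 := by omega
    have := hP.r1
    rw [h0] at this
    norm_num at this
  have hr0 : (0:ℝ) < r := by exact_mod_cast hr1
  have hηε : η ≤ ε / 8 := by
    have h1 := hP.η1
    have h2 := hP.ε1
    have h3 : ε^2/10^6 ≤ ε / 8 := by nlinarith
    linarith
  have hη1 : η ≤ 1/100 := by
    have h2 := hP.ε1
    linarith
  -- `|J| ε η / 20 ≤ ε / 4`
  have hJc : (J.card : ℝ) * (ε*η/20) ≤ ε / 4 := by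
    have h1 : (J.card : ℝ) ≤ 3/η + 3 := by
      have h2 : (J.card : ℝ) ≤ (U.card : ℝ) + 2 := by
        have : J.card ≤ U.card + 2 := by omega
        exact_mod_cast this
      linarith
    have h2 : (3/η + 3) * (ε*η/20) = (3 + 3*η) * ε / 20 := by
      field_simp
    have h3 : (J.card : ℝ) * (ε*η/20) ≤ (3/η + 3) * (ε*η/20) :=
      mul_le_mul_of_nonneg_right h1 (by positivity)
    rw [h2] at h3
    nlinarith
  refine ext h.toHyp p U' J hJ hc (ε/2) (by positivity) hr1 ?_ ?_
  · intro v hv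
    have hvU : v ∉ U := fun h' => hv (hU' h')
    have h1 := (card_light h hP hU v hvU).1
    have h2 : ((cl p v).card : ℝ) ≤
        (((cl p v).filter (fun z => ∀ x ∈ J, F x z)).card : ℝ) + ∑ x ∈ J, (cx F p v x : ℝ) := by
      have h3 : (cl p v).card ≤
          ((cl p v).filter (fun z => ∀ x ∈ J, F x z)).card + ∑ x ∈ J, cx F p v x := by
        have h4 : (cl p v) ⊆ ((cl p v).filter (fun z => ∀ x ∈ J, F x z)) ∪
            J.biUnion (fun x => (cl p v).filter (fun y => ¬ F x y)) := by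
          intro z hz
          rw [Finset.mem_union]
          by_cases hzJ : ∀ x ∈ J, F x z
          · left
            rw [Finset.mem_filter]
            exact ⟨hz, hzJ⟩
          · right
            push Not at hzJ
            obtain ⟨x, hx, hxz⟩ := hzJ
            rw [Finset.mem_biUnion]
            exact ⟨x, hx, Finset.mem_filter.2 ⟨hz, hxz⟩⟩
        refine (Finset.card_le_card h4).trans ?_
        refine (Finset.card_union_le _ _).trans ?_
        exact Nat.add_le_add_left Finset.card_biUnion_le _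
      exact_mod_cast h3
    have h5 : ∑ x ∈ J, (cx F p v x : ℝ) ≤ (1 - ε) * r + (J.card : ℝ) * (ε*η/20) * r := by
      calc ∑ x ∈ J, (cx F p v x : ℝ)
          ≤ ∑ x ∈ J, (ww F p ε η v x * r + ε*η/20*r) :=
            Finset.sum_le_sum fun x _ => cx_le hr1 hε.le hη.le v x
        _ = (∑ x ∈ J, ww F p ε η v x) * r + (J.card : ℝ) * (ε*η/20) * r := by
            rw [Finset.sum_add_distrib, ← Finset.sum_mul, Finset.sum_const, nsmul_eq_mul]
            ring
        _ ≤ (1 - ε) * r + (J.card : ℝ) * (ε*η/20) * r := by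
            have := mul_le_mul_of_nonneg_right (hw v hv) hr0.le
            linarith
    have h6 : (J.card : ℝ) * (ε*η/20) * r ≤ ε / 4 * r := mul_le_mul_of_nonneg_right hJc hr0.le
    have h7 : (2 * η) * r ≤ (ε / 4) * r := mul_le_mul_of_nonneg_right (by linarith) hr0.le
    nlinarith
  · intro v hv
    have hvU : v ∉ U := fun h' => hv (hU' h')
    have h1 := hU.E v hvU
    have h2 : η * (r:ℝ)^2 ≤ ε^2/16 * (r:ℝ)^2 := by
      apply mul_le_mul_of_nonneg_right _ (by positivity)
      have := hP.η1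
      have h3 : ε^2/10^6 ≤ ε^2/16 := by
        apply div_le_div_of_nonneg_left (by positivity) (by norm_num) (by norm_num)
      linarith
    have h3 : (ε/2*r)^2/4 = ε^2/16 * (r:ℝ)^2 := by ring
    rw [h3]
    linarith

end

end Pool.Agent.EG
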