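import Pool.Agent.Lib.MP_f04ccf_co.Large.Defs
import Pool.Agent.Lib.MP_f04ccf_co.Large.Basic1
import Pool.Agent.Lib.MP_f04ccf_co.Large.Basic2

/-!
MP_f04ccf_co, large `r`: few vertices cover a large part of a class.
-/

set_option autoImplicit false

namespace Pool.Agent.EG

open Finset

section
variable {V : Type*} [Fintype V] [DecidableEq V] {F : V → V → Prop} [DecidableRel F]
variable {r : ℕ} {p : V → Fin r}

/-- Few vertices cover a large part of a class.  `g r` is a lower bound for `c_w(y) - 1 - θ_w`.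
By `cover`, every `Y' ⊆ Y` with `t` elements has `t (g r - t/2) ≤ slack` (as `e2 Y' ≤ t^2`).
If `|Y| > 2 slack/(g r)`, take `t = ⌊2 slack/(g r)⌋ + 1 ≤ g r`, then `t (g r - t/2) ≥ t g r/2 > slack`. -/
theorem cover_count (h : Hyp F r) (p : V → Fin r) (w : Fin r) (Y : Finset V)
    (hY : ∀ y ∈ Y, p y ≠ w) (g : ℝ) (hg : 0 < g) (hr : 1 ≤ r)
    (hc : ∀ y ∈ Y, g * r ≤ (cx F p w y : ℝ) - 1 - (((cl p w).card : ℝ) - r))
    (hs : 2 * slack F p w / (g*r) + 1 ≤ g * r) :
    (Y.card : ℝ) ≤ 2 * slack F p w / (g*r) ∧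
      (Y.card : ℝ) * (g*r - slack F p w / (g*r)) ≤ slack F p w := by
  have hr' : (0:ℝ) < r := by exact_mod_cast hr
  have hG : 0 < g * r := mul_pos hg hr'
  set G := g * r with hGdef
  set s := slack F p w with hsdef
  have hs0 : 0 ≤ s := slack_nonneg h p w
  have key : ∀ Y' ⊆ Y, (Y'.card : ℝ) * (G - (Y'.card : ℝ) / 2) ≤ s := by
    intro Y' hY'
    have h1 := cover h p w Y' (fun y hy => hY y (hY' hy))
    have h2 : (Y'.card : ℝ) * G ≤
        ∑ y ∈ Y', ((cx F p w y : ℝ) - 1 - (((cl p w).card : ℝ) - r)) := by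
      have := Finset.card_nsmul_le_sum Y'
        (fun y => (cx F p w y : ℝ) - 1 - (((cl p w).card : ℝ) - r)) G (fun y hy => hc y (hY' hy))
      rwa [nsmul_eq_mul] at this
    have h3 : (e2 F Y' : ℝ) ≤ (Y'.card : ℝ) ^ 2 := by exact_mod_cast e2_le (F := F) Y'
    nlinarith
  have hfirst : (Y.card : ℝ) ≤ 2 * s / G := by
    by_contra hcon
    push Not at hcon
    set t := ⌊2 * s / G⌋₊ + 1 with ht
    have hsG : 0 ≤ 2 * s / G := by positivity
    have htY : t ≤ Y.card := by
      have : ⌊2 * s / G⌋₊ < Y.card := (Nat.floor_lt hsG).2 hcon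
      omega
    obtain ⟨Y', hY', hcard⟩ := Finset.exists_subset_card_eq htY
    have h1 := key Y' hY'
    rw [hcard] at h1
    have h2 : 2 * s / G < (t : ℝ) := by
      rw [ht]
      push_cast
      exact Nat.lt_floor_add_one _
    have h3 : (t : ℝ) ≤ G := by
      rw [ht]
      push_cast
      have := Nat.floor_le hsG
      linarith
    rw [div_lt_iff₀ hG] at h2
    have h4 : (0:ℝ) ≤ t := Nat.cast_nonneg t
    nlinarith
  refine ⟨hfirst, ?_⟩
  have h1 := key Y (Finset.Subset.refl _)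
  have h2 : (Y.card : ℝ) / 2 ≤ s / G := by
    have : 2 * s / G = 2 * (s / G) := by ring
    linarith
  have h3 : (0:ℝ) ≤ Y.card := Nat.cast_nonneg _
  nlinarith

end

end Pool.Agent.EG
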