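import Pool.Agent.Lib.MP_f04ccf_co.Large.Heavy
import Pool.Agent.Lib.MP_f04ccf_co.Large.Defs
import Pool.Agent.Lib.MP_f04ccf_co.Large.Basic1
import Pool.Agent.Lib.MP_f04ccf_co.Large.Basic2
import Pool.Agent.Lib.MP_f04ccf_co.Large.Cover
import Pool.Agent.Lib.MP_f04ccf_co.Large.Pars

/-!
MP_f04ccf_co, large `r`: the set `FF` of vertices covering most of a light class is small.
-/

set_option autoImplicit false

namespace Pool.Agent.EG

open Finset

section
variable {V : Type*} [Fintype V] [DecidableEq V] {F : V → V → Prop} [DecidableRel F]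
variable {r : ℕ} {p : V → Fin r} {ε η H : ℝ} {U : Finset (Fin r)}

/-- from the parameters: `1 ≤ η r`, and `r` is positive -/
theorem Par_r (hP : Par r ε η H) : (1:ℝ) ≤ η * r ∧ 1 ≤ r := by
  have h0 := hP.η0
  have h1 := Par_eta_small hP
  have h2 := hP.r1
  have hr0 : (0:ℝ) ≤ r := Nat.cast_nonneg r
  have h3 : η ≤ 1 := h1.trans (by norm_num)
  have h4 : η^3 ≤ η := by
    have : η^2 ≤ 1 := by nlinarith
    nlinarith
  have h5 : (1:ℝ) ≤ η * r := h2.trans (mul_le_mul_of_nonneg_right h4 hr0)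
  refine ⟨h5, ?_⟩
  by_contra hc
  have : r = 0 := by omega
  subst this
  norm_num at h5

theorem FFv_card (h : Cfg F p) (hP : Par r ε η H) (hU : Lt F p η U) (v : Fin r) (hv : v ∉ U) :
    ((FFv F p ε v).card : ℝ) ≤ 3*η*r ∧
      ((FFv F p ε v).card : ℝ) * ((1 - 3*ε)*r) ≤ slack F p v := by
  obtain ⟨hr1, hr⟩ := Par_r hP
  have hr0 : (0:ℝ) < r := by exact_mod_cast hr
  have hη0 := hP.η0
  have hηs := Par_eta_small hP
  have hε0 := hP.ε0
  have hε1 := hP.ε1
  have hη1 := hP.η1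
  have hηε : 100 * η ≤ ε := by nlinarith
  obtain ⟨-, hc⟩ := card_light h hP hU v hv
  have hsl := hU.sl v hv
  have hsl0 := slack_nonneg h.toHyp p v
  have hg : 0 < 1 - 2*ε - 3*η := by nlinarith
  have hg2 : (9:ℝ)/10 ≤ 1 - 2*ε - 3*η := by nlinarith
  have hG : 0 < (1 - 2*ε - 3*η) * r := mul_pos hg hr0
  have hGr : (9:ℝ)/10 * r ≤ (1 - 2*ε - 3*η) * r := mul_le_mul_of_nonneg_right hg2 hr0.le
  -- slack / (g r) ≤ 10/9 η r
  have hq : slack F p v / ((1 - 2*ε - 3*η) * r) ≤ 10/9*η*r := by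
    rw [div_le_iff₀ hG]
    have : η * (r:ℝ)^2 ≤ 10/9*η*r * ((1 - 2*ε - 3*η) * r) := by
      have h1 : 0 ≤ 10/9*η*r := by positivity
      have h2 := mul_le_mul_of_nonneg_left hGr h1
      nlinarith
    linarith
  have hq2 : 2 * slack F p v / ((1 - 2*ε - 3*η) * r) ≤ 20/9*η*r := by
    have : 2 * slack F p v / ((1 - 2*ε - 3*η) * r) = 2 * (slack F p v / ((1 - 2*ε - 3*η) * r)) := by
      ring
    rw [this]; linarith
  have key := cover_count h.toHyp p v (FFv F p ε v)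
    (fun y hy => (Finset.mem_filter.mp hy).2.1) (1 - 2*ε - 3*η) hg hr
    (by
      intro y hy
      have hy2 := (Finset.mem_filter.mp hy).2.2
      nlinarith)
    (by
      have : 20/9*η*r + 1 ≤ (1 - 2*ε - 3*η) * r := by nlinarith
      linarith)
  obtain ⟨k1, k2⟩ := key
  have hη0r : 0 ≤ η * r := by positivity
  refine ⟨by linarith, ?_⟩
  refine le_trans ?_ k2
  apply mul_le_mul_of_nonneg_left _ (Nat.cast_nonneg _)
  nlinarith

theorem FF_card (h : Cfg F p) (hP : Par r ε η H) (hU : Lt F p η U) :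
    ((FF F p ε U).card : ℝ) * ((1 - 3*ε)*r) ≤ ∑ v ∈ univ \ U, slack F p v ∧
    ((FF F p ε U).card : ℝ) ≤ 3/5*r := by
  obtain ⟨hr1, hr⟩ := Par_r hP
  have hr0 : (0:ℝ) < r := by exact_mod_cast hr
  have hrr : (1:ℝ) ≤ r := by exact_mod_cast hr
  have hε0 := hP.ε0
  have hε1 := hP.ε1
  have hpos : 0 < (1 - 3*ε)*r := mul_pos (by linarith) hr0
  have h1 : ((FF F p ε U).card : ℝ) * ((1 - 3*ε)*r) ≤ ∑ v ∈ univ \ U, slack F p v := by
    have hc : ((FF F p ε U).card : ℝ) ≤ ∑ v ∈ univ \ U, ((FFv F p ε v).card : ℝ) := by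
      unfold FF
      exact_mod_cast Finset.card_biUnion_le
    calc ((FF F p ε U).card : ℝ) * ((1 - 3*ε)*r)
        ≤ (∑ v ∈ univ \ U, ((FFv F p ε v).card : ℝ)) * ((1 - 3*ε)*r) :=
          mul_le_mul_of_nonneg_right hc hpos.le
      _ = ∑ v ∈ univ \ U, ((FFv F p ε v).card : ℝ) * ((1 - 3*ε)*r) := Finset.sum_mul _ _ _
      _ ≤ ∑ v ∈ univ \ U, slack F p v := by
          apply Finset.sum_le_sum
          intro v hv
          exact (FFv_card h hP hU v (Finset.mem_sdiff.mp hv).2).2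
  refine ⟨h1, ?_⟩
  have h2 : ∑ v ∈ univ \ U, slack F p v ≤ ∑ v, slack F p v :=
    Finset.sum_le_sum_of_subset_of_nonneg (Finset.subset_univ _)
      (fun v _ _ => slack_nonneg h.toHyp p v)
  have h3 := sum_slack h.toHyp p
  have h4 := h.D2le
  have h5 : ((FF F p ε U).card : ℝ) * ((1 - 3*ε)*r) ≤ (r:ℝ)^2/2 := by linarith
  have h6 : (99/100:ℝ)*r ≤ (1 - 3*ε)*r := by nlinarith
  by_contra hlt
  push Not at hlt
  have h7 : (3/5*r) * (99/100*r) < ((FF F p ε U).card : ℝ) * ((1 - 3*ε)*r) :=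
    mul_lt_mul hlt h6 (by positivity) (by positivity)
  nlinarith [mul_pos hr0 hr0]

end

end Pool.Agent.EG
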