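import Pool.Agent.Lib.MP_f04ccf_co.Large.Defs
import Pool.Agent.Lib.MP_f04ccf_co.Large.Basic1
import Pool.Agent.Lib.MP_f04ccf_co.Large.Basic2
import Pool.Agent.Lib.MP_f04ccf_co.Large.FFb

/-!
MP_f04ccf_co, large `r`: the set `ZZ` is large.
-/

set_option autoImplicit false

namespace Pool.Agent.EG

open Finset

section
variable {V : Type*} [Fintype V] [DecidableEq V] {F : V → V → Prop} [DecidableRel F]
variable {r : ℕ} {p : V → Fin r} {ε η H : ℝ} {U : Finset (Fin r)}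

/-- `|Z| ≥ (k - d) r` with `d = D/r^2 + 4ε` (`D = D2/2`).  `Θ = ∑_{v∈U} (|M_v| - r)`,
`|Z| ≥ k r + Θ - |FF|`, `|FF| (1-3ε) r ≤ ∑_{v∉U} slack_v`, `D ≤ r^2/2`.  Case `Θ ≥ 0`:
`∑_{v∉U} slack_v ≤ ∑ slack ≤ D`, so `|FF| - Θ ≤ D/((1-3ε) r) ≤ D/r + 4 ε r`.  Case `Θ < 0`:
`∑_{v∉U} slack_v = D_l - (r-1)(1-Θ) ≤ D + (r-1) Θ` and `(r-1)/((1-3ε) r) ≥ 1`. -/
theorem ZZ_card (h : Cfg F p) (hP : Par r ε η H) (hU : Lt F p η U) :
    (U.card : ℝ) * r - (D2 F p : ℝ)/(2*r) - 4*ε*r ≤ ((ZZ F p ε U).card : ℝ) := by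
  obtain ⟨hr1, hr⟩ := Par_r hP
  have hr0 : (0:ℝ) < r := by exact_mod_cast hr
  have hrr : (1:ℝ) ≤ r := by exact_mod_cast hr
  have hε0 := hP.ε0
  have hε1 := hP.ε1
  have hη0 := hP.η0
  have hηs := Par_eta_small hP
  have hη1 := hP.η1
  have hηε : 100 * η ≤ ε := by nlinarith
  have hεr : 1 ≤ 3*ε*r := by nlinarith
  have hpos : 0 < (1 - 3*ε)*r := mul_pos (by linarith) hr0
  obtain ⟨hF, -⟩ := FF_card h hP hU
  -- the size of the union of the classes in `U`
  set T : ℝ := ∑ v ∈ U, (((cl p v).card : ℝ) - r) with hT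
  have hunion : (((univ.filter (fun z => p z ∈ U)) : Finset V).card : ℝ) = (U.card:ℝ) * r + T := by
    have h1 : ((univ.filter (fun z => p z ∈ U)) : Finset V).card = ∑ v ∈ U, (cl p v).card := by
      rw [Finset.card_eq_sum_card_fiberwise (f := p) (t := U)]
      · apply Finset.sum_congr rfl
        intro v hv
        congr 1
        ext x
        simp only [Finset.mem_filter, Finset.mem_univ, true_and, cl]
        constructor
        · rintro ⟨_, h⟩; exact h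
        · intro h; exact ⟨h ▸ hv, h⟩
      · intro x hx
        exact (Finset.mem_filter.mp hx).2
    rw [h1, hT]
    push_cast
    rw [Finset.sum_sub_distrib, Finset.sum_const, nsmul_eq_mul]
    ring
  have hZ : (U.card:ℝ) * r + T - ((FF F p ε U).card : ℝ) ≤ ((ZZ F p ε U).card : ℝ) := by
    have h1 : (univ.filter (fun z => p z ∈ U)) \ (FF F p ε U) = ZZ F p ε U := by
      ext z
      simp [ZZ]
    have h2 := Finset.le_card_sdiff (FF F p ε U) (univ.filter (fun z => p z ∈ U))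
    rw [h1] at h2
    have h3 : (((univ.filter (fun z => p z ∈ U)) : Finset V).card : ℝ)
        ≤ ((ZZ F p ε U).card : ℝ) + ((FF F p ε U).card : ℝ) := by
      have : ((univ.filter (fun z => p z ∈ U)) : Finset V).card
        ≤ (ZZ F p ε U).card + (FF F p ε U).card := by omega
      exact_mod_cast this
    linarith
  have hD := h.D2le
  have hsum := sum_slack h.toHyp p
  have hDr : (D2 F p : ℝ)/(2*r) ≤ r/2 := by
    rw [div_le_iff₀ (by positivity)]
    nlinarith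
  have hD0 : (0:ℝ) ≤ (D2 F p : ℝ)/(2*r) := by positivity
  -- it is enough to bound `|FF|`
  suffices hs : ((FF F p ε U).card : ℝ) ≤ T + (D2 F p : ℝ)/(2*r) + 4*ε*r by linarith
  have hDmul : (D2 F p : ℝ)/2 = (D2 F p : ℝ)/(2*r) * r := by field_simp
  rcases le_or_gt 0 T with hT0 | hT0
  · -- case `T ≥ 0`
    have h2 : ∑ v ∈ univ \ U, slack F p v ≤ ∑ v, slack F p v :=
      Finset.sum_le_sum_of_subset_of_nonneg (Finset.subset_univ _)
        (fun v _ _ => slack_nonneg h.toHyp p v)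
    have h3 : ((FF F p ε U).card : ℝ) * ((1 - 3*ε)*r) ≤ (D2 F p : ℝ)/(2*r) * r := by
      rw [← hDmul]; linarith
    have h4 : (D2 F p : ℝ)/(2*r) * r ≤ ((D2 F p : ℝ)/(2*r) + 4*ε*r) * ((1 - 3*ε)*r) := by
      have : (D2 F p : ℝ)/(2*r) ≤ ((D2 F p : ℝ)/(2*r) + 4*ε*r) * (1 - 3*ε) := by
        nlinarith [mul_nonneg hε0.le hr0.le]
      nlinarith
    have h5 : ((FF F p ε U).card : ℝ) ≤ (D2 F p : ℝ)/(2*r) + 4*ε*r :=
      le_of_mul_le_mul_right (h3.trans h4) hpos
    linarith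
  · -- case `T < 0`
    have hcompl : ∑ v ∈ univ \ U, (((cl p v).card : ℝ) - r) = 1 - T := by
      have e1 : ∑ v ∈ univ \ U, (((cl p v).card : ℝ) - r) + T = ∑ v, (((cl p v).card : ℝ) - r) := by
        rw [hT]
        exact Finset.sum_sdiff (Finset.subset_univ U)
      have e2 : ∑ v : Fin r, (((cl p v).card : ℝ) - r) = 1 := by
        rw [Finset.sum_sub_distrib, sum_card_cl h.toHyp p]
        simp
        ring
      linarith
    have hsl : ∑ v ∈ univ \ U, slack F p v ≤ (D2 F p : ℝ)/2 - ((r:ℝ) - 1) * (1 - T) := by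
      unfold slack
      rw [Finset.sum_sub_distrib, ← Finset.mul_sum, hcompl]
      have : ∑ v ∈ univ \ U, (e2 F (cl p v) : ℝ)/2 ≤ (D2 F p : ℝ)/2 := by
        rw [← Finset.sum_div]
        apply div_le_div_of_nonneg_right _ (by norm_num)
        rw [← sum_e2_cl (F := F) p]
        push_cast
        exact Finset.sum_le_sum_of_subset_of_nonneg (Finset.subset_univ _)
          (fun v _ _ => Nat.cast_nonneg _)
      linarith
    have h3 : ((FF F p ε U).card : ℝ) * ((1 - 3*ε)*r) ≤ (D2 F p : ℝ)/(2*r) * r + ((r:ℝ) - 1) * T := by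
      rw [← hDmul]; nlinarith
    have h4 : (D2 F p : ℝ)/(2*r) * r + ((r:ℝ) - 1) * T
        ≤ (T + (D2 F p : ℝ)/(2*r) + 4*ε*r) * ((1 - 3*ε)*r) := by
      have h41 : ((r:ℝ) - 1) * T ≤ T * ((1 - 3*ε)*r) := by nlinarith
      have h42 : (D2 F p : ℝ)/(2*r) ≤ ((D2 F p : ℝ)/(2*r) + 4*ε*r) * (1 - 3*ε) := by
        nlinarith [mul_nonneg hε0.le hr0.le]
      nlinarith
    exact le_of_mul_le_mul_right (h3.trans h4) hpos

end

end Pool.Agent.EG
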