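import Pool.Agent.Lib.MP_f04ccf_co.Large.Wt
import Pool.Agent.Lib.MP_f04ccf_co.Large.Basic3
import Pool.Agent.Lib.MP_f04ccf_co.Large.Process
import Pool.Agent.Lib.MP_f04ccf_co.Large.Pars
import Pool.Agent.Lib.MP_f04ccf_co.Large.PHbase
import Pool.Agent.Lib.MP_f04ccf_co.Large.Zb
import Pool.Agent.Lib.MP_f04ccf_co.Large.Wt

set_option autoImplicit false

namespace Pool.Agent.EG

open Finset

section
variable {V : Type*} [Fintype V] [DecidableEq V] {F : V → V → Prop} [DecidableRel F]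
variable {r : ℕ} {p : V → Fin r} {ε η H : ℝ} {U : Finset (Fin r)}

/-- non-`F`-neighbours of `y` in a set avoiding its class: at most the cross degree -/
theorem cl2_nF_le (y : V) (S : Finset V) (hS : ∀ z ∈ S, p z ≠ p y) : nF F y S ≤ cd F p y := by
  unfold nF cd cx nF
  have h1 : S.filter (fun z => ¬ F y z) ⊆
      (univ.erase (p y)).biUnion (fun v => (cl p v).filter (fun z => ¬ F y z)) := by
    intro z hz
    rw [mem_filter] at hz
    rw [mem_biUnion]
    refine ⟨p z, by rw [mem_erase]; exact ⟨hS z hz.1, mem_univ _⟩, ?_⟩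
    rw [mem_filter]
    refine ⟨?_, hz.2⟩
    unfold cl
    simp
  exact (card_le_card h1).trans card_biUnion_le

/-- the size of the candidate set of Claim 2 -/
theorem cl2_card (y y' : V) (Z : Finset V) (hy : ∀ z ∈ Z, p z ≠ p y) (hy' : ∀ z ∈ Z, p z ≠ p y') :
    (Z.card : ℝ) - cd F p y - cd F p y' ≤ ((Z.filter (fun z => F y z ∧ F y' z)).card : ℝ) := by
  have h1 : Z ⊆ Z.filter (fun z => F y z ∧ F y' z) ∪
      (Z.filter (fun z => ¬ F y z) ∪ Z.filter (fun z => ¬ F y' z)) := by
    intro z hz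
    simp only [mem_union, mem_filter, hz, true_and]
    tauto
  have h2 := card_le_card h1
  have h3 := card_union_le (Z.filter (fun z => F y z ∧ F y' z))
    (Z.filter (fun z => ¬ F y z) ∪ Z.filter (fun z => ¬ F y' z))
  have h4 := card_union_le (Z.filter (fun z => ¬ F y z)) (Z.filter (fun z => ¬ F y' z))
  have h5 := cl2_nF_le (F := F) (p := p) y Z hy
  have h6 := cl2_nF_le (F := F) (p := p) y' Z hy'
  unfold nF at h5 h6
  have h7 : Z.card ≤ (Z.filter (fun z => F y z ∧ F y' z)).card + cd F p y + cd F p y' := by omega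
  have h8 : (Z.card : ℝ) ≤ ((Z.filter (fun z => F y z ∧ F y' z)).card : ℝ) + cd F p y + cd F p y' := by
    exact_mod_cast h7
  linarith

private theorem cl2_card_all (h : Cfg F p) (hr : 2 ≤ r) (v : Fin r) :
    ((cl p v).card : ℝ) ≤ 2 * r := by
  have hr2 : (2:ℝ) ≤ r := by exact_mod_cast hr
  have h1 := slack_nonneg h.toHyp p v
  have h2 : e2 F (cl p v) ≤ D2 F p := by
    rw [← sum_e2_cl]
    exact single_le_sum (f := fun u => e2 F (cl p u)) (fun _ _ => Nat.zero_le _) (mem_univ v)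
  have h3 : (e2 F (cl p v) : ℝ) ≤ D2 F p := by exact_mod_cast h2
  have h4 := h.D2le
  unfold slack at h1
  nlinarith

/-- Claim 2 -/
theorem claim2 (h : Cfg F p) (hP : Par r ε η H) (hU : Lt F p η U) (hk : (U.card : ℝ) ≤ 3/η + 1)
    (hk1 : 1 ≤ U.card) (y y' : V) (hy : p y ∉ U) (hyy : p y' = p y) (hF : F y y') :
    (r:ℝ)/8 ≤ cd F p y ∨ (r:ℝ)/8 ≤ cd F p y' := by
  by_contra hcon
  push Not at hcon
  obtain ⟨hcy, hcy'⟩ := hcon
  have hr : 1 ≤ r := phb_r hP
  have hr0 : (0:ℝ) < r := by exact_mod_cast hr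
  have hε := hP.ε0
  have hε1 := hP.ε1
  have hη := hP.η0
  have hη1 := hP.η1
  have hηs : η ≤ 1/10^6 := by
    refine hη1.trans ?_
    apply div_le_div_of_nonneg_right _ (by norm_num)
    nlinarith
  have hr2 : 2 ≤ r := by
    have h1 := hP.r1
    by_contra hcon
    have h2 : (r:ℝ) ≤ 1 := by
      have : r ≤ 1 := by omega
      exact_mod_cast this
    have h3 : η^3 ≤ (1/10^6)^3 := by gcongr
    have h4 : η^3 * r ≤ (1/10^6)^3 * 1 := by
      apply mul_le_mul h3 h2 hr0.le (by norm_num)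
    norm_num at h4
    linarith
  -- the candidate set
  have hZU : ∀ z ∈ ZZ F p ε U, p z ∈ U := by
    intro z hz
    unfold ZZ at hz
    rw [mem_filter] at hz
    exact hz.2.1
  have hZy : ∀ z ∈ ZZ F p ε U, p z ≠ p y := fun z hz he => hy (he ▸ hZU z hz)
  have hZy' : ∀ z ∈ ZZ F p ε U, p z ≠ p y' := by
    intro z hz
    rw [hyy]
    exact hZy z hz
  have hc1 := cl2_card (F := F) y y' (ZZ F p ε U) hZy hZy'
  have hc2 := ZZ_card h hP hU
  have hD := h.D2le
  have hD2 : (D2 F p : ℝ)/(2*r) ≤ r/2 := by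
    rw [div_le_iff₀ (by positivity)]
    nlinarith
  set Z' := (ZZ F p ε U).filter (fun z => F y z ∧ F y' z) with hZ'
  have hZ'low : ((U.card : ℝ) - 1 + ε) * r ≤ (Z'.card : ℝ) := by
    nlinarith
  -- upper bound for `|Z'|`
  have hZ'up : (Z'.card : ℝ) ≤ (8/η + 1/ε) * r := by
    have h1 : Z' ⊆ U.biUnion (fun v => cl p v) := by
      intro z hz
      rw [hZ', mem_filter] at hz
      rw [mem_biUnion]
      refine ⟨p z, hZU z hz.1, ?_⟩
      unfold cl
      simp
    have h2 : Z'.card ≤ ∑ v ∈ U, (cl p v).card := (card_le_card h1).trans card_biUnion_le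
    have h3 : (Z'.card : ℝ) ≤ ∑ v ∈ U, ((cl p v).card : ℝ) := by exact_mod_cast h2
    have h4 : ∑ v ∈ U, ((cl p v).card : ℝ) ≤ ∑ v ∈ U, (2 * r : ℝ) :=
      sum_le_sum (fun v _ => cl2_card_all h hr2 v)
    rw [sum_const, nsmul_eq_mul] at h4
    have h5 : (U.card : ℝ) * (2 * r) ≤ (3/η + 1) * (2 * r) := by
      apply mul_le_mul_of_nonneg_right hk (by positivity)
    have h6 : (3/η + 1) * 2 ≤ 8/η + 1/ε := by
      have h7 : 1 ≤ 1/η := by
        rw [le_div_iff₀ hη]
        linarith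
      have h8 : 0 ≤ 1/ε := by positivity
      have h9 : 3/η = 3*(1/η) := by ring
      have h10 : 8/η = 8*(1/η) := by ring
      rw [h9, h10]
      linarith
    calc (Z'.card : ℝ) ≤ ∑ v ∈ U, ((cl p v).card : ℝ) := h3
      _ ≤ (U.card : ℝ) * (2 * r) := h4
      _ ≤ (3/η + 1) * (2 * r) := h5
      _ = ((3/η + 1) * 2) * r := by ring
      _ ≤ (8/η + 1/ε) * r := mul_le_mul_of_nonneg_right h6 hr0.le
  obtain ⟨n, hn⟩ : ∃ n, U.card = n + 1 := ⟨U.card - 1, by omega⟩
  have hnk : (U.card : ℝ) = n + 1 := by rw [hn]; push_cast; ring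
  have hn4 : (n:ℝ) ≤ 4/η := by
    have h1 : (n:ℝ) ≤ 3/η := by linarith
    refine h1.trans ?_
    apply div_le_div_of_nonneg_right _ hη.le
    norm_num
  have hPH := PH_base h hP hU y y' hy hyy hcy.le hcy'.le
  rw [← hZ'] at hPH
  have hPP := PPar_of_Par hP (1/4) (by norm_num) (by norm_num)
  obtain ⟨x, J, hJ0, hJs, hJZ, _, hJc, hJq, hJC, _, _⟩ := process hPH hPP n
    (Par_c5 hP n hn4 _ hZ'up) (Par_log hP n hn4) (by rw [hnk] at hZ'low; nlinarith)
  set K := J (n+1) with hK
  have hKZ : K ⊆ Z' := hJZ (n+1)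
  have hKy : ∀ z ∈ K, F y z ∧ F y' z := by
    intro z hz
    have := hKZ hz
    rw [hZ', mem_filter] at this
    exact this.2
  have hyy' : y ≠ y' := by
    intro he
    rw [← he] at hF
    exact h.irr y hF
  have hyK : y ∉ K := fun hm => h.irr y (hKy y hm).1
  have hyK' : y' ∉ K := fun hm => h.irr y' (hKy y' hm).2
  have hyK2 : y ∉ insert y' K := by
    rw [mem_insert]
    rintro (h1 | h1)
    · exact hyy' h1
    · exact hyK h1
  apply ext_ww h hP hU hk (insert (p y) U) (subset_insert _ _) (card_insert_le _ _)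
    (insert y (insert y' K))
  · intro a ha b hb hab
    rw [mem_insert, mem_insert] at ha hb
    rcases ha with rfl | rfl | ha
    · rcases hb with rfl | rfl | hb
      · exact absurd rfl hab
      · exact hF
      · exact (hKy b hb).1
    · rcases hb with rfl | rfl | hb
      · exact h.symm _ _ hF
      · exact absurd rfl hab
      · exact (hKy b hb).2
    · rcases hb with rfl | rfl | hb
      · exact h.symm _ _ (hKy a ha).1
      · exact h.symm _ _ (hKy a ha).2
      · exact hJq a ha b hb hab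
  · rw [card_insert_of_notMem hyK2, card_insert_of_notMem hyK', card_insert_of_notMem hy, hJc, hn]
  · intro v hv
    rw [mem_insert] at hv
    push Not at hv
    have h1 := hJC v (by rw [mem_erase, mem_sdiff]; exact ⟨hv.1, mem_univ _, hv.2⟩)
    unfold CC at h1
    rw [sum_insert hyK2, sum_insert hyK']
    linarith

end

end Pool.Agent.EG
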