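import Pool.Agent.Lib.MP_f04ccf_co.Large.Defs

/-!
Turan bound for a graph without large independent sets.
-/

set_option autoImplicit false

namespace Pool.Agent.EG

open Finset

section
variable {V : Type*} [Fintype V] [DecidableEq V]

private theorem turan_exists_indep (G : V → V → Prop) (hs : ∀ x y, G x y → G y x)
    (hi : ∀ x, ¬ G x x) (S : Finset V) :
    ∃ I : Finset V, I ⊆ S ∧ (∀ x ∈ I, ∀ y ∈ I, ¬ G x y) ∧ ∀ x ∈ S \ I, ∃ y ∈ I, G x y := by
  classical
  obtain ⟨I, hI, hmax⟩ := (S.powerset.filter (fun I => ∀ x ∈ I, ∀ y ∈ I, ¬ G x y)).exists_max_image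
    Finset.card ⟨∅, by simp⟩
  rw [mem_filter, mem_powerset] at hI
  refine ⟨I, hI.1, hI.2, fun x hx => ?_⟩
  rw [mem_sdiff] at hx
  by_contra hcon
  push Not at hcon
  have h1 := hmax (insert x I) (by
    rw [mem_filter, mem_powerset]
    refine ⟨insert_subset hx.1 hI.1, ?_⟩
    intro a ha b hb
    rw [mem_insert] at ha hb
    rcases ha with rfl | ha <;> rcases hb with rfl | hb
    · exact hi _
    · exact hcon b hb
    · exact fun h => hcon a ha (hs _ _ h)
    · exact hI.2 a ha b hb)
  rw [card_insert_of_notMem hx.2] at h1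
  omega

private theorem turan_split (G : V → V → Prop) [DecidableRel G] (x : V) {S I : Finset V}
    (h : I ⊆ S) : dF G x S = dF G x (S \ I) + dF G x I := by
  unfold dF
  rw [← card_union_of_disjoint, ← filter_union, sdiff_union_of_subset h]
  exact disjoint_filter_filter sdiff_disjoint

private theorem turan_comm (G : V → V → Prop) [DecidableRel G] (hs : ∀ x y, G x y → G y x)
    (S T : Finset V) : ∑ x ∈ S, dF G x T = ∑ x ∈ T, dF G x S := by
  unfold dF
  simp only [card_filter]
  rw [sum_comm]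
  refine sum_congr rfl fun y _ => sum_congr rfl fun x _ => ?_
  have : G x y ↔ G y x := ⟨hs _ _, hs _ _⟩
  simp only [this]

end

/-- Turán bound for a graph without independent sets of size `r+1`. -/
theorem turan_of_indep {V : Type*} [Fintype V] [DecidableEq V] (G : V → V → Prop)
    [DecidableRel G] (hs : ∀ x y, G x y → G y x) (hi : ∀ x, ¬ G x x) (r : ℕ)
    (hα : ∀ S : Finset V, (∀ x ∈ S, ∀ y ∈ S, ¬ G x y) → S.card ≤ r) (q : ℕ) (S : Finset V) :
    2 * (q:ℝ) * S.card - r * q * (q + 1) ≤ (e2 G S : ℝ) := by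
  induction q generalizing S with
  | zero =>
    have : (0:ℝ) ≤ (e2 G S : ℝ) := Nat.cast_nonneg _
    simpa using this
  | succ q ih =>
    obtain ⟨I, hIS, hI, hdom⟩ := turan_exists_indep G hs hi S
    have hIr := hα I hI
    have h1 : ∀ x ∈ S \ I, 1 ≤ dF G x I := by
      intro x hx
      obtain ⟨y, hy, hxy⟩ := hdom x hx
      exact Finset.card_pos.2 ⟨y, mem_filter.2 ⟨hy, hxy⟩⟩
    have h2 : (S \ I).card ≤ ∑ x ∈ S \ I, dF G x I := by
      rw [card_eq_sum_ones]
      exact sum_le_sum h1
    have h3 : e2 G (S \ I) + 2 * (S \ I).card ≤ e2 G S := by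
      have h4 : e2 G S = ∑ x ∈ S \ I, dF G x S + ∑ x ∈ I, dF G x S := by
        unfold e2
        rw [sum_sdiff hIS]
      have h5 : ∑ x ∈ S \ I, dF G x S = e2 G (S \ I) + ∑ x ∈ S \ I, dF G x I := by
        unfold e2
        rw [← sum_add_distrib]
        exact sum_congr rfl fun x _ => turan_split G x hIS
      have h6 : ∑ x ∈ S \ I, dF G x I ≤ ∑ x ∈ I, dF G x S := by
        rw [turan_comm G hs]
        refine sum_le_sum fun x _ => ?_
        rw [turan_split G x hIS]
        omega
      omega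
    have h7 := ih (S \ I)
    have h8 : ((S \ I).card : ℝ) = S.card - I.card := by
      rw [card_sdiff_of_subset hIS, Nat.cast_sub (card_le_card hIS)]
    have h9 : (e2 G (S \ I) : ℝ) + 2 * ((S \ I).card : ℝ) ≤ (e2 G S : ℝ) := by exact_mod_cast h3
    have h10 : (I.card : ℝ) ≤ r := by exact_mod_cast hIr
    rw [h8] at h7 h9
    push_cast
    have hq : (0:ℝ) ≤ q := Nat.cast_nonneg _
    nlinarith [mul_le_mul_of_nonneg_left h10 (show (0:ℝ) ≤ 2 * (q + 1) by linarith)]

end Pool.Agent.EG
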