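import Pool.Agent.Lib.MP_f04ccf_co.Large.Defs
import Pool.Agent.Lib.MP_f04ccf_co.Large.Turan

/-!
From a bad colouring to `Hyp`.
-/

set_option autoImplicit false

namespace Pool.Agent.EG

open Finset

private theorem colour_sum_dF {r N : ℕ} (c : Fin N → Fin N → Fin r) (j : Fin r) (x : Fin N)
    (S : Finset (Fin N)) :
    dF (fun x y : Fin N => x ≠ y ∧ c x y ≠ j) x S =
      ∑ i ∈ univ.erase j, dF (fun x y : Fin N => x ≠ y ∧ c x y = i) x S := by
  unfold dF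
  rw [card_eq_sum_card_fiberwise (f := fun y => c x y) (t := univ.erase j)]
  · refine sum_congr rfl fun i hi => ?_
    have hij : i ≠ j := (mem_erase.1 hi).1
    congr 1
    ext y
    simp only [mem_filter]
    constructor
    · rintro ⟨⟨h1, h2, -⟩, h3⟩
      exact ⟨h1, h2, h3⟩
    · rintro ⟨h1, h2, h3⟩
      exact ⟨⟨h1, h2, by rw [h3]; exact hij⟩, h3⟩
  · intro y hy
    have hy' : y ∈ S ∧ x ≠ y ∧ c x y ≠ j := by simpa using hy
    simpa using hy'.2.2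

private theorem colour_sum_all {r N : ℕ} (c : Fin N → Fin N → Fin r) (x : Fin N) :
    ∑ i, dF (fun x y : Fin N => x ≠ y ∧ c x y = i) x univ = N - 1 := by
  have h1 : (univ.erase x : Finset (Fin N)).card = N - 1 := by
    rw [card_erase_of_mem (mem_univ x), card_univ, Fintype.card_fin]
  rw [← h1, card_eq_sum_card_fiberwise (f := fun y => c x y) (t := univ)
    (fun _ _ => by simp)]
  refine sum_congr rfl fun i _ => ?_
  unfold dF
  congr 1
  ext y
  simp only [mem_filter, mem_erase, mem_univ, true_and, and_true]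
  constructor
  · rintro ⟨h1, h2⟩; exact ⟨fun h => h1 h.symm, h2⟩
  · rintro ⟨h1, h2⟩; exact ⟨fun h => h1 h.symm, h2⟩

/-- From a bad colouring to `Hyp`.  `j` is a colour with the fewest edges. -/
theorem hyp_of_colouring (r : ℕ) (hr : 1 ≤ r) (c : Fin (r ^ 2 + 1) → Fin (r ^ 2 + 1) → Fin r)
    (hc : ∀ x y, c x y = c y x)
    (hno : ∀ S : Finset (Fin (r ^ 2 + 1)), S.card = r + 1 → ∀ k : Fin r,
      ∃ x ∈ S, ∃ y ∈ S, x ≠ y ∧ c x y = k) :
    ∃ j : Fin r, Hyp (fun x y : Fin (r ^ 2 + 1) => x ≠ y ∧ c x y ≠ j) r := by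
  haveI : Nonempty (Fin r) := ⟨⟨0, hr⟩⟩
  obtain ⟨j, -, hj⟩ := exists_min_image (univ : Finset (Fin r))
    (fun i => e2 (fun x y : Fin (r ^ 2 + 1) => x ≠ y ∧ c x y = i) univ) univ_nonempty
  refine ⟨j, ?_⟩
  have hsplit : ∀ S : Finset (Fin (r ^ 2 + 1)),
      e2 (fun x y : Fin (r ^ 2 + 1) => x ≠ y ∧ c x y ≠ j) S =
      ∑ i ∈ univ.erase j, e2 (fun x y : Fin (r ^ 2 + 1) => x ≠ y ∧ c x y = i) S := by
    intro S
    unfold e2
    rw [sum_comm]
    exact sum_congr rfl fun x _ => colour_sum_dF c j x S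
  have hindep : ∀ (i : Fin r) (S : Finset (Fin (r ^ 2 + 1))),
      (∀ x ∈ S, ∀ y ∈ S, ¬ (x ≠ y ∧ c x y = i)) → S.card ≤ r := by
    intro i S hS
    by_contra hcon
    push Not at hcon
    obtain ⟨T, hT, hTc⟩ := exists_subset_card_eq (show r + 1 ≤ S.card by omega)
    obtain ⟨x, hx, y, hy, hxy⟩ := hno T hTc i
    exact hS x (hT hx) y (hT hy) hxy
  have hcard : ((univ.erase j : Finset (Fin r)).card : ℝ) = (r : ℝ) - 1 := by
    rw [card_erase_of_mem (mem_univ j), card_univ, Fintype.card_fin, Nat.cast_sub hr, Nat.cast_one]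
  refine ⟨fun x y h => ⟨h.1.symm, by rw [hc]; exact h.2⟩, fun x h => h.1 rfl, ?_, ?_, ?_, ?_⟩
  · intro S hS
    by_contra hcon
    push Not at hcon
    obtain ⟨T, hT, hTc⟩ := exists_subset_card_eq (show r + 1 ≤ S.card by omega)
    obtain ⟨x, hx, y, hy, hxy, hxyj⟩ := hno T hTc j
    exact (hS x (hT hx) y (hT hy) hxy).2 hxyj
  · intro S q
    rw [hsplit, Nat.cast_sum, ← hcard, ← nsmul_eq_mul, ← sum_const]
    refine sum_le_sum fun i _ => ?_
    exact turan_of_indep (fun x y : Fin (r ^ 2 + 1) => x ≠ y ∧ c x y = i)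
      (fun x y h => ⟨h.1.symm, by rw [hc]; exact h.2⟩) (fun x h => h.1 rfl) r (hindep i) q S
  · have h1 : ∑ i, e2 (fun x y : Fin (r ^ 2 + 1) => x ≠ y ∧ c x y = i) univ =
        (r ^ 2 + 1) * r ^ 2 := by
      unfold e2
      rw [sum_comm, sum_congr rfl fun x _ => colour_sum_all c x, sum_const, card_univ,
        Fintype.card_fin, smul_eq_mul]
      rfl
    have h2 : r * e2 (fun x y : Fin (r ^ 2 + 1) => x ≠ y ∧ c x y = j) univ ≤
        (r ^ 2 + 1) * r ^ 2 := by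
      rw [← h1]
      have h3 := card_nsmul_le_sum (univ : Finset (Fin r))
        (fun i => e2 (fun x y : Fin (r ^ 2 + 1) => x ≠ y ∧ c x y = i) univ)
        (e2 (fun x y : Fin (r ^ 2 + 1) => x ≠ y ∧ c x y = j) univ) (fun i hi => hj i hi)
      rwa [card_univ, Fintype.card_fin, smul_eq_mul] at h3
    have h4 : e2 (fun x y : Fin (r ^ 2 + 1) => x ≠ y ∧ c x y = j) univ ≤ (r ^ 2 + 1) * r := by
      have h5 : r * e2 (fun x y : Fin (r ^ 2 + 1) => x ≠ y ∧ c x y = j) univ ≤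
          r * ((r ^ 2 + 1) * r) := by
        calc _ ≤ (r ^ 2 + 1) * r ^ 2 := h2
          _ = r * ((r ^ 2 + 1) * r) := by ring
      exact Nat.le_of_mul_le_mul_left h5 hr
    have h6 : e2 (fun x y : Fin (r ^ 2 + 1) => x ≠ y ∧ c x y ≠ j) univ +
        e2 (fun x y : Fin (r ^ 2 + 1) => x ≠ y ∧ c x y = j) univ = (r ^ 2 + 1) * r ^ 2 := by
      rw [hsplit, sum_erase_add _ _ (mem_univ j), h1]
    have h7 : (e2 (fun x y : Fin (r ^ 2 + 1) => x ≠ y ∧ c x y ≠ j) univ : ℝ) +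
        (e2 (fun x y : Fin (r ^ 2 + 1) => x ≠ y ∧ c x y = j) univ : ℝ) =
        ((r:ℝ) ^ 2 + 1) * (r:ℝ) ^ 2 := by exact_mod_cast h6
    have h8 : (e2 (fun x y : Fin (r ^ 2 + 1) => x ≠ y ∧ c x y = j) univ : ℝ) ≤
        ((r:ℝ) ^ 2 + 1) * r := by exact_mod_cast h4
    linarith [show ((r:ℝ) ^ 2 + 1) * (r:ℝ) ^ 2 - ((r:ℝ) ^ 2 + 1) * r =
      ((r:ℝ) ^ 2 + 1) * r * (r - 1) by ring]
  · rw [Fintype.card_fin]

end Pool.Agent.EG
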