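import Pool.Agent.Lib.MP_f04ccf_co.Large.FurediSum

/-!
Füredi's greedy partition: `exists_part`, `exists_cfg`.
-/

set_option autoImplicit false

namespace Pool.Agent.EG

open Finset

variable {V : Type*} [Fintype V] [DecidableEq V] {F : V → V → Prop} [DecidableRel F]

/-- one greedy step -/
theorem greedy_step (F : V → V → Prop) [DecidableRel F] (A : Finset V) :
    ∃ B : Finset V, B ⊆ A ∧ (∀ y ∈ A, dF F y A ≤ B.card) ∧
      (B.Nonempty → ∃ x ∈ A, ∀ y ∈ B, F x y) := by
  by_cases hA : A.Nonempty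
  · obtain ⟨x, hx, hmax⟩ := A.exists_max_image (fun y => dF F y A) hA
    refine ⟨A.filter (fun y => F x y), filter_subset _ _, fun y hy => hmax y hy, fun _ => ?_⟩
    exact ⟨x, hx, fun y hy => (mem_filter.mp hy).2⟩
  · rw [not_nonempty_iff_eq_empty] at hA
    subst hA
    exact ⟨∅, Subset.refl _, fun y hy => absurd hy (notMem_empty _), fun h => absurd h not_nonempty_empty⟩

/-- the greedy sequence -/
noncomputable def gseq (F : V → V → Prop) [DecidableRel F] : ℕ → Finset V
  | 0 => univ
  | t + 1 => Classical.choose (greedy_step F (gseq F t))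

theorem gseq_spec (F : V → V → Prop) [DecidableRel F] (t : ℕ) :
    gseq F (t+1) ⊆ gseq F t ∧ (∀ y ∈ gseq F t, dF F y (gseq F t) ≤ (gseq F (t+1)).card) ∧
      ((gseq F (t+1)).Nonempty → ∃ x ∈ gseq F t, ∀ y ∈ gseq F (t+1), F x y) :=
  Classical.choose_spec (greedy_step F (gseq F t))

theorem gseq_clique {r : ℕ} (h : Hyp F r) (t : ℕ) (ht : (gseq F t).Nonempty) :
    ∃ J : Finset V, IsClq F J ∧ J.card = t ∧ ∀ x ∈ J, ∀ y ∈ gseq F t, F x y := by
  induction t with
  | zero =>
    exact ⟨∅, fun x hx => absurd hx (notMem_empty _), card_empty, fun x hx => absurd hx (notMem_empty _)⟩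
  | succ t ih =>
    obtain ⟨h1, _, h3⟩ := gseq_spec F t
    obtain ⟨J, hJ, hc, hJA⟩ := ih (ht.mono h1)
    obtain ⟨x, hx, hxy⟩ := h3 ht
    have hxJ : x ∉ J := fun hxJ => h.irr x (hJA x hxJ x hx)
    refine ⟨insert x J, ?_, ?_, ?_⟩
    · intro a ha b hb hab
      rcases mem_insert.mp ha with rfl | ha'
      · rcases mem_insert.mp hb with rfl | hb'
        · exact absurd rfl hab
        · exact h.symm _ _ (hJA b hb' a hx)
      · rcases mem_insert.mp hb with rfl | hb'
        · exact hJA a ha' b hx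
        · exact hJ a ha' b hb' hab
    · rw [card_insert_of_notMem hxJ, hc]
    · intro a ha y hy
      rcases mem_insert.mp ha with rfl | ha'
      · exact hxy y hy
      · exact hJA a ha' y (h1 hy)

theorem gseq_r_empty {r : ℕ} (h : Hyp F r) : gseq F r = ∅ := by
  by_contra hne
  obtain ⟨y, hy⟩ := nonempty_iff_ne_empty.mpr hne
  obtain ⟨J, hJ, hc, hJA⟩ := gseq_clique h r ⟨y, hy⟩
  have hyJ : y ∉ J := fun hyJ => h.irr y (hJA y hyJ y hy)
  have hcl : IsClq F (insert y J) := by
    intro a ha b hb hab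
    rcases mem_insert.mp ha with rfl | ha'
    · rcases mem_insert.mp hb with rfl | hb'
      · exact absurd rfl hab
      · exact h.symm _ _ (hJA b hb' a hy)
    · rcases mem_insert.mp hb with rfl | hb'
      · exact hJA a ha' b hy
      · exact hJ a ha' b hb' hab
  have := h.noClq _ hcl
  rw [card_insert_of_notMem hyJ, hc] at this
  omega

theorem D2_eq_sum_furedi {r : ℕ} (p : V → Fin r) : D2 F p = ∑ u, e2 F (cl p u) := by
  unfold D2 e2 ind
  rw [← sum_fiberwise_of_maps_to (s := (univ : Finset V)) (t := (univ : Finset (Fin r)))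
    (g := p) (fun x _ => mem_univ _)]
  apply sum_congr rfl
  intro u _
  apply sum_congr rfl
  intro x hx
  rw [(mem_filter.mp hx).2]

theorem exists_part {r : ℕ} (h : Hyp F r) (hr : 1 ≤ r) :
    ∃ p : V → Fin r, (D2 F p : ℝ) ≤ (r:ℝ)^2 := by
  have hex : ∀ x : V, ∃ t, x ∉ gseq F (t+1) := by
    intro x
    refine ⟨r - 1, ?_⟩
    rw [Nat.sub_add_cancel hr, gseq_r_empty h]
    exact notMem_empty _
  classical
  have hlt : ∀ x : V, Nat.find (hex x) < r := by
    intro x
    have : Nat.find (hex x) ≤ r - 1 := by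
      apply Nat.find_min'
      rw [Nat.sub_add_cancel hr, gseq_r_empty h]
      exact notMem_empty _
    omega
  let p : V → Fin r := fun x => ⟨Nat.find (hex x), hlt x⟩
  have hanti : ∀ {s t : ℕ}, s ≤ t → gseq F t ⊆ gseq F s := by
    intro s t hst
    induction hst with
    | refl => exact Subset.refl _
    | step _ ih => exact (gseq_spec F _).1.trans ih
  have hcl : ∀ u : Fin r, cl p u = gseq F (u : ℕ) \ gseq F ((u : ℕ) + 1) := by
    intro u
    ext x
    simp only [cl, mem_filter, mem_univ, true_and, mem_sdiff, p]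
    constructor
    · intro hu
      have hu' : Nat.find (hex x) = (u : ℕ) := congrArg Fin.val hu
      refine ⟨?_, ?_⟩
      · rcases Nat.eq_zero_or_pos (u : ℕ) with h0 | h0
        · rw [h0]; exact mem_univ _
        · have := Nat.find_min (hex x) (m := (u : ℕ) - 1) (by omega)
          rw [not_not, Nat.sub_add_cancel h0] at this
          exact this
      · rw [← hu']
        exact Nat.find_spec (hex x)
    · rintro ⟨h1, h2⟩
      apply Fin.ext
      change Nat.find (hex x) = (u : ℕ)
      rw [Nat.find_eq_iff]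
      refine ⟨h2, fun n hn => ?_⟩
      rw [not_not]
      exact hanti (by omega) h1
  refine ⟨p, ?_⟩
  have hsum := furedi_sum (F := F) h.symm (gseq F) r (fun t _ => (gseq_spec F t).1) (fun _ => 0)
    (fun _ _ => le_rfl) (by
      intro t _ x hx
      rw [add_zero]
      exact_mod_cast (gseq_spec F t).2.1 x (mem_sdiff.mp hx).1)
  have hD : (D2 F p : ℝ) = ∑ t ∈ range r, (e2 F (gseq F t \ gseq F (t+1)) : ℝ) := by
    rw [D2_eq_sum_furedi, Nat.cast_sum, Finset.sum_range]
    apply sum_congr rfl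
    intro u _
    rw [hcl u]
  have hcard : ∑ t ∈ range r, ((gseq F t \ gseq F (t+1)).card : ℝ) = (r:ℝ)^2 + 1 := by
    have h1 : ∑ u : Fin r, (cl p u).card = Fintype.card V := by
      rw [← card_univ, card_eq_sum_card_fiberwise (f := p) (t := univ) (fun x _ => mem_univ _)]
      rfl
    rw [h.card] at h1
    rw [Finset.sum_range]
    have h2 : ((∑ u : Fin r, (cl p u).card : ℕ) : ℝ) = (r:ℝ)^2 + 1 := by rw [h1]; push_cast; ring
    rw [← h2, Nat.cast_sum]
    apply sum_congr rfl
    intro u _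
    rw [hcl u]
  have hcs : ((r:ℝ)^2 + 1)^2 ≤ r * ∑ t ∈ range r, ((gseq F t \ gseq F (t+1)).card : ℝ)^2 := by
    have := sq_sum_le_card_mul_sum_sq (s := range r)
      (f := fun t => ((gseq F t \ gseq F (t+1)).card : ℝ))
    rw [hcard, card_range] at this
    exact this
  have h0 : ((gseq F 0).card : ℝ) = (r:ℝ)^2 + 1 := by
    change (((univ : Finset V).card : ℕ) : ℝ) = _
    rw [card_univ, h.card]
    push_cast
    ring
  have hedges := h.edges
  change ((r:ℝ)^2 + 1) * r * (r - 1) ≤ (e2 F (gseq F 0) : ℝ) at hedges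
  rw [← hD, h0, sum_const_zero, mul_zero, add_zero] at hsum
  set Q := ∑ t ∈ range r, ((gseq F t \ gseq F (t+1)).card : ℝ)^2 with hQ
  have hr' : (1:ℝ) ≤ r := by exact_mod_cast hr
  have hmain : (r:ℝ) * (D2 F p : ℝ) ≤ r * (r:ℝ)^2 := by
    have e1 : (r:ℝ) * (D2 F p : ℝ) ≤ r * (((r:ℝ)^2+1)^2 - Q - ((r:ℝ)^2 + 1) * r * (r - 1)) :=
      mul_le_mul_of_nonneg_left (by linarith) (by linarith)
    nlinarith
  exact le_of_mul_le_mul_left hmain (by linarith)

/-- existence of a configuration (minimise `D2` over the finitely many `p`) -/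
theorem exists_cfg {r : ℕ} (h : Hyp F r) (hr : 1 ≤ r) : ∃ p : V → Fin r, Cfg F p := by
  obtain ⟨p₀, hp₀⟩ := exists_part h hr
  have : Nonempty (V → Fin r) := ⟨p₀⟩
  obtain ⟨p, hp⟩ := Finite.exists_min (fun q : V → Fin r => D2 F q)
  refine ⟨p, { toHyp := h, min := hp, D2le := ?_ }⟩
  exact le_trans (by exact_mod_cast hp p₀) hp₀

end Pool.Agent.EG
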