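import Pool.Agent.Lib.MP_f04ccf_co.Large.Defs
import Pool.Agent.Lib.MP_f04ccf_co.Large.Basic1

/-! Füredi summation. -/

set_option autoImplicit false

namespace Pool.Agent.EG

open Finset

variable {V : Type*} [Fintype V] [DecidableEq V] {F : V → V → Prop} [DecidableRel F]

/-- one step of the Füredi summation -/
theorem furedi_step (hs : ∀ x y, F x y → F y x) {A B : Finset V} (hB : B ⊆ A) (q : V → ℝ)
    (hd : ∀ x ∈ A \ B, (dF F x A : ℝ) ≤ B.card + q x) :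
    (e2 F A : ℝ) + (e2 F (A \ B) : ℝ) + (B.card : ℝ)^2 + ((A \ B).card : ℝ)^2 ≤
      (A.card : ℝ)^2 + 2 * ∑ x ∈ A \ B, q x + (e2 F B : ℝ) := by
  have hdis : Disjoint B (A \ B) := disjoint_sdiff
  have hun : B ∪ (A \ B) = A := union_sdiff_of_subset hB
  have h1 := e2_union hs hdis
  rw [hun] at h1
  have h2 : ∀ x, dF F x A = dF F x B + dF F x (A \ B) := fun x => by
    have := dF_union (F := F) x hdis
    rwa [hun] at this
  have h3 : (A.card : ℝ) = B.card + (A \ B).card := by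
    have := card_union_of_disjoint hdis
    rw [hun] at this
    exact_mod_cast this
  have h4 : ∑ x ∈ A \ B, (dF F x A : ℝ) = ∑ x ∈ A \ B, (dF F x B : ℝ) + (e2 F (A \ B) : ℝ) := by
    rw [e2, Nat.cast_sum, ← sum_add_distrib]
    refine sum_congr rfl fun x _ => ?_
    rw [h2 x, Nat.cast_add]
  have h5 : ∑ x ∈ A \ B, (dF F x A : ℝ) ≤ (A \ B).card * (B.card : ℝ) + ∑ x ∈ A \ B, q x := by
    calc ∑ x ∈ A \ B, (dF F x A : ℝ) ≤ ∑ x ∈ A \ B, ((B.card : ℝ) + q x) := sum_le_sum hd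
      _ = _ := by rw [sum_add_distrib, sum_const, nsmul_eq_mul]
  have h6 : (e2 F A : ℝ) = e2 F B + e2 F (A \ B) + 2 * ∑ x ∈ A \ B, (dF F x B : ℝ) := by
    rw [h1]
    push_cast
    ring
  rw [h3, h6]
  nlinarith

theorem furedi_aux (hs : ∀ x y, F x y → F y x) (A : ℕ → Finset V) (q : V → ℝ) (k : ℕ) :
    (∀ t < k, A (t+1) ⊆ A t) →
    (∀ t < k, ∀ x ∈ A t \ A (t+1), (dF F x (A t) : ℝ) ≤ (A (t+1)).card + q x) →
    A k ⊆ A 0 ∧ (e2 F (A 0) : ℝ) + ∑ t ∈ range k, (e2 F (A t \ A (t+1)) : ℝ) + ((A k).card : ℝ)^2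
      + ∑ t ∈ range k, ((A t \ A (t+1)).card : ℝ)^2
      ≤ ((A 0).card : ℝ)^2 + 2 * ∑ x ∈ A 0 \ A k, q x + (e2 F (A k) : ℝ) := by
  induction k with
  | zero =>
    intro _ _
    refine ⟨Subset.refl _, ?_⟩
    simp only [range_zero, sum_empty, add_zero, sdiff_self, bot_eq_empty, mul_zero]
    linarith
  | succ k ih =>
    intro hA hd
    obtain ⟨h0, h1⟩ := ih (fun t ht => hA t (by omega)) (fun t ht => hd t (by omega))
    have h2 := hA k (by omega)
    have h3 := furedi_step hs h2 q (hd k (by omega))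
    refine ⟨h2.trans h0, ?_⟩
    have h4 : ∑ x ∈ A 0 \ A (k+1), q x = ∑ x ∈ A 0 \ A k, q x + ∑ x ∈ A k \ A (k+1), q x := by
      rw [← sum_union]
      · congr 1
        ext x
        simp only [mem_sdiff, mem_union]
        constructor
        · rintro ⟨a, b⟩
          by_cases hx : x ∈ A k
          · exact Or.inr ⟨hx, b⟩
          · exact Or.inl ⟨a, hx⟩
        · rintro (⟨a, b⟩ | ⟨a, b⟩)
          · exact ⟨a, fun hx => b (h2 hx)⟩
          · exact ⟨h0 a, b⟩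
      · rw [disjoint_left]
        intro x hx hx'
        rw [mem_sdiff] at hx hx'
        exact hx.2 hx'.1
    rw [sum_range_succ, sum_range_succ, h4]
    linarith

/-- Füredi summation -/
theorem furedi_sum (hs : ∀ x y, F x y → F y x) (A : ℕ → Finset V) (k : ℕ)
    (hA : ∀ t < k, A (t+1) ⊆ A t) (q : V → ℝ) (hq : ∀ x ∈ A 0, 0 ≤ q x)
    (hd : ∀ t < k, ∀ x ∈ A t \ A (t+1), (dF F x (A t) : ℝ) ≤ (A (t+1)).card + q x) :
    (e2 F (A 0) : ℝ) + ∑ t ∈ range k, (e2 F (A t \ A (t+1)) : ℝ)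
      ≤ ((A 0).card : ℝ)^2 - ∑ t ∈ range k, ((A t \ A (t+1)).card : ℝ)^2 + 2 * ∑ x ∈ A 0, q x := by
  obtain ⟨_, h1⟩ := furedi_aux hs A q k hA hd
  have h2 : (e2 F (A k) : ℝ) ≤ ((A k).card : ℝ)^2 := by exact_mod_cast e2_le (F := F) (A k)
  have h3 : ∑ x ∈ A 0 \ A k, q x ≤ ∑ x ∈ A 0, q x :=
    sum_le_sum_of_subset_of_nonneg sdiff_subset fun x hx _ => hq x hx
  linarith

end Pool.Agent.EG
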