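import Pool.Agent.Lib.MP_f04ccf_co.Large.Basic3

set_option autoImplicit false

namespace Pool.Agent.EG

open Finset

section
variable {V : Type*} [Fintype V] [DecidableEq V] {F : V → V → Prop} [DecidableRel F]
variable {r : ℕ} {p : V → Fin r} {ε η H : ℝ} {U : Finset (Fin r)}

/-- Markov's inequality for a finite sum. -/
theorem heavy_markov {ι : Type*} (s : Finset ι) (f : ι → ℝ) (hf : ∀ i ∈ s, 0 ≤ f i) (t B : ℝ)
    (ht : 0 < t) (hB : ∑ i ∈ s, f i ≤ B) :
    ((s.filter (fun i => t < f i)).card : ℝ) ≤ B / t := by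
  rw [le_div_iff₀ ht]
  calc ((s.filter (fun i => t < f i)).card : ℝ) * t
      = ∑ i ∈ s.filter (fun i => t < f i), t := by rw [sum_const, nsmul_eq_mul]
    _ ≤ ∑ i ∈ s.filter (fun i => t < f i), f i :=
        sum_le_sum fun i hi => le_of_lt (mem_filter.1 hi).2
    _ ≤ ∑ i ∈ s, f i := sum_le_sum_of_subset_of_nonneg (filter_subset _ _) fun i hi _ => hf i hi
    _ ≤ B := hB

/-- existence of `U`: `∑ Ev ≤ 2 r^2`, `∑ slack ≤ r^2/2`, `∑ e2/2 ≤ r^2/2` -/
theorem exists_U (h : Cfg F p) (hr : 1 ≤ r) (hη : 0 < η) :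
    ∃ U : Finset (Fin r), 1 ≤ U.card ∧ (U.card : ℝ) ≤ 3/η + 1 ∧ Lt F p η U := by
  classical
  have hr1 : (1:ℝ) ≤ r := by exact_mod_cast hr
  have hr0 : (0:ℝ) < r := by linarith
  have hr2 : (0:ℝ) < (r:ℝ)^2 := by positivity
  have ht : 0 < η * (r:ℝ)^2 := by positivity
  have hD := h.D2le
  -- the three sums
  have s1 : ∑ v, (Ev F p v : ℝ) ≤ 2 * (r:ℝ)^2 := by
    have e1 := sum_cd h hr
    rw [← sum_Ev (F := F) p] at e1
    push_cast at e1
    exact e1
  have s2 : ∑ v, slack F p v ≤ 1/2 * (r:ℝ)^2 := by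
    rw [sum_slack h.toHyp p]; linarith
  have s3 : ∑ v, (e2 F (cl p v) : ℝ)/2 ≤ 1/2 * (r:ℝ)^2 := by
    rw [← sum_div]
    have e1 : ∑ u, (e2 F (cl p u) : ℝ) = (D2 F p : ℝ) := by
      rw [← sum_e2_cl (F := F) p]; push_cast; rfl
    rw [e1]; linarith
  have m1 := heavy_markov (univ : Finset (Fin r)) (fun v => (Ev F p v : ℝ))
    (fun v _ => Nat.cast_nonneg _) _ _ ht s1
  have m2 := heavy_markov (univ : Finset (Fin r)) (fun v => slack F p v)
    (fun v _ => slack_nonneg h.toHyp p v) _ _ ht s2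
  have m3 := heavy_markov (univ : Finset (Fin r)) (fun v => (e2 F (cl p v) : ℝ)/2)
    (fun v _ => by positivity) _ _ ht s3
  have d1 : 2 * (r:ℝ)^2 / (η * (r:ℝ)^2) = 2/η := by field_simp
  have d2 : 1/2 * (r:ℝ)^2 / (η * (r:ℝ)^2) = (1/2)/η := by field_simp
  rw [d1] at m1
  rw [d2] at m2 m3
  set U1 := (univ : Finset (Fin r)).filter (fun v => η * (r:ℝ)^2 < (Ev F p v : ℝ)) with hU1
  set U2 := (univ : Finset (Fin r)).filter (fun v => η * (r:ℝ)^2 < slack F p v) with hU2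
  set U3 := (univ : Finset (Fin r)).filter (fun v => η * (r:ℝ)^2 < (e2 F (cl p v) : ℝ)/2) with hU3
  let v0 : Fin r := ⟨0, hr⟩
  refine ⟨insert v0 (U1 ∪ U2 ∪ U3), ?_, ?_, ?_⟩
  · exact card_pos.2 ⟨v0, mem_insert_self _ _⟩
  · have c1 : (insert v0 (U1 ∪ U2 ∪ U3)).card ≤ U1.card + U2.card + U3.card + 1 := by
      calc (insert v0 (U1 ∪ U2 ∪ U3)).card ≤ (U1 ∪ U2 ∪ U3).card + 1 := card_insert_le _ _
        _ ≤ U1.card + U2.card + U3.card + 1 := by
          have a1 := card_union_le (U1 ∪ U2) U3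
          have a2 := card_union_le U1 U2
          omega
    have c2 : ((insert v0 (U1 ∪ U2 ∪ U3)).card : ℝ) ≤ (U1.card : ℝ) + U2.card + U3.card + 1 := by
      exact_mod_cast c1
    have c3 : 2/η + (1/2)/η + (1/2)/η = 3/η := by ring
    linarith
  · refine ⟨fun v hv => ?_, fun v hv => ?_, fun v hv => ?_⟩
    · by_contra hc
      push Not at hc
      apply hv
      simp only [mem_insert, mem_union]
      exact Or.inr (Or.inl (Or.inl (mem_filter.2 ⟨mem_univ _, hc⟩)))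
    · by_contra hc
      push Not at hc
      apply hv
      simp only [mem_insert, mem_union]
      exact Or.inr (Or.inl (Or.inr (mem_filter.2 ⟨mem_univ _, hc⟩)))
    · by_contra hc
      push Not at hc
      apply hv
      simp only [mem_insert, mem_union]
      exact Or.inr (Or.inr (mem_filter.2 ⟨mem_univ _, hc⟩))

/-- class sizes -/
theorem card_light (h : Cfg F p) (hP : Par r ε η H) (hU : Lt F p η U) (v : Fin r) (hv : v ∉ U) :
    (1 - 2*η) * r ≤ ((cl p v).card : ℝ) ∧ ((cl p v).card : ℝ) ≤ (1 + 2*η) * r := by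
  have hη0 := hP.η0
  have hη1 : η ≤ 1/2 := by
    have e1 := hP.ε0
    have e2' := hP.ε1
    have e3 := hP.η1
    have e4 : ε^2 ≤ 1 := by nlinarith
    linarith
  have hr2 : (2:ℝ) ≤ r := by
    have e1 := hP.r1
    have hr0 : (0:ℝ) ≤ r := Nat.cast_nonneg r
    have e3 : η^3 ≤ 1/2 := by
      have : η^3 ≤ (1/2)^3 := pow_le_pow_left₀ hη0.le hη1 3
      linarith
    have e4 : η^3 * r ≤ 1/2 * r := mul_le_mul_of_nonneg_right e3 hr0
    linarith
  have s1 := hU.sl v hv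
  have s2 := slack_nonneg h.toHyp p v
  have s3 := hU.f v hv
  have s4 : (0:ℝ) ≤ (e2 F (cl p v) : ℝ)/2 := by positivity
  unfold slack at s1 s2
  set m : ℝ := ((cl p v).card : ℝ) with hm
  have hr0 : (0:ℝ) < r := by linarith
  have hr1 : (r:ℝ) ≤ 2 * (r - 1) := by linarith
  have k1 : -(η * (r:ℝ)^2) ≤ ((r:ℝ) - 1) * (m - r) := by linarith
  have k2 : ((r:ℝ) - 1) * (m - r) ≤ η * (r:ℝ)^2 := by linarith
  have hrr : η * (r:ℝ)^2 ≤ (2*η*r) * ((r:ℝ) - 1) := by
    have : η * r * (r:ℝ) ≤ η * r * (2 * (r - 1)) := mul_le_mul_of_nonneg_left hr1 (by positivity)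
    nlinarith
  have hpos : (0:ℝ) < (r:ℝ) - 1 := by linarith
  constructor
  · have : ((r:ℝ) - 1) * (-(2*η*r)) ≤ ((r:ℝ) - 1) * (m - r) := by nlinarith
    have := le_of_mul_le_mul_left this hpos
    linarith
  · have : ((r:ℝ) - 1) * (m - r) ≤ ((r:ℝ) - 1) * (2*η*r) := by nlinarith
    have := le_of_mul_le_mul_left this hpos
    linarith

theorem card_all (h : Cfg F p) (hr : 2 ≤ r) (v : Fin r) : ((cl p v).card : ℝ) ≤ 2 * r := by
  have hr2 : (2:ℝ) ≤ r := by exact_mod_cast hr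
  have s2 := slack_nonneg h.toHyp p v
  have s3 : (e2 F (cl p v) : ℝ) ≤ (D2 F p : ℝ) := by
    have : e2 F (cl p v) ≤ ∑ u, e2 F (cl p u) :=
      single_le_sum (f := fun u => e2 F (cl p u)) (fun _ _ => Nat.zero_le _) (mem_univ v)
    rw [sum_e2_cl] at this
    exact_mod_cast this
  have s4 := h.D2le
  unfold slack at s2
  set m : ℝ := ((cl p v).card : ℝ) with hm
  have hpos : (0:ℝ) < (r:ℝ) - 1 := by linarith
  have k : ((r:ℝ) - 1) * (m - r) ≤ ((r:ℝ) - 1) * r := by nlinarith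
  have := le_of_mul_le_mul_left k hpos
  linarith

end

end Pool.Agent.EG
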