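import Pool.Agent.Lib.MP_f04ccf_co.Large.Heavy
import Pool.Agent.Lib.MP_f04ccf_co.Large.Basic2
import Pool.Agent.Lib.MP_f04ccf_co.Large.FFb

set_option autoImplicit false

namespace Pool.Agent.EG

open Finset

section
variable {V : Type*} [Fintype V] [DecidableEq V] {F : V → V → Prop} [DecidableRel F]
variable {r : ℕ} {p : V → Fin r} {ε η H : ℝ} {U : Finset (Fin r)}

/-- choice of a light class covered by an element of `FF` -/
theorem newp_choice (F : V → V → Prop) [DecidableRel F] (p : V → Fin r) (ε : ℝ)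
    (U : Finset (Fin r)) (hr : 0 < r) :
    ∃ s : V → Fin r, ∀ x ∈ FF F p ε U, s x ∉ U ∧ x ∈ FFv F p ε (s x) := by
  classical
  have h1 : ∀ x : V, ∃ v : Fin r, x ∈ FF F p ε U → v ∉ U ∧ x ∈ FFv F p ε v := by
    intro x
    by_cases hx : x ∈ FF F p ε U
    · have hx' := hx
      unfold FF at hx'
      simp only [mem_biUnion, mem_sdiff, mem_univ, true_and] at hx'
      obtain ⟨v, hv, hv'⟩ := hx'
      exact ⟨v, fun _ => ⟨hv, hv'⟩⟩
    · exact ⟨⟨0, hr⟩, fun e => absurd e hx⟩
  choose s hs using h1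
  exact ⟨s, hs⟩

/-- a light class of the new partition -/
theorem newp_light (h : Cfg F p) (hP : Par r ε η H) (hU : Lt F p η U) (v : Fin r) (hv : v ∉ U)
    (G : Finset V) (hG : G ⊆ FFv F p ε v) (hGF : G ⊆ FF F p ε U) :
    (e2 F ((cl p v \ (YA F p ε U ∪ FF F p ε U)) ∪ G) : ℝ)
      ≤ e2 F (cl p v \ (YA F p ε U ∪ FF F p ε U)) + (7*η + 4*ε) * r * G.card := by
  classical
  have hdis : Disjoint (cl p v \ (YA F p ε U ∪ FF F p ε U)) G := by
    rw [Finset.disjoint_left]
    intro x hx hxG
    simp only [mem_sdiff, mem_union, not_or] at hx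
    exact hx.2.2 (hGF hxG)
  rw [e2_union h.symm hdis]
  have h1 : (e2 F G : ℝ) ≤ 3*η*r * G.card := by
    have h2 : (e2 F G : ℝ) ≤ (G.card : ℝ)^2 := by exact_mod_cast e2_le G
    have h3 : (G.card : ℝ) ≤ 3*η*r :=
      (by exact_mod_cast card_le_card hG : (G.card : ℝ) ≤ (FFv F p ε v).card).trans
        (FFv_card h hP hU v hv).1
    nlinarith [(Nat.cast_nonneg G.card : (0:ℝ) ≤ G.card)]
  have h4 : ((∑ x ∈ G, dF F x (cl p v \ (YA F p ε U ∪ FF F p ε U)) : ℕ) : ℝ)
      ≤ (2*η + 2*ε) * r * G.card := by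
    push_cast
    have h5 : ∀ x ∈ G, (dF F x (cl p v \ (YA F p ε U ∪ FF F p ε U)) : ℝ) ≤ (2*η + 2*ε) * r := by
      intro x hx
      have h6 : dF F x (cl p v \ (YA F p ε U ∪ FF F p ε U)) ≤ dF F x (cl p v) :=
        dF_mono x sdiff_subset
      have h7 := dF_add_nF (F := F) x (cl p v)
      have h8 := hG hx
      unfold FFv at h8
      simp only [mem_filter, mem_univ, true_and] at h8
      have h9 := (card_light h hP hU v hv).2
      have h10 : (dF F x (cl p v) : ℝ) + cx F p v x = (cl p v).card := by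
        unfold cx
        exact_mod_cast h7
      have h11 : (dF F x (cl p v \ (YA F p ε U ∪ FF F p ε U)) : ℝ) ≤ dF F x (cl p v) := by
        exact_mod_cast h6
      nlinarith [h8.2]
    calc ∑ x ∈ G, (dF F x (cl p v \ (YA F p ε U ∪ FF F p ε U)) : ℝ)
        ≤ ∑ x ∈ G, (2*η + 2*ε) * (r:ℝ) := sum_le_sum h5
      _ = (2*η + 2*ε) * r * G.card := by
        rw [sum_const, nsmul_eq_mul]
        ring
  push_cast at h4 ⊢
  nlinarith

/-- the new partition -/
theorem newp (h : Cfg F p) (hP : Par r ε η H) (hU : Lt F p η U) (hk1 : 1 ≤ U.card)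
    (t : V → Fin U.card) :
    (D2 F p : ℝ) ≤ ∑ i, (e2 F ((ZZ F p ε U ∪ YA F p ε U).filter (fun x => t x = i)) : ℝ)
      + ∑ v ∈ univ \ U, (e2 F (cl p v \ (YA F p ε U ∪ FF F p ε U)) : ℝ) + 4*ε*(r:ℝ)^2 := by
  classical
  have hr : 0 < r := by
    have := hP.r1
    by_contra hcon
    have h0 : r = 0 := by omega
    rw [h0] at this
    norm_num at this
  have hr0 : (0:ℝ) < r := by exact_mod_cast hr
  obtain ⟨s, hs⟩ := newp_choice F p ε U hr
  set Zp := ZZ F p ε U ∪ YA F p ε U with hZp
  let e := U.equivFin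
  let q : V → Fin r := fun x => if x ∈ Zp then ((e.symm (t x) : U) : Fin r)
    else if x ∈ FF F p ε U then s x else p x
  have hZF : ∀ x, x ∈ Zp → x ∉ FF F p ε U := by
    intro x hx hxF
    simp only [hZp, mem_union, ZZ, YA, mem_filter, mem_univ, true_and] at hx
    tauto
  have hstay : ∀ x, x ∉ Zp → x ∉ FF F p ε U → p x ∉ U := by
    intro x hx hxF hpx
    apply hx
    simp only [hZp, mem_union, ZZ, mem_filter, mem_univ, true_and]
    exact Or.inl ⟨hpx, hxF⟩
  have hq1 : ∀ x, x ∈ Zp → q x = ((e.symm (t x) : U) : Fin r) := by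
    intro x hx
    simp only [q, if_pos hx]
  have hq2 : ∀ x, x ∉ Zp → x ∈ FF F p ε U → q x = s x := by
    intro x hx hxF
    simp only [q, if_neg hx, if_pos hxF]
  have hq3 : ∀ x, x ∉ Zp → x ∉ FF F p ε U → q x = p x := by
    intro x hx hxF
    simp only [q, if_neg hx, if_neg hxF]
  -- heavy classes
  have hheavy : ∀ u : U, cl q u = Zp.filter (fun x => t x = e u) := by
    intro u
    ext x
    simp only [cl, mem_filter, mem_univ, true_and]
    by_cases hx : x ∈ Zp
    · rw [hq1 x hx]
      simp only [hx, true_and]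
      constructor
      · intro hh
        have : e.symm (t x) = u := Subtype.ext hh
        rw [← this]
        simp
      · intro hh
        rw [hh]
        simp
    · simp only [hx, false_and, iff_false]
      by_cases hxF : x ∈ FF F p ε U
      · rw [hq2 x hx hxF]
        intro hh
        exact (hs x hxF).1 (hh ▸ u.2)
      · rw [hq3 x hx hxF]
        intro hh
        exact hstay x hx hxF (hh ▸ u.2)
  -- light classes
  have hlight : ∀ v, v ∉ U → cl q v = (cl p v \ (YA F p ε U ∪ FF F p ε U))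
      ∪ (FF F p ε U).filter (fun x => s x = v) := by
    intro v hv
    ext x
    simp only [cl, mem_filter, mem_univ, true_and, mem_union, mem_sdiff, not_or]
    by_cases hx : x ∈ Zp
    · have hxF := hZF x hx
      rw [hq1 x hx]
      have h1 : ((e.symm (t x) : U) : Fin r) ≠ v := by
        intro hh
        exact hv (hh ▸ (e.symm (t x)).2)
      simp only [h1, hxF, false_and, or_false, false_iff, not_and, not_not]
      intro hpx hy
      exfalso
      simp only [hZp, mem_union, ZZ, YA, mem_filter, mem_univ, true_and] at hx hy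
      rcases hx with hx | hx
      · exact hv (hpx ▸ hx.1)
      · exact hy hx
    · by_cases hxF : x ∈ FF F p ε U
      · rw [hq2 x hx hxF]
        simp only [hxF, not_true_eq_false, and_false, true_and, false_or]
      · rw [hq3 x hx hxF]
        simp only [hxF, not_false_eq_true, and_true, false_and, or_false]
        constructor
        · intro hh
          refine ⟨hh, fun hy => hx ?_⟩
          rw [hZp]
          exact mem_union_right _ hy
        · exact fun hh => hh.1
  have hmin : (D2 F p : ℝ) ≤ D2 F q := by exact_mod_cast h.min q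
  have hsum : (D2 F q : ℝ) = ∑ u ∈ U, (e2 F (cl q u) : ℝ) + ∑ v ∈ univ \ U, (e2 F (cl q v) : ℝ) := by
    rw [← sum_e2_cl q]
    push_cast
    rw [add_comm, sum_sdiff (subset_univ U)]
  have hA : ∑ u ∈ U, (e2 F (cl q u) : ℝ) = ∑ i, (e2 F (Zp.filter (fun x => t x = i)) : ℝ) := by
    rw [← sum_coe_sort U (fun u => (e2 F (cl q u) : ℝ))]
    rw [← Equiv.sum_comp e (fun i => (e2 F (Zp.filter (fun x => t x = i)) : ℝ))]
    apply sum_congr rfl
    intro u _
    rw [hheavy u]
  have hB : ∑ v ∈ univ \ U, (e2 F (cl q v) : ℝ)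
      ≤ ∑ v ∈ univ \ U, ((e2 F (cl p v \ (YA F p ε U ∪ FF F p ε U)) : ℝ)
        + (7*η + 4*ε) * r * ((FF F p ε U).filter (fun x => s x = v)).card) := by
    apply sum_le_sum
    intro v hv
    have hv' : v ∉ U := by simpa using hv
    rw [hlight v hv']
    apply newp_light h hP hU v hv'
    · intro x hx
      simp only [mem_filter] at hx
      have := (hs x hx.1).2
      rwa [hx.2] at this
    · exact filter_subset _ _
  have hC : ∑ v ∈ univ \ U, (((FF F p ε U).filter (fun x => s x = v)).card : ℝ)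
      = (FF F p ε U).card := by
    rw [← Nat.cast_sum]
    congr 1
    symm
    apply card_eq_sum_card_fiberwise
    intro x hx
    have := (hs x hx).1
    simpa using this
  have hD : ((FF F p ε U).card : ℝ) ≤ 3/5*r := (FF_card h hP hU).2
  rw [sum_add_distrib, ← mul_sum, hC] at hB
  have hε := hP.ε0
  have hε1 := hP.ε1
  have hη := hP.η0
  have hη1 := hP.η1
  have hη2 : 7*η ≤ ε := by
    have : ε^2 ≤ ε := by nlinarith
    nlinarith
  have hE : (7*η + 4*ε) * r * ((FF F p ε U).card : ℝ) ≤ 4*ε*(r:ℝ)^2 := by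
    have h1 : (7*η + 4*ε) * r * ((FF F p ε U).card : ℝ) ≤ (7*η + 4*ε) * r * (3/5*r) :=
      mul_le_mul_of_nonneg_left hD (by positivity)
    have h2 : (7*η + 4*ε) * r * (3/5*r) = (7*η + 4*ε)*(3/5) * (r:ℝ)^2 := by ring
    rw [h2] at h1
    refine h1.trans ?_
    apply mul_le_mul_of_nonneg_right _ (by positivity)
    linarith
  linarith

end

end Pool.Agent.EG
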