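import Pool.Agent.Lib.MP_f04ccf_co.Large.YAb
import Pool.Agent.Lib.MP_f04ccf_co.Large.Wt
import Pool.Agent.Lib.MP_f04ccf_co.Large.FFb
import Pool.Agent.Lib.MP_f04ccf_co.Large.Tur2
import Pool.Agent.Lib.MP_f04ccf_co.Large.Basic3
import Pool.Agent.Lib.MP_f04ccf_co.Large.Heavy

/-!
MP_f04ccf_co, large `r`: the hypotheses of the process hold for `Z⁺ = ZZ ∪ YA`
with zero base loads (task PHplus.lean).
-/

set_option autoImplicit false

namespace Pool.Agent.EG

open Finset

section
variable {V : Type*} [Fintype V] [DecidableEq V] {F : V → V → Prop} [DecidableRel F]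
variable {r : ℕ} {p : V → Fin r} {ε η H : ℝ} {U : Finset (Fin r)}

theorem PHplus.r_pos (hP : Par r ε η H) : 0 < (r:ℝ) := by
  have h1 := hP.r1
  have h0 := hP.η0
  by_contra hn
  have hr : (r:ℝ) = 0 := le_antisymm (not_lt.mp hn) (Nat.cast_nonneg r)
  rw [hr] at h1
  norm_num at h1

theorem PHplus.η_le (hP : Par r ε η H) : η ≤ 1/10^9 * ε := by
  have h0 := hP.ε0
  have h1 := hP.ε1
  have h2 := hP.η1
  nlinarith

/-- elements of `ZZ ∪ YA` in a light class lie in `YA` -/
theorem PHplus.mem_YA {v : Fin r} (hv : v ∉ U) {x : V} (hx : x ∈ ZZ F p ε U ∪ YA F p ε U)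
    (hpx : p x = v) : x ∈ YA F p ε U := by
  rcases Finset.mem_union.mp hx with h | h
  · exfalso
    have := (Finset.mem_filter.mp h).2.1
    rw [hpx] at this
    exact hv this
  · exact h

theorem PHplus.not_FF {x : V} (hx : x ∈ ZZ F p ε U ∪ YA F p ε U) : x ∉ FF F p ε U := by
  rcases Finset.mem_union.mp hx with h | h
  · exact (Finset.mem_filter.mp h).2.2
  · exact (Finset.mem_filter.mp h).2.2.1

/-- the weights are at most `1 - 2 ε` -/
theorem PHplus.w2 (h : Cfg F p) (hP : Par r ε η H) (hU : Lt F p η U) (v : Fin r) (hv : v ∉ U)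
    (x : V) (hx : x ∈ ZZ F p ε U ∪ YA F p ε U) : ww F p ε η v x ≤ 1 - 2*ε := by
  have hr := PHplus.r_pos hP
  have hηε := PHplus.η_le hP
  have h0 := hP.ε0
  have h1 := hP.ε1
  have hη0 := hP.η0
  refine le_trans (ww_le v x) ?_
  rw [div_le_iff₀ hr]
  have hFF := PHplus.not_FF hx
  by_cases hpx : p x = v
  · have hYA := PHplus.mem_YA hv hx hpx
    have hind : 4*ε*r ≤ (ind F p x : ℝ) := (Finset.mem_filter.mp hYA).2.2.2
    have hsum := dF_add_nF (F := F) x (cl p v)
    have hcard := (card_light h hP hU v hv).2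
    have hind2 : ind F p x = dF F x (cl p v) := by
      unfold ind
      rw [hpx]
    rw [hind2] at hind
    have hsum' : (dF F x (cl p v) : ℝ) + (nF F x (cl p v) : ℝ) = ((cl p v).card : ℝ) := by
      exact_mod_cast hsum
    have hcx : (cx F p v x : ℝ) = (nF F x (cl p v) : ℝ) := rfl
    rw [hcx]
    nlinarith
  · by_contra hc
    rw [not_le] at hc
    apply hFF
    unfold FF
    rw [Finset.mem_biUnion]
    refine ⟨v, by simp [hv], ?_⟩
    unfold FFv
    rw [Finset.mem_filter]
    exact ⟨Finset.mem_univ _, hpx, hc.le⟩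

/-- total weight on a light class of the vertices outside the class -/
theorem PHplus.out (hP : Par r ε η H) (hU : Lt F p η U) (v : Fin r) (hv : v ∉ U)
    (S : Finset V) :
    ∑ x ∈ S.filter (fun x => p x ≠ v), ((cx F p v x : ℕ) : ℝ) ≤ η * (r:ℝ)^2 := by
  refine le_trans ?_ (hU.E v hv)
  unfold Ev
  push_cast
  apply Finset.sum_le_sum_of_subset_of_nonneg
  · intro x hx
    rw [Finset.mem_filter] at hx ⊢
    exact ⟨Finset.mem_univ _, hx.2⟩
  · intro x _ _
    positivity

theorem PH_plus (h : Cfg F p) (hP : Par r ε η H) (hU : Lt F p η U) (hk : (U.card : ℝ) ≤ 3/η + 1)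
    (hk1 : 1 ≤ U.card) :
    PH F (univ \ U) (ZZ F p ε U ∪ YA F p ε U) (ww F p ε η) (fun _ => 0) r ε (10*η) (1/ε) (200/ε) 0 := by
  have hr := PHplus.r_pos hP
  have hr1 : 1 ≤ r := by
    have : 0 < r := by exact_mod_cast hr
    omega
  have hr1' : (1:ℝ) ≤ r := by exact_mod_cast hr1
  have hηε := PHplus.η_le hP
  have h0 := hP.ε0
  have h1 := hP.ε1
  have hη0 := hP.η0
  set Z := ZZ F p ε U ∪ YA F p ε U with hZ
  -- splitting of a sum over `Z` according to `p x = v`
  have hcls : ∀ v, v ∉ U → (((Z.filter (fun x => p x = v)).card : ℕ) : ℝ) ≤ 8*η*r := by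
    intro v hv
    refine le_trans ?_ (YA_class h hP hU hk hk1 v hv)
    have : Z.filter (fun x => p x = v) ⊆ (YA F p ε U).filter (fun y => p y = v) := by
      intro x hx
      rw [Finset.mem_filter] at hx ⊢
      exact ⟨PHplus.mem_YA hv hx.1 hx.2, hx.2⟩
    exact_mod_cast Finset.card_le_card this
  refine ⟨h.symm, h.irr, hr1, fun A => tur_real h.toHyp hr1 A, fun v _ x _ => ww_nonneg v x, ?_, ?_,
    ?_, ?_, fun v _ => le_refl _, fun v _ => ?_, ?_⟩
  · intro v hv
    have hv' : v ∉ U := by
      rw [Finset.mem_sdiff] at hv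
      exact hv.2
    rw [← Finset.sum_filter_add_sum_filter_not Z (fun x => p x = v)]
    have e1 : ∑ x ∈ Z.filter (fun x => p x = v), ww F p ε η v x ≤ 8*η*r := by
      calc ∑ x ∈ Z.filter (fun x => p x = v), ww F p ε η v x
          ≤ ∑ x ∈ Z.filter (fun x => p x = v), (1:ℝ) := by
            apply Finset.sum_le_sum
            intro x hx
            have := PHplus.w2 h hP hU v hv' x (Finset.mem_filter.mp hx).1
            linarith
        _ = ((Z.filter (fun x => p x = v)).card : ℝ) := by simp
        _ ≤ 8*η*r := hcls v hv'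
    have e2' : ∑ x ∈ Z.filter (fun x => ¬ p x = v), ww F p ε η v x ≤ η*r := by
      calc ∑ x ∈ Z.filter (fun x => ¬ p x = v), ww F p ε η v x
          ≤ ∑ x ∈ Z.filter (fun x => ¬ p x = v), (cx F p v x : ℝ)/r := by
            apply Finset.sum_le_sum
            intro x _
            exact ww_le v x
        _ = (∑ x ∈ Z.filter (fun x => ¬ p x = v), (cx F p v x : ℝ))/r := by
            rw [Finset.sum_div]
        _ ≤ (η * (r:ℝ)^2)/r := by
            apply div_le_div_of_nonneg_right _ hr.le
            exact PHplus.out hP hU v hv' Z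
        _ = η*r := by field_simp
    nlinarith
  · intro v hv x hx
    rw [Finset.mem_sdiff] at hv
    exact PHplus.w2 h hP hU v hv.2 x hx
  · -- total weight
    have hsplit : ∀ x ∈ Z, wd (univ \ U) (ww F p ε η) x
        ≤ (cd F p x : ℝ)/r + (if x ∈ YA F p ε U then (1:ℝ) else 0) := by
      intro x hx
      unfold wd
      have hout : ∀ S : Finset (Fin r), S ⊆ univ.erase (p x) →
          ∑ v ∈ S, ww F p ε η v x ≤ (cd F p x : ℝ)/r := by
        intro S hS
        calc ∑ v ∈ S, ww F p ε η v x ≤ ∑ v ∈ S, (cx F p v x : ℝ)/r := by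
              apply Finset.sum_le_sum
              intro v _
              exact ww_le v x
          _ ≤ ∑ v ∈ univ.erase (p x), (cx F p v x : ℝ)/r := by
              apply Finset.sum_le_sum_of_subset_of_nonneg hS
              intro v _ _
              positivity
          _ = (cd F p x : ℝ)/r := by
              unfold cd
              push_cast
              rw [Finset.sum_div]
      by_cases hY : x ∈ YA F p ε U
      · have hpx : p x ∉ U := (Finset.mem_filter.mp hY).2.1
        have hmem : p x ∈ univ \ U := by simp [hpx]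
        rw [← Finset.add_sum_erase _ _ hmem]
        have e1 := PHplus.w2 h hP hU (p x) hpx x hx
        have e2' := hout ((univ \ U).erase (p x)) (by
          intro v hv
          rw [Finset.mem_erase] at hv ⊢
          exact ⟨hv.1, Finset.mem_univ _⟩)
        rw [if_pos hY]
        linarith
      · have hZZ : x ∈ ZZ F p ε U := by
          rcases Finset.mem_union.mp hx with h' | h'
          · exact h'
          · exact absurd h' hY
        have hpx : p x ∈ U := (Finset.mem_filter.mp hZZ).2.1
        rw [if_neg hY, add_zero]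
        apply hout
        intro v hv
        rw [Finset.mem_erase]
        rw [Finset.mem_sdiff] at hv
        refine ⟨fun hvp => hv.2 (hvp ▸ hpx), Finset.mem_univ _⟩
    have e3 : ∑ x ∈ Z, (cd F p x : ℝ)/r ≤ 2*r := by
      rw [← Finset.sum_div, div_le_iff₀ hr]
      calc ∑ x ∈ Z, (cd F p x : ℝ) ≤ ∑ x, (cd F p x : ℝ) := by
            apply Finset.sum_le_sum_of_subset_of_nonneg (Finset.subset_univ _)
            intro x _ _
            positivity
        _ = ((∑ x, cd F p x : ℕ) : ℝ) := by push_cast; rfl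
        _ ≤ 2*(r:ℝ)^2 := sum_cd h hr1
        _ = 2*r*r := by ring
    have e4 : ∑ x ∈ Z, (if x ∈ YA F p ε U then (1:ℝ) else 0) ≤ r/(4*ε) := by
      rw [Finset.sum_ite, Finset.sum_const_zero, add_zero, Finset.sum_const, nsmul_eq_mul, mul_one]
      refine le_trans ?_ (YA_card (U := U) h hP)
      have : Z.filter (fun x => x ∈ YA F p ε U) ⊆ YA F p ε U := by
        intro x hx
        exact (Finset.mem_filter.mp hx).2
      exact_mod_cast Finset.card_le_card this
    have e5 : ∑ x ∈ Z, wd (univ \ U) (ww F p ε η) x ≤ 2*r + r/(4*ε) := by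
      refine le_trans (Finset.sum_le_sum hsplit) ?_
      rw [Finset.sum_add_distrib]
      linarith
    refine le_trans e5 ?_
    have e6 : (2:ℝ) ≤ 3/(4*ε) := by
      rw [le_div_iff₀ (by positivity)]
      linarith
    have e7 : (r:ℝ)/(4*ε) = (1/(4*ε)) * r := by ring
    have e8 : (1:ℝ)/ε = 3/(4*ε) + 1/(4*ε) := by field_simp; ring
    rw [e7, e8]
    nlinarith
  · intro v hv
    have hv' : v ∉ U := by
      rw [Finset.mem_sdiff] at hv
      exact hv.2
    set P := Z.filter (fun x => 0 < ww F p ε η v x) with hPdef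
    have e1 : (P.card : ℝ) ≤ ((Z.filter (fun x => p x = v)).card : ℝ)
        + ((P.filter (fun x => p x ≠ v)).card : ℝ) := by
      have hsub : P ⊆ Z.filter (fun x => p x = v) ∪ P.filter (fun x => p x ≠ v) := by
        intro x hx
        rw [Finset.mem_union, Finset.mem_filter, Finset.mem_filter]
        by_cases hpx : p x = v
        · exact Or.inl ⟨(Finset.mem_filter.mp hx).1, hpx⟩
        · exact Or.inr ⟨hx, hpx⟩
      have := le_trans (Finset.card_le_card hsub) (Finset.card_union_le _ _)
      exact_mod_cast this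
    have e2' : ((P.filter (fun x => p x ≠ v)).card : ℝ) * (ε*η/20*r) ≤ η * (r:ℝ)^2 := by
      refine le_trans ?_ (PHplus.out hP hU v hv' P)
      rw [← nsmul_eq_mul]
      apply Finset.card_nsmul_le_sum
      intro x hx
      have hw : 0 < ww F p ε η v x :=
        (Finset.mem_filter.mp (Finset.mem_filter.mp hx).1).2
      unfold ww at hw
      split_ifs at hw with hc
      · exact hc
      · exact absurd hw (lt_irrefl _)
    have e3 : ((P.filter (fun x => p x ≠ v)).card : ℝ) ≤ 20/ε*r := by
      have hpos : 0 < ε*η/20*r := by positivity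
      have : ((P.filter (fun x => p x ≠ v)).card : ℝ) ≤ (η * (r:ℝ)^2)/(ε*η/20*r) := by
        rw [le_div_iff₀ hpos]
        exact e2'
      refine le_trans this (le_of_eq ?_)
      field_simp
      try ring
    have e4 := hcls v hv'
    have e5 : 8*η*r ≤ 180/ε*r := by
      apply mul_le_mul_of_nonneg_right _ hr.le
      rw [le_div_iff₀ h0]
      nlinarith
    have e6 : (200:ℝ)/ε*r = 20/ε*r + 180/ε*r := by ring
    rw [e6]
    linarith
  · show (0:ℝ) ≤ 1 - 2*ε
    linarith
  · simp

end

end Pool.Agent.EG
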