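import Pool.Agent.Lib.MP_f04ccf_co.Large.Process
import Pool.Agent.Lib.MP_f04ccf_co.Large.FurediSum

/-!
MP_f04ccf_co, large `r`: the robust Füredi partition.
-/

set_option autoImplicit false

namespace Pool.Agent.EG

open Finset

section
variable {V : Type*} [Fintype V] [DecidableEq V] {F : V → V → Prop} [DecidableRel F]

omit [Fintype V] in
private lemma rf_card (A : ℕ → Finset V) (k : ℕ) (hA : ∀ t < k, A (t+1) ⊆ A t) :
    ∑ t ∈ range k, (A t \ A (t+1)).card + (A k).card = (A 0).card := by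
  induction k with
  | zero => simp
  | succ k ih =>
    have h1 := ih (fun t ht => hA t (Nat.lt_succ_of_lt ht))
    have h2 : (A k \ A (k+1)).card + (A (k+1)).card = (A k).card :=
      card_sdiff_add_card_eq_card (hA k (Nat.lt_succ_self k))
    rw [sum_range_succ]
    omega

omit [Fintype V] [DecidableEq V] in
private lemma rf_anti (A : ℕ → Finset V) (k : ℕ) (hA : ∀ t < k, A (t+1) ⊆ A t) {i j : ℕ}
    (hij : i ≤ j) (hj : j ≤ k) : A j ⊆ A i := by
  induction j, hij using Nat.le_induction with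
  | base => exact subset_rfl
  | succ j _ ih => exact (hA j (by omega)).trans (ih (by omega))

private lemma rf_part (hs : ∀ x y, F x y → F y x) (A : ℕ → Finset V) (k : ℕ) (hk : 1 ≤ k)
    (hA : ∀ t < k, A (t+1) ⊆ A t) :
    ∃ (t : V → Fin k) (m : ℕ), k * m ≤ (A 0).card ∧
      ∑ i, e2 F ((A 0).filter (fun x => t x = i))
        ≤ ∑ t ∈ range k, e2 F (A t \ A (t+1)) + ((A k).card^2 + 2 * (A k).card * m) := by
  classical
  have : Nonempty (Fin k) := ⟨⟨0, hk⟩⟩
  obtain ⟨i₀, -, hi₀⟩ := exists_min_image (univ : Finset (Fin k))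
    (fun i => (A i \ A (i+1)).card) univ_nonempty
  have hmem : ∀ y ∈ A 0, y ∉ A k → ∃ i : Fin k, y ∈ A i \ A (i+1) := by
    intro y h0 hyk
    have hex : ∃ j, y ∉ A j := ⟨k, hyk⟩
    have hf := Nat.find_spec hex
    have hfk : Nat.find hex ≤ k := Nat.find_min' hex hyk
    have hf0 : Nat.find hex ≠ 0 := by
      intro h
      rw [h] at hf
      exact hf h0
    obtain ⟨j, hj⟩ := Nat.exists_eq_succ_of_ne_zero hf0
    refine ⟨⟨j, by omega⟩, ?_⟩
    rw [mem_sdiff]
    constructor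
    · by_contra hc
      have hjl : j < Nat.find hex := by omega
      exact Nat.find_min hex hjl hc
    · rw [hj] at hf
      exact hf
  let t : V → Fin k := fun y => if h : ∃ i : Fin k, y ∈ A i \ A (i+1) then h.choose else i₀
  refine ⟨t, (A i₀ \ A (i₀+1)).card, ?_, ?_⟩
  · have h1 := rf_card A k hA
    have h2 : k * (A i₀ \ A (i₀+1)).card ≤ ∑ t ∈ range k, (A t \ A (t+1)).card := by
      have h3 : ∑ t ∈ range k, (A t \ A (t+1)).card = ∑ i : Fin k, (A i \ A (i+1)).card := by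
        rw [Finset.sum_range]
      rw [h3]
      have h4 := Finset.card_nsmul_le_sum (univ : Finset (Fin k))
        (fun i : Fin k => (A i \ A (i+1)).card) ((A i₀ \ A (i₀+1)).card)
        (fun i hi => hi₀ i hi)
      simpa using h4
    omega
  · have key : ∀ i : Fin k, e2 F ((A 0).filter (fun x => t x = i)) ≤
        e2 F (A i \ A (i+1)) + if i = i₀ then
          ((A k).card^2 + 2 * (A k).card * (A i₀ \ A (i₀+1)).card) else 0 := by
      intro i
      by_cases hi : i = i₀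
      · subst hi
        rw [if_pos rfl]
        have hsub : (A 0).filter (fun x => t x = i) ⊆ (A i \ A (i+1)) ∪ A k := by
          intro y hy
          rw [mem_filter] at hy
          rw [mem_union]
          by_cases hyk : y ∈ A k
          · exact Or.inr hyk
          · left
            have hex := hmem y hy.1 hyk
            have ht : t y = hex.choose := dif_pos hex
            rw [ht] at hy
            have := hex.choose_spec
            rw [hy.2] at this
            exact this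
        have hdis : Disjoint (A i \ A (i+1)) (A k) := by
          rw [disjoint_left]
          intro y hy hyk
          rw [mem_sdiff] at hy
          exact hy.2 (rf_anti A k hA (by omega) le_rfl hyk)
        refine (e2_mono hsub).trans ?_
        rw [e2_union hs hdis]
        have h1 := e2_le (F := F) (A k)
        have h2 : ∑ x ∈ A k, dF F x (A i \ A (i+1)) ≤ (A k).card * (A i \ A (i+1)).card := by
          refine (Finset.sum_le_card_nsmul _ _ _ (fun x _ => dF_le x _)).trans ?_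
          simp
        nlinarith
      · rw [if_neg hi, add_zero]
        apply e2_mono
        intro y hy
        rw [mem_filter] at hy
        have hex : ∃ i : Fin k, y ∈ A i \ A (i+1) := by
          by_contra hc
          have ht : t y = i₀ := dif_neg hc
          exact hi (hy.2.symm.trans ht)
        have ht : t y = hex.choose := dif_pos hex
        rw [ht] at hy
        have := hex.choose_spec
        rw [hy.2] at this
        exact this
    refine (Finset.sum_le_sum (fun i _ => key i)).trans ?_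
    rw [sum_add_distrib, Finset.sum_ite_eq' univ i₀, if_pos (mem_univ _)]
    rw [Finset.sum_range]

private lemma rf_num (k z a s2 m Sq E e2Z ε ρ : ℝ) (hk : 1 ≤ k) (hε : 0 < ε) (hε1 : ε ≤ 1/1000)
    (hρ : 0 < ρ) (ha0 : 0 ≤ a) (ha : a ≤ ε * ρ) (hz0 : 0 ≤ z) (hz : z ≤ (k + ε) * ρ)
    (h1 : (z - a)^2 ≤ k * s2) (hm : k * m ≤ z)
    (h4 : e2Z + E ≤ z^2 - s2 + 2 * Sq) (hSq : Sq ≤ ε * ρ^2/40) :
    E + (a^2 + 2 * a * m) + e2Z ≤ z^2 * (1 - 1/k) + 7 * ε * ρ^2 := by
  have hk0 : 0 < k := by linarith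
  set u := z / k with hu
  have hzu : z = k * u := by rw [hu]; field_simp
  have hu0 : 0 ≤ u := by rw [hu]; positivity
  have hu1 : u ≤ (1 + ε) * ρ := by
    rw [hu, div_le_iff₀ hk0]
    have : 0 ≤ (k - 1) * (ε * ρ) := by
      apply mul_nonneg
      · linarith
      · positivity
    nlinarith
  have hm1 : m ≤ u := by
    rw [hu, le_div_iff₀ hk0]
    linarith
  have hs2 : z * u - 2 * a * u ≤ s2 := by
    have h2 : k * (z * u - 2 * a * u) ≤ k * s2 := by
      have : k * (z * u - 2 * a * u) = z^2 - 2 * a * z := by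
        rw [hzu]; ring
      rw [this]
      nlinarith [sq_nonneg a]
    exact le_of_mul_le_mul_left h2 hk0
  have hz2 : z^2 * (1 - 1/k) = z^2 - z * u := by
    rw [hu]; field_simp
  rw [hz2]
  have h5 : a * u ≤ (ε * ρ) * ((1 + ε) * ρ) := mul_le_mul ha hu1 hu0 (by positivity)
  have h6 : a * m ≤ a * u := mul_le_mul_of_nonneg_left hm1 ha0
  have h7 : a^2 ≤ (ε * ρ)^2 := by
    apply pow_le_pow_left₀ ha0 ha
  have h8 : (ε * ρ) * ((1 + ε) * ρ) = ε * ρ^2 + ε * (ε * ρ^2) := by ring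
  have h9 : (ε * ρ)^2 = ε * (ε * ρ^2) := by ring
  have hp : 0 < ε * ρ^2 := by positivity
  have h10 : ε * (ε * ρ^2) ≤ 1/1000 * (ε * ρ^2) := mul_le_mul_of_nonneg_right hε1 hp.le
  have h11 : ε * ρ^2/40 = 1/40 * (ε * ρ^2) := by ring
  have h12 : 7 * ε * ρ^2 = 7 * (ε * ρ^2) := by ring
  rw [h11] at hSq
  rw [h12]
  rw [h8] at h5
  rw [h9] at h7
  linarith

end

section
variable {V : Type*} [Fintype V] [DecidableEq V] {F : V → V → Prop} [DecidableRel F]
variable {ι : Type*} [DecidableEq ι] {L : Finset ι} {Z : Finset V} {w : ι → V → ℝ} {a : ι → ℝ}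
variable {r : ℕ} {ε η₁ C₀ N₀ S₀ H lam lam1 : ℝ}

/-- robust Füredi.  `A t = AA F Z (J t)`, `k = n+1` steps. -/
theorem robust_furedi (h : PH F L Z w (fun _ => 0) r ε η₁ C₀ N₀ S₀)
    (hp : PPar ε H lam lam1 η₁ C₀ N₀ S₀) (hbig : 2 < lam*ε/8)
    (k : ℕ) (hk : 1 ≤ k) (h5 : ((k:ℝ)+1) * Z.card / (r:ℝ)^2 ≤ ε/8)
    (h6 : 100/ε + 1 + Real.log k ≤ H)
    (h7 : ((k:ℝ) - 1 + ε)*r ≤ Z.card) (h8 : (Z.card : ℝ) ≤ (k + ε)*r)
    (hno : ¬ ∃ K : Finset V, K ⊆ Z ∧ IsClq F K ∧ K.card = k+1 ∧ ∀ v ∈ L, ∑ x ∈ K, w v x ≤ 1 - ε) :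
    ∃ t : V → Fin k, ∑ i, (e2 F (Z.filter (fun x => t x = i)) : ℝ) + (e2 F Z : ℝ)
      ≤ (Z.card:ℝ)^2 * (1 - 1/k) + 7*ε*(r:ℝ)^2 := by
  obtain ⟨n, rfl⟩ : ∃ n, k = n + 1 := ⟨k - 1, by omega⟩
  have hr : (1:ℝ) ≤ r := by exact_mod_cast h.r0
  have hr0 : (0:ℝ) < r := by linarith
  have hε := hp.ε0
  have hε1 := hp.ε1
  have hl := hp.lam0.le
  have hl1 := hp.lam10.le
  push_cast at h5 h6 h7 h8
  obtain ⟨x, J, hJ0, hJs, hJZ, hgr, -, -, -, hinv, hext⟩ := process h hp n
    (by rw [show (n:ℝ) + 2 = n + 1 + 1 by ring]; exact h5) h6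
    (by rw [show (n:ℝ) + ε = n + 1 - 1 + ε by ring]; exact h7)
  set A : ℕ → Finset V := fun t => AA F Z (J t) with hAdef
  have hA0 : A 0 = Z := by
    simp only [hAdef, hJ0, AA]
    ext y
    simp
  have hAs : ∀ t, A (t+1) = (A t).filter (fun y => F (x t) y) := by
    intro t
    simp only [hAdef, hJs t]
    exact AA_insert Z (J t) (x t)
  have hA : ∀ t < n+1, A (t+1) ⊆ A t := by
    intro t _
    rw [hAs t]
    exact filter_subset _ _
  -- the last set is small
  have hsmall : ((A (n+1)).card : ℝ) < ε * r := by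
    by_contra hc
    push Not at hc
    obtain ⟨K, hK1, hK2, hK3, hK4⟩ := hext hc
    refine hno ⟨K, hK1, hK2, by omega, ?_⟩
    intro v hv
    have := hK4 v hv
    simpa [CC] using this
  have hJm : Monotone J := by
    refine monotone_nat_of_le_succ fun m => ?_
    rw [hJs m]
    exact subset_insert _ _
  have hJmono : ∀ t ≤ n+1, J t ⊆ J (n+1) := fun t ht => hJm ht
  have hS0 : 0 ≤ ∑ y ∈ J (n+1), wd L w y := by
    apply sum_nonneg
    intro y hy
    apply sum_nonneg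
    intro v hv
    exact h.w0 v hv y (hJZ _ hy)
  have hZr : (n:ℝ) + ε ≤ (Z.card:ℝ)/r := by
    rw [le_div_iff₀ hr0]
    have : (n:ℝ) + 1 - 1 + ε = n + ε := by ring
    rw [this] at h7
    exact h7
  have hAr : ((A (n+1)).card:ℝ)/r < ε := by
    rw [div_lt_iff₀ hr0]
    exact hsmall
  have hinv2 : lam1/2 * (∑ y ∈ J (n+1), wd L w y)
      + lam*ε/8 * ((satSet L w (fun _ => 0) ε (J (n+1))).card : ℝ) < 2 := by
    have : ((A (n+1)).card:ℝ)/r = ((AA F Z (J (n+1))).card:ℝ)/r := rfl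
    linarith
  have hsat : (satSet L w (fun _ => 0) ε (J (n+1))).card = 0 := by
    by_contra hc
    have h1 : (1:ℝ) ≤ ((satSet L w (fun _ => 0) ε (J (n+1))).card : ℝ) := by
      exact_mod_cast Nat.one_le_iff_ne_zero.mpr hc
    have h2 : lam*ε/8 * 1 ≤ lam*ε/8 * ((satSet L w (fun _ => 0) ε (J (n+1))).card : ℝ) :=
      mul_le_mul_of_nonneg_left h1 (by linarith)
    have h3 : 0 ≤ lam1/2 * (∑ y ∈ J (n+1), wd L w y) := mul_nonneg (by linarith) hS0
    linarith
  have hS : lam1 * (∑ y ∈ J (n+1), wd L w y) ≤ 4 := by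
    rw [hsat] at hinv2
    push_cast at hinv2
    linarith
  -- the weights
  set q : V → ℝ := fun y => r * pen L w (fun _ => 0) ε lam lam1 (J (n+1)) y with hqdef
  have hq : ∀ y ∈ A 0, 0 ≤ q y := by
    intro y hy
    rw [hA0] at hy
    exact mul_nonneg hr0.le (pen_nonneg h hl hl1 _ (hJZ _) y hy)
  have hd : ∀ t < n+1, ∀ y ∈ A t \ A (t+1), (dF F y (A t) : ℝ) ≤ (A (t+1)).card + q y := by
    intro t ht y hy
    rw [mem_sdiff] at hy
    obtain ⟨hxt, hmax⟩ := hgr t (by omega)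
    have h1 := hmax y hy.1
    have hyZ : y ∈ Z := by
      have := rf_anti A (n+1) hA (Nat.zero_le t) ht.le hy.1
      rwa [hA0] at this
    have hxZ : x t ∈ Z := by
      have := rf_anti A (n+1) hA (Nat.zero_le t) ht.le hxt
      rwa [hA0] at this
    have h2 := pen_nonneg h hl hl1 (J t) (hJZ t) (x t) hxZ
    have h3 := pen_mono h hl hl1 (hJmono t ht.le) (hJZ _) y hyZ
    have h4 : (dF F (x t) (A t) : ℝ) = ((A (t+1)).card : ℝ) := by
      rw [hAs t]
      rfl
    have h5 : (r:ℝ) * pen L w (fun _ => 0) ε lam lam1 (J t) y ≤ q y :=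
      mul_le_mul_of_nonneg_left h3 hr0.le
    have h6 : 0 ≤ (r:ℝ) * pen L w (fun _ => 0) ε lam lam1 (J t) (x t) := mul_nonneg hr0.le h2
    have h7 : (dF F y (A t) : ℝ) = (dF F y (AA F Z (J t)) : ℝ) := rfl
    have h8 : (dF F (x t) (A t) : ℝ) = (dF F (x t) (AA F Z (J t)) : ℝ) := rfl
    linarith
  have hfs := furedi_sum h.symm A (n+1) hA q hq hd
  have hsumq : ∑ y ∈ A 0, q y ≤ ε * (r:ℝ)^2/40 := by
    rw [hA0, hqdef, ← mul_sum]
    have h1 := sum_pen h hε hl hl1 hp.η₁0 (J (n+1)) (hJZ _)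
    rw [hsat] at h1
    set ζ := 2*lam*η₁ + 4*η₁/ε^2 with hζ
    set S := ∑ y ∈ J (n+1), wd L w y with hSdef
    have hζ0 : 0 ≤ ζ := by
      have := hp.η₁0
      positivity
    have hH : 100/ε ≤ H := by linarith [hp.H0]
    have hH0 : 0 < H := lt_of_lt_of_le (by positivity) hH
    have hHε : 100 ≤ H * ε := by
      rw [div_le_iff₀ hε] at hH
      exact hH
    have hc1 : ζ * H ≤ lam1/2 := hp.c1
    have hc3 : lam1*C₀*H ≤ ε/8 := hp.c3
    have hc4 : ζ * S₀ * H ≤ ε/8 := hp.c4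
    -- ζ S ≤ 2/H ≤ ε/50
    have e1 : ζ * S ≤ ε/50 := by
      have h2 : (ζ * S) * H ≤ 2 := by
        calc (ζ * S) * H = (ζ * H) * S := by ring
          _ ≤ lam1/2 * S := mul_le_mul_of_nonneg_right hc1 hS0
          _ ≤ 2 := by linarith
      have h3 : (ζ * S) * H ≤ (ε/50) * H := by nlinarith
      exact le_of_mul_le_mul_right h3 hH0
    have e2' : ζ * S₀ ≤ ε/800 := by
      have h3 : (ζ * S₀) * H ≤ (ε/800) * H := by nlinarith
      exact le_of_mul_le_mul_right h3 hH0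
    have e3 : lam1 * C₀ ≤ ε/800 := by
      have h3 : (lam1 * C₀) * H ≤ (ε/800) * H := by nlinarith
      exact le_of_mul_le_mul_right h3 hH0
    have e4 : ζ * (S₀ + S) + lam1*C₀ + 2*N₀*((0:ℕ) : ℝ) ≤ ε/40 := by
      push_cast
      have : ζ * (S₀ + S) = ζ * S₀ + ζ * S := by ring
      linarith
    have e5 : (r:ℝ) * (ζ * (S₀ + S) + lam1*C₀ + 2*N₀*((0:ℕ) : ℝ)) ≤ r * (ε/40) :=
      mul_le_mul_of_nonneg_left e4 hr0.le
    calc (r:ℝ) * ∑ y ∈ Z, pen L w (fun _ => 0) ε lam lam1 (J (n+1)) y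
        ≤ r * (r * (ε/40)) := mul_le_mul_of_nonneg_left (h1.trans e5) hr0.le
      _ = ε * (r:ℝ)^2/40 := by ring
  obtain ⟨t, m, hm, ht⟩ := rf_part h.symm A (n+1) (by omega) hA
  refine ⟨t, ?_⟩
  have hcard := rf_card A (n+1) hA
  have hcs : ((Z.card:ℝ) - (A (n+1)).card)^2
      ≤ ((n+1 : ℕ):ℝ) * ∑ t ∈ range (n+1), ((A t \ A (t+1)).card : ℝ)^2 := by
    have h1 : (Z.card:ℝ) - (A (n+1)).card = ∑ t ∈ range (n+1), ((A t \ A (t+1)).card : ℝ) := by
      rw [hA0] at hcard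
      rw [← hcard]
      push_cast
      ring
    rw [h1]
    have h2 := sq_sum_le_card_mul_sum_sq (s := range (n+1))
      (f := fun t => ((A t \ A (t+1)).card : ℝ))
    simpa using h2
  have hfin := rf_num ((n+1 : ℕ):ℝ) (Z.card:ℝ) ((A (n+1)).card : ℝ)
    (∑ t ∈ range (n+1), ((A t \ A (t+1)).card : ℝ)^2) (m:ℝ) (∑ y ∈ A 0, q y)
    (∑ t ∈ range (n+1), (e2 F (A t \ A (t+1)) : ℝ)) (e2 F Z : ℝ) ε r (by push_cast; linarith [Nat.cast_nonneg (α := ℝ) n])
    hε hε1 hr0 (Nat.cast_nonneg _) hsmall.le (Nat.cast_nonneg _) (by push_cast; exact h8) hcs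
    (by rw [hA0] at hm; exact_mod_cast hm) (by rw [hA0] at hfs; rw [hA0]; exact hfs) hsumq
  have ht' : ∑ i, (e2 F (Z.filter (fun x => t x = i)) : ℝ)
      ≤ ∑ t ∈ range (n+1), (e2 F (A t \ A (t+1)) : ℝ)
        + (((A (n+1)).card:ℝ)^2 + 2 * ((A (n+1)).card:ℝ) * m) := by
    rw [hA0] at ht
    exact_mod_cast ht
  linarith

end

end Pool.Agent.EG
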