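import Pool.Agent.Lib.MP_f04ccf_co.Large.PHplus
import Pool.Agent.Lib.MP_f04ccf_co.Large.Process
import Pool.Agent.Lib.MP_f04ccf_co.Large.Pars

/-!
MP_f04ccf_co, large `r`: no unblocked clique with `|U|+1` elements in `Z⁺`, and `|Z⁺| ≤ (k+ε) r`
(task Zp.lean).
-/

set_option autoImplicit false

namespace Pool.Agent.EG

open Finset

section
variable {V : Type*} [Fintype V] [DecidableEq V] {F : V → V → Prop} [DecidableRel F]
variable {r : ℕ} {p : V → Fin r} {ε η H : ℝ} {U : Finset (Fin r)}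

theorem no_clique_plus (h : Cfg F p) (hP : Par r ε η H) (hU : Lt F p η U)
    (hk : (U.card : ℝ) ≤ 3/η + 1) :
    ¬ ∃ K : Finset V, K ⊆ ZZ F p ε U ∪ YA F p ε U ∧ IsClq F K ∧ K.card = U.card+1 ∧
      ∀ v ∈ univ \ U, ∑ x ∈ K, ww F p ε η v x ≤ 1 - ε := by
  rintro ⟨K, _, hclq, hcard, hw⟩
  refine ext_ww h hP hU hk U (Finset.Subset.refl U) (by omega) K hclq hcard ?_
  intro v hv
  exact hw v (by simp [hv])

theorem Zp.r_big (hP : Par r ε η H) : 10^9 ≤ (r:ℝ) ∧ 2 ≤ r := by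
  have h0 := hP.ε0
  have h1 := hP.ε1
  have hη0 := hP.η0
  have hηε := PHplus.η_le hP
  have hη : η ≤ 1/10^9 := by nlinarith
  have h3 : η^3 ≤ 1/10^9 := by
    have : η^3 ≤ η := by
      have hle1 : η ≤ 1 := by linarith
      calc η^3 = η * (η*η) := by ring
        _ ≤ η * (1*1) := by
            apply mul_le_mul_of_nonneg_left _ hη0.le
            exact mul_le_mul hle1 hle1 hη0.le zero_le_one
        _ = η := by ring
    linarith
  have hr0 : (0:ℝ) ≤ r := Nat.cast_nonneg r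
  have hr1 := hP.r1
  have hr : 10^9 ≤ (r:ℝ) := by
    nlinarith [mul_le_mul_of_nonneg_right h3 hr0]
  refine ⟨hr, ?_⟩
  have : (2:ℝ) ≤ r := by linarith
  exact_mod_cast this

/-- a priori bound `|Z⁺| ≤ 2 k r + r/(4ε)` -/
theorem Zp_apriori (h : Cfg F p) (hP : Par r ε η H) :
    ((ZZ F p ε U ∪ YA F p ε U).card : ℝ) ≤ (2*(U.card:ℝ) + 1/(4*ε)) * r := by
  have hr2 := (Zp.r_big hP).2
  have h1 : ((ZZ F p ε U).card : ℝ) ≤ (U.card : ℝ) * (2*r) := by
    have hsub : ZZ F p ε U ⊆ U.biUnion (fun v => cl p v) := by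
      intro x hx
      have hx' := (Finset.mem_filter.mp hx).2.1
      rw [Finset.mem_biUnion]
      exact ⟨p x, hx', by simp [cl]⟩
    calc ((ZZ F p ε U).card : ℝ) ≤ ((U.biUnion (fun v => cl p v)).card : ℝ) := by
          exact_mod_cast Finset.card_le_card hsub
      _ ≤ ((∑ v ∈ U, (cl p v).card : ℕ) : ℝ) := by
          exact_mod_cast Finset.card_biUnion_le
      _ = ∑ v ∈ U, ((cl p v).card : ℝ) := by push_cast; rfl
      _ ≤ ∑ v ∈ U, (2*(r:ℝ)) := by
          apply Finset.sum_le_sum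
          intro v _
          exact card_all h hr2 v
      _ = (U.card : ℝ) * (2*r) := by simp
  have h2 := YA_card (U := U) h hP
  have h3 : ((ZZ F p ε U ∪ YA F p ε U).card : ℝ) ≤ ((ZZ F p ε U).card : ℝ) + ((YA F p ε U).card : ℝ) := by
    exact_mod_cast Finset.card_union_le _ _
  have h4 : (r:ℝ)/(4*ε) = 1/(4*ε) * r := by ring
  rw [h4] at h2
  nlinarith

/-- `process` with `n = k` and `no_clique_plus` -/
theorem Zp_card (h : Cfg F p) (hP : Par r ε η H) (hU : Lt F p η U) (hk : (U.card : ℝ) ≤ 3/η + 1)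
    (hk1 : 1 ≤ U.card) :
    ((ZZ F p ε U ∪ YA F p ε U).card : ℝ) ≤ ((U.card:ℝ) + ε) * r := by
  by_contra hcon
  rw [not_le] at hcon
  have h0 := hP.ε0
  have h1 := hP.ε1
  have hη0 := hP.η0
  have hηε := PHplus.η_le hP
  have hr := PHplus.r_pos hP
  have hη1 : (1:ℝ) ≤ 1/η := by
    rw [le_div_iff₀ hη0]
    nlinarith
  have hk4 : (U.card : ℝ) ≤ 4/η := by
    have e : (4:ℝ)/η = 3/η + 1/η := by ring
    rw [e]
    linarith
  have hap := Zp_apriori (U := U) h hP
  have hz : ((ZZ F p ε U ∪ YA F p ε U).card : ℝ) ≤ (8/η + 1/ε) * r := by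
    refine le_trans hap ?_
    apply mul_le_mul_of_nonneg_right _ hr.le
    have e1 : (8:ℝ)/η = 2*(3/η) + 2*(1/η) := by ring
    have e2' : (1:ℝ)/ε = 1/(4*ε) + 3/(4*ε) := by field_simp; ring
    have e3 : 0 ≤ 3/(4*ε) := by positivity
    rw [e1, e2']
    linarith
  have hPH := PH_plus h hP hU hk hk1
  have hPP := PPar_of_Par hP 0 le_rfl zero_le_one
  obtain ⟨x, J, _, _, hJZ, _, hJcard, hJclq, hJC, _, _⟩ :=
    process hPH hPP U.card (Par_c5 hP U.card hk4 _ hz) (Par_log hP U.card hk4) hcon.le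
  apply no_clique_plus h hP hU hk
  refine ⟨J (U.card+1), hJZ _, hJclq, hJcard, ?_⟩
  intro v hv
  have := hJC v hv
  unfold CC at this
  simpa using this

end

end Pool.Agent.EG
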