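import Pool.Agent.Lib.MP_f04ccf_co.Large.Defs
import Pool.Agent.Lib.MP_f04ccf_co.Large.Basic1
import Pool.Agent.Lib.MP_f04ccf_co.Large.Basic2
import Pool.Agent.Lib.MP_f04ccf_co.Large.Pars
import Pool.Agent.Lib.MP_f04ccf_co.Large.Zb
import Pool.Agent.Lib.MP_f04ccf_co.Large.RF
import Pool.Agent.Lib.MP_f04ccf_co.Large.PHplus
import Pool.Agent.Lib.MP_f04ccf_co.Large.Zp

/-!
MP_f04ccf_co, large `r`: partition of `ZZ ∪ YA` into `|U|` parts with few edges.
-/

set_option autoImplicit false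

namespace Pool.Agent.EG

open Finset

section
variable {V : Type*} [Fintype V] [DecidableEq V] {F : V → V → Prop} [DecidableRel F]
variable {r : ℕ} {p : V → Fin r} {ε η H : ℝ} {U : Finset (Fin r)}

/-- with `z = |Z⁺|/r`, `turan` for `q = k-1`:
`∑ e2 (parts) ≤ z^2 r^2 (1-1/k) + 7 ε r^2 - (r-1)(2(k-1) z r - r k (k-1)) ≤ ((k-1)/k)(z-k)^2 r^2 + 8 ε r^2` -/
theorem parts (h : Cfg F p) (hP : Par r ε η H) (hU : Lt F p η U) (hk : (U.card : ℝ) ≤ 3/η + 1)
    (hk1 : 1 ≤ U.card) :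
    ∃ t : V → Fin U.card,
      ∑ i, (e2 F ((ZZ F p ε U ∪ YA F p ε U).filter (fun x => t x = i)) : ℝ)
        ≤ ((U.card:ℝ) - ((ZZ F p ε U ∪ YA F p ε U).card:ℝ)/r)^2 * (r:ℝ)^2 + 8*ε*(r:ℝ)^2 := by
  obtain ⟨hr1, hr⟩ := Par_r hP
  have hr0 : (0:ℝ) < r := by exact_mod_cast hr
  have hrr : (1:ℝ) ≤ r := by exact_mod_cast hr
  have hε0 := hP.ε0
  have hε1 := hP.ε1
  have hη0 := hP.η0
  have hηs := Par_eta_small hP
  have hη1 := hP.η1
  have hηε : 100 * η ≤ ε := by nlinarith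
  have hk1' : (1:ℝ) ≤ (U.card:ℝ) := by exact_mod_cast hk1
  have hinv : 1 ≤ 1/η := by
    rw [le_div_iff₀ hη0]; linarith
  have hk4 : (U.card:ℝ) ≤ 4/η := by
    have : (4:ℝ)/η = 3/η + 1/η := by ring
    rw [this]; linarith
  have hZub := Zp_card h hP hU hk hk1
  have hZlb : ((U.card:ℝ) - 1 + ε) * r ≤ ((ZZ F p ε U ∪ YA F p ε U).card : ℝ) := by
    have h1 := ZZ_card h hP hU
    have h2 : ((ZZ F p ε U).card : ℝ) ≤ ((ZZ F p ε U ∪ YA F p ε U).card : ℝ) := by
      exact_mod_cast Finset.card_le_card Finset.subset_union_left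
    have h3 : (D2 F p : ℝ)/(2*r) ≤ r/2 := by
      rw [div_le_iff₀ (by positivity)]
      have := h.D2le
      nlinarith
    nlinarith
  set z : ℝ := ((ZZ F p ε U ∪ YA F p ε U).card : ℝ) with hz
  set k : ℝ := (U.card:ℝ) with hkdef
  have hz0 : 0 ≤ z := Nat.cast_nonneg _
  have h5 : (k+1) * z / (r:ℝ)^2 ≤ ε/8 := by
    have h1 := Par_c5 hP U.card hk4 z (by
      refine hZub.trans (mul_le_mul_of_nonneg_right ?_ hr0.le)
      have : 0 ≤ 1/ε := by positivity
      have e : (8:ℝ)/η = 4/η + 4 * (1/η) := by ring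
      rw [e]; linarith)
    refine le_trans ?_ h1
    apply div_le_div_of_nonneg_right _ (by positivity)
    apply mul_le_mul_of_nonneg_right _ hz0
    linarith
  have h6 : 100/ε + 1 + Real.log U.card ≤ H := by
    have h1 := Par_log hP U.card hk4
    have h2 : Real.log U.card ≤ Real.log (U.card + 1) :=
      Real.log_le_log (by linarith) (by linarith)
    linarith
  obtain ⟨t, ht⟩ := robust_furedi (PH_plus h hP hU hk hk1) (PPar_of_Par hP 0 le_rfl zero_le_one)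
    (Par_big hP) U.card hk1 h5 h6 hZlb hZub (no_clique_plus h hP hU hk)
  refine ⟨t, ?_⟩
  have htur := h.turan (ZZ F p ε U ∪ YA F p ε U) (U.card - 1)
  have hcast : ((U.card - 1 : ℕ) : ℝ) = k - 1 := by
    rw [Nat.cast_sub hk1]; simp [hkdef]
  rw [hcast, ← hz] at htur
  rw [← hz, ← hkdef] at ht
  have hk0 : 0 < k := by linarith
  have hid : z^2 * (1 - 1/k) - ((r:ℝ) - 1) * (2 * (k-1) * z - r * (k-1) * (k - 1 + 1))
      = (k - 1)/k * (k - z/r)^2 * (r:ℝ)^2 + (k-1) * (2*z - r*k) := by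
    field_simp
    ring
  have hA : (k-1) * (2*z - r*k) ≤ ε * (r:ℝ)^2 := by
    have h1 : 2*z - r*k ≤ (k + 1) * r := by nlinarith
    have h2 : (k-1) * (2*z - r*k) ≤ (k-1) * ((k+1)*r) :=
      mul_le_mul_of_nonneg_left h1 (by linarith)
    have h3 : (k-1)*((k+1)*r) ≤ k^2 * r := by nlinarith
    have h4 : k^2 ≤ ε * r := by
      have h41 : k^2 ≤ (4/η)^2 := by
        apply pow_le_pow_left₀ hk0.le hk4
      have h42 : (4/η)^2 ≤ ε * r := by
        rw [div_pow, div_le_iff₀ (by positivity)]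
        have h43 := hP.r1
        have h44 : η * 100 * (η^2 * r) ≤ ε * (η^2 * r) := by
          apply mul_le_mul_of_nonneg_right _ (by positivity)
          linarith
        nlinarith
      linarith
    nlinarith
  have hB : (k - 1)/k * (k - z/r)^2 * (r:ℝ)^2 ≤ (k - z/r)^2 * (r:ℝ)^2 := by
    apply mul_le_mul_of_nonneg_right _ (by positivity)
    have : (k-1)/k ≤ 1 := by
      rw [div_le_one hk0]; linarith
    have h2 : 0 ≤ (k - z/r)^2 := sq_nonneg _
    nlinarith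
  linarith

end

end Pool.Agent.EG
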