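import Pool.Agent.Lib.MP_f04ccf_co.Large.Basic3
import Pool.Agent.Lib.MP_f04ccf_co.Large.Claim2

set_option autoImplicit false

namespace Pool.Agent.EG

open Finset

section
variable {V : Type*} [Fintype V] [DecidableEq V] {F : V → V → Prop} [DecidableRel F]
variable {r : ℕ} {p : V → Fin r} {ε η H : ℝ} {U : Finset (Fin r)}

/-- at most `16 r` vertices have cross degree `≥ r/8` -/
theorem big_card (h : Cfg F p) (hr : 1 ≤ r) :
    ((univ.filter (fun x => (r:ℝ)/8 ≤ cd F p x)).card : ℝ) ≤ 16*r := by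
  have hr0 : (0:ℝ) < r := by exact_mod_cast hr
  have h1 := sum_cd h hr
  push_cast at h1
  have h2 : ((univ.filter (fun x => (r:ℝ)/8 ≤ cd F p x)).card : ℝ) * (r/8)
      ≤ ∑ x ∈ univ.filter (fun x => (r:ℝ)/8 ≤ cd F p x), (cd F p x : ℝ) := by
    rw [← nsmul_eq_mul]
    exact card_nsmul_le_sum _ _ _ (fun x hx => (mem_filter.mp hx).2)
  have h3 : ∑ x ∈ univ.filter (fun x => (r:ℝ)/8 ≤ cd F p x), (cd F p x : ℝ)
      ≤ ∑ x, (cd F p x : ℝ) :=
    sum_le_sum_of_subset_of_nonneg (filter_subset _ _) (fun _ _ _ => by positivity)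
  have h5 : ((univ.filter (fun x => (r:ℝ)/8 ≤ cd F p x)).card : ℝ) * (r/8)
      ≤ (16*r) * (r/8) := by
    calc _ ≤ 2*(r:ℝ)^2 := h2.trans (h3.trans h1)
      _ = _ := by ring
  exact le_of_mul_le_mul_right h5 (by positivity)

/-- edges inside `S` each of which has an end in `B` -/
theorem e2_le_of_cover (hs : ∀ x y, F x y → F y x) (S : Finset V) (P : V → Prop) [DecidablePred P]
    (hP : ∀ x ∈ S, ∀ y ∈ S, F x y → P x ∨ P y) :
    e2 F S ≤ 2 * ∑ x ∈ S.filter P, dF F x S := by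
  classical
  have e1 : e2 F S = ((S ×ˢ S).filter (fun z => F z.1 z.2)).card := by
    unfold e2 dF
    rw [card_filter, sum_product]
    exact sum_congr rfl fun x _ => by rw [card_filter]
  have e2' : ∑ x ∈ S.filter P, dF F x S
      = ((S ×ˢ S).filter (fun z => P z.1 ∧ F z.1 z.2)).card := by
    unfold dF
    rw [card_filter, sum_product, sum_filter]
    refine sum_congr rfl fun x _ => ?_
    by_cases hx : P x
    · simp only [hx, true_and, if_true]; rw [card_filter]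
    · simp [hx]
  have e3 : ∑ x ∈ S.filter P, dF F x S
      = ((S ×ˢ S).filter (fun z => P z.2 ∧ F z.1 z.2)).card := by
    rw [e2']
    refine card_bij (fun z _ => (z.2, z.1)) ?_ ?_ ?_
    · rintro ⟨x, y⟩ hz
      simp only [mem_filter, mem_product] at hz ⊢
      exact ⟨⟨hz.1.2, hz.1.1⟩, hz.2.1, hs _ _ hz.2.2⟩
    · rintro ⟨x, y⟩ _ ⟨x', y'⟩ _ hh
      simp only [Prod.mk.injEq] at hh ⊢
      exact ⟨hh.2, hh.1⟩
    · rintro ⟨x, y⟩ hz
      simp only [mem_filter, mem_product] at hz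
      exact ⟨(y, x), by simp only [mem_filter, mem_product]; exact ⟨⟨hz.1.2, hz.1.1⟩, hz.2.1, hs _ _ hz.2.2⟩, rfl⟩
  have hsub : (S ×ˢ S).filter (fun z => F z.1 z.2) ⊆
      (S ×ˢ S).filter (fun z => P z.1 ∧ F z.1 z.2) ∪ (S ×ˢ S).filter (fun z => P z.2 ∧ F z.1 z.2) := by
    rintro ⟨x, y⟩ hz
    simp only [mem_filter, mem_product, mem_union] at hz ⊢
    rcases hP x hz.1.1 y hz.1.2 hz.2 with h1 | h1
    · exact Or.inl ⟨hz.1, h1, hz.2⟩
    · exact Or.inr ⟨hz.1, h1, hz.2⟩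
  calc e2 F S = _ := e1
    _ ≤ _ := card_le_card hsub
    _ ≤ _ := card_union_le _ _
    _ = 2 * ∑ x ∈ S.filter P, dF F x S := by rw [← e3, ← e2']; ring

/-- edges inside light classes avoiding `YA ∪ FF`: each has an endpoint with `cd ≥ r/8` (at most `16 r` such
vertices) and that endpoint has `ind < 4 ε r` -/
theorem rest (h : Cfg F p) (hP : Par r ε η H) (hU : Lt F p η U) (hk : (U.card : ℝ) ≤ 3/η + 1)
    (hk1 : 1 ≤ U.card) :
    ∑ v ∈ univ \ U, (e2 F (cl p v \ (YA F p ε U ∪ FF F p ε U)) : ℝ) ≤ 128*ε*(r:ℝ)^2 := by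
  have hr0 : (0:ℝ) < r := by
    have h1 := hP.r1
    have h2 : (0:ℝ) < η^3 := pow_pos hP.η0 3
    by_contra hr
    push Not at hr
    nlinarith [mul_nonneg h2.le (neg_nonneg.mpr hr)]
  have hr : 1 ≤ r := by exact_mod_cast hr0
  have hε := hP.ε0
  set B := univ.filter (fun x => (r:ℝ)/8 ≤ cd F p x) with hB
  have hBc : (B.card : ℝ) ≤ 16*r := big_card h hr
  -- one class
  have h1 : ∀ v ∈ univ \ U, (e2 F (cl p v \ (YA F p ε U ∪ FF F p ε U)) : ℝ)
      ≤ ((B.filter (fun x => p x = v)).card : ℝ) * (8*ε*r) := by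
    intro v hv
    have hvU : v ∉ U := (mem_sdiff.mp hv).2
    set S := cl p v \ (YA F p ε U ∪ FF F p ε U) with hS
    have hmem : ∀ x ∈ S, p x = v ∧ x ∉ YA F p ε U ∧ x ∉ FF F p ε U := by
      intro x hx
      rw [hS, mem_sdiff, mem_union, not_or, mem_cl] at hx
      exact ⟨hx.1, hx.2.1, hx.2.2⟩
    have hcov := e2_le_of_cover h.symm S (fun x => (r:ℝ)/8 ≤ cd F p x) (by
      intro x hx y hy hxy
      have hx' := hmem x hx
      have hy' := hmem y hy
      exact claim2 h hP hU hk hk1 x y (by rw [hx'.1]; exact hvU) (hy'.1.trans hx'.1.symm) hxy)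
    have hcov' : (e2 F S : ℝ) ≤ 2 * ∑ x ∈ S.filter (fun x => (r:ℝ)/8 ≤ cd F p x), (dF F x S : ℝ) := by
      exact_mod_cast hcov
    have hdeg : ∀ x ∈ S.filter (fun x => (r:ℝ)/8 ≤ cd F p x), (dF F x S : ℝ) ≤ 4*ε*r := by
      intro x hx
      have hxS := (mem_filter.mp hx).1
      have hx' := hmem x hxS
      have hle : (dF F x S : ℝ) ≤ (ind F p x : ℝ) := by
        have : dF F x S ≤ ind F p x := by
          unfold ind
          rw [hx'.1]
          exact dF_mono x sdiff_subset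
        exact_mod_cast this
      have hlt : (ind F p x : ℝ) < 4*ε*r := by
        by_contra hge
        push Not at hge
        apply hx'.2.1
        unfold YA
        exact mem_filter.mpr ⟨mem_univ _, by rw [hx'.1]; exact hvU, hx'.2.2, hge⟩
      exact hle.trans hlt.le
    have hsum := sum_le_card_nsmul _ _ _ hdeg
    rw [nsmul_eq_mul] at hsum
    have hcard : ((S.filter (fun x => (r:ℝ)/8 ≤ cd F p x)).card : ℝ)
        ≤ ((B.filter (fun x => p x = v)).card : ℝ) := by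
      have : S.filter (fun x => (r:ℝ)/8 ≤ cd F p x) ⊆ B.filter (fun x => p x = v) := by
        intro x hx
        obtain ⟨hxS, hxd⟩ := mem_filter.mp hx
        exact mem_filter.mpr ⟨mem_filter.mpr ⟨mem_univ _, hxd⟩, (hmem x hxS).1⟩
      exact_mod_cast card_le_card this
    calc (e2 F S : ℝ) ≤ 2 * ∑ x ∈ S.filter (fun x => (r:ℝ)/8 ≤ cd F p x), (dF F x S : ℝ) := hcov'
      _ ≤ 2 * (((S.filter (fun x => (r:ℝ)/8 ≤ cd F p x)).card : ℝ) * (4*ε*r)) := by
        exact mul_le_mul_of_nonneg_left hsum (by norm_num)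
      _ ≤ 2 * (((B.filter (fun x => p x = v)).card : ℝ) * (4*ε*r)) := by
        apply mul_le_mul_of_nonneg_left _ (by norm_num)
        exact mul_le_mul_of_nonneg_right hcard (by positivity)
      _ = _ := by ring
  have h2 : ∑ v ∈ univ \ U, ((B.filter (fun x => p x = v)).card : ℝ) ≤ (B.card : ℝ) := by
    have h3 : ∑ v ∈ univ \ U, ((B.filter (fun x => p x = v)).card : ℝ)
        ≤ ∑ v, ((B.filter (fun x => p x = v)).card : ℝ) :=
      sum_le_sum_of_subset_of_nonneg (subset_univ _) (fun _ _ _ => by positivity)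
    have h4 : ∑ v, (B.filter (fun x => p x = v)).card = B.card :=
      (card_eq_sum_card_fiberwise (fun x _ => mem_univ (p x))).symm
    have h5 : ∑ v, ((B.filter (fun x => p x = v)).card : ℝ) = (B.card : ℝ) := by
      exact_mod_cast h4
    exact h3.trans h5.le
  calc ∑ v ∈ univ \ U, (e2 F (cl p v \ (YA F p ε U ∪ FF F p ε U)) : ℝ)
      ≤ ∑ v ∈ univ \ U, ((B.filter (fun x => p x = v)).card : ℝ) * (8*ε*r) := sum_le_sum h1
    _ = (∑ v ∈ univ \ U, ((B.filter (fun x => p x = v)).card : ℝ)) * (8*ε*r) := by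
        rw [sum_mul]
    _ ≤ (16*r) * (8*ε*r) := by
        exact mul_le_mul_of_nonneg_right (h2.trans hBc) (by positivity)
    _ = 128*ε*(r:ℝ)^2 := by ring

end

end Pool.Agent.EG
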