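import Pool.Agent.Lib.MP_f04ccf_co.Large.Heavy
import Pool.Agent.Lib.MP_f04ccf_co.Large.Zb
import Pool.Agent.Lib.MP_f04ccf_co.Large.Zp
import Pool.Agent.Lib.MP_f04ccf_co.Large.RF2
import Pool.Agent.Lib.MP_f04ccf_co.Large.Rest
import Pool.Agent.Lib.MP_f04ccf_co.Large.Newp

set_option autoImplicit false

namespace Pool.Agent.EG

open Finset

section
variable {V : Type*} [Fintype V] [DecidableEq V] {F : V → V → Prop} [DecidableRel F]
variable {r : ℕ} {p : V → Fin r} {ε η H : ℝ} {U : Finset (Fin r)}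

/-- Stage 1: the best partition has at most `100 ε r^2` inner `F`-edges. -/
theorem stage1 (h : Cfg F p) (hP : Par r ε η H) : (D2 F p : ℝ)/2 ≤ 100*ε*(r:ℝ)^2 := by
  have hr : 1 ≤ r := by
    rcases Nat.eq_zero_or_pos r with h0 | h0
    · have := hP.r1
      rw [h0] at this
      norm_num at this
    · exact h0
  have hr0 : (0:ℝ) < r := by exact_mod_cast hr
  obtain ⟨U, hk1, hk, hU⟩ := exists_U h hr hP.η0
  obtain ⟨t, ht⟩ := parts h hP hU hk hk1
  have h1 := ZZ_card h hP hU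
  have h2 := Zp_card h hP hU hk hk1
  have h3 := rest h hP hU hk hk1
  have h4 := newp h hP hU hk1 t
  have h5 : ((ZZ F p ε U).card : ℝ) ≤ ((ZZ F p ε U ∪ YA F p ε U).card : ℝ) := by
    exact_mod_cast card_le_card subset_union_left
  have hε := hP.ε0
  have hε1 := hP.ε1
  have h6 := h.D2le
  set z : ℝ := ((ZZ F p ε U ∪ YA F p ε U).card : ℝ) / r with hz
  have hzr : ((ZZ F p ε U ∪ YA F p ε U).card : ℝ) = z * r := by rw [hz]; field_simp
  set X : ℝ := (D2 F p : ℝ) / (2 * (r:ℝ)^2) with hX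
  have hr2 : (0:ℝ) < (r:ℝ)^2 := by positivity
  have hXr : (D2 F p : ℝ) = 2 * X * (r:ℝ)^2 := by rw [hX]; field_simp
  have hXr' : (D2 F p : ℝ)/(2*r) = X * r := by rw [hX]; field_simp
  rw [hXr'] at h1
  rw [hzr] at h2 h5
  have hX0 : 0 ≤ X := by rw [hX]; positivity
  have hX1 : X ≤ 1/2 := by
    rw [hXr] at h6
    nlinarith
  have ha : (U.card:ℝ) - z ≤ X + 4*ε := by
    have : ((U.card:ℝ) - z - X - 4*ε) * r ≤ 0 := by nlinarith
    nlinarith
  have hb : z - (U.card:ℝ) ≤ ε := by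
    have : (z - (U.card:ℝ) - ε) * r ≤ 0 := by nlinarith
    nlinarith
  have hc : 2 * X * (r:ℝ)^2 ≤ (((U.card:ℝ) - z)^2 + 140*ε) * (r:ℝ)^2 := by
    rw [← hXr]; nlinarith
  have hd : 2 * X ≤ ((U.card:ℝ) - z)^2 + 140*ε := le_of_mul_le_mul_right hc hr2
  have he : ((U.card:ℝ) - z)^2 ≤ (X + 4*ε)^2 + ε^2 := by
    rcases le_total 0 ((U.card:ℝ) - z) with h0 | h0
    · nlinarith
    · nlinarith
  have hf : X ≤ 100 * ε := by nlinarith
  rw [hXr]
  nlinarith

end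

end Pool.Agent.EG
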