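import Pool.Agent.Lib.MP_f04ccf_co.Large.Defs
import Pool.Agent.Lib.MP_f04ccf_co.Large.Basic2
import Pool.Agent.Lib.MP_f04ccf_co.Large.Cover

/-!
MP_f04ccf_co, large `r`, stage 2: class sizes and few vertices covering a part of a class.
-/

set_option autoImplicit false

namespace Pool.Agent.EG

open Finset

section
variable {V : Type*} [Fintype V] [DecidableEq V] {F : V → V → Prop} [DecidableRel F]
variable {r : ℕ} {p : V → Fin r}

private theorem s2b_slack_le (h : Hyp F r) (hr : 1 ≤ r) (v : Fin r) :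
    slack F p v ≤ (D2 F p : ℝ)/2 - ((r:ℝ) - 1) := by
  have h1 := sum_slack h p
  have h2 : slack F p v ≤ ∑ u, slack F p u :=
    Finset.single_le_sum (fun u _ => slack_nonneg h p u) (Finset.mem_univ v)
  linarith

private theorem s2b_e2_le (v : Fin r) : (e2 F (cl p v) : ℝ) ≤ (D2 F p : ℝ) := by
  have h1 : e2 F (cl p v) ≤ ∑ u, e2 F (cl p u) :=
    Finset.single_le_sum (f := fun u => e2 F (cl p u)) (fun u _ => Nat.zero_le _)
      (Finset.mem_univ v)
  rw [sum_e2_cl] at h1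
  exact_mod_cast h1

/-- `D ≤ 10^(-16) r^2`: class sizes -/
theorem s2_card (h : Cfg F p) (hr : (10:ℝ)^20 ≤ r) (hD : (D2 F p : ℝ)/2 ≤ (r:ℝ)^2/10^16) (v : Fin r) :
    |((cl p v).card : ℝ) - r| ≤ 2/10^16 * r := by
  have hr0 : (0:ℝ) < r := by linarith [pow_pos (by norm_num : (0:ℝ) < 10) 20]
  have hr1 : 1 ≤ r := by
    have : (0:ℝ) < (r:ℝ) := hr0
    exact_mod_cast this
  have hr2 : (2:ℝ) ≤ r := by
    have : (2:ℝ) ≤ 10^20 := by norm_num
    linarith
  have h1 := slack_nonneg h.toHyp p v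
  have h2 := s2b_slack_le (p := p) h.toHyp hr1 v
  have h3 := s2b_e2_le (F := F) (p := p) v
  have h4 : (0:ℝ) ≤ (e2 F (cl p v) : ℝ) := Nat.cast_nonneg _
  unfold slack at h1 h2
  set θ := ((cl p v).card : ℝ) - r with hθ
  have h5 : (r:ℝ)^2/10^16 ≤ ((r:ℝ) - 1) * (2/10^16 * r) := by nlinarith
  have h6 : (0:ℝ) < (r:ℝ) - 1 := by linarith
  rw [abs_le]
  constructor
  · have : ((r:ℝ) - 1) * (-θ) ≤ ((r:ℝ) - 1) * (2/10^16 * r) := by nlinarith
    have := le_of_mul_le_mul_left this h6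
    linarith
  · have : ((r:ℝ) - 1) * θ ≤ ((r:ℝ) - 1) * (2/10^16 * r) := by nlinarith
    exact le_of_mul_le_mul_left this h6

/-- every set of vertices with `c_w ≥ α r`, `α ≥ 10^(-7)`, is small: `cover_count` with `g = α/2` -/
theorem s2_count (h : Cfg F p) (hr : (10:ℝ)^20 ≤ r) (hD : (D2 F p : ℝ)/2 ≤ (r:ℝ)^2/10^16) (w : Fin r)
    (α : ℝ) (hα : 1/10^7 ≤ α) (hα1 : α ≤ 1) (Y : Finset V) (hY : ∀ y ∈ Y, p y ≠ w)
    (hc : ∀ y ∈ Y, α * r ≤ (cx F p w y : ℝ)) :
    (Y.card : ℝ) ≤ 4 * slack F p w / (α*r) := by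
  have hr0 : (0:ℝ) < r := by linarith [pow_pos (by norm_num : (0:ℝ) < 10) 20]
  have hr1 : 1 ≤ r := by
    have : (0:ℝ) < (r:ℝ) := hr0
    exact_mod_cast this
  have hα0 : 0 < α := by
    have : (0:ℝ) < 1/10^7 := by norm_num
    linarith
  have hcard := (abs_le.1 (s2_card h hr hD w)).2
  have hαr : 1/10^7 * (r:ℝ) ≤ α * r := mul_le_mul_of_nonneg_right hα hr0.le
  have hone : (1:ℝ) ≤ r / 10^20 := by
    rw [le_div_iff₀ (by norm_num)]
    linarith
  have h1 := (cover_count h.toHyp p w Y hY (α/2) (by positivity) hr1 (by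
    intro y hy
    have h2 := hc y hy
    have h3 : α / 2 * (r:ℝ) = α * r / 2 := by ring
    rw [h3]
    linarith) (by
    have h2 := s2b_slack_le (p := p) h.toHyp hr1 w
    have h3 : slack F p w ≤ (r:ℝ)^2/10^16 := by
      have : (0:ℝ) ≤ (r:ℝ) - 1 := by
        have : (1:ℝ) ≤ 10^20 := by norm_num
        linarith
      linarith
    have h4 : 2 * slack F p w / (α/2*r) ≤ 4 * (r:ℝ) / 10^9 := by
      rw [div_le_iff₀ (by positivity)]
      have h5 : 2 * slack F p w ≤ 2 * ((r:ℝ)^2/10^16) := by linarith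
      have h6 : 4 * (r:ℝ) / 10^9 * (1/10^7 * r / 2) ≤ 4 * (r:ℝ) / 10^9 * (α/2*r) := by
        apply mul_le_mul_of_nonneg_left _ (by positivity)
        linarith
      have h7 : 4 * (r:ℝ) / 10^9 * (1/10^7 * r / 2) = 2 * ((r:ℝ)^2/10^16) := by ring
      linarith
    have h5 : α / 2 * (r:ℝ) = α * r / 2 := by ring
    rw [h5]
    rw [h5] at h4
    linarith)).1
  have h2 : 2 * slack F p w / (α/2*r) = 4 * slack F p w / (α*r) := by
    field_simp
    ring
  rw [h2] at h1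
  exact h1

end

end Pool.Agent.EG
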