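import Pool.Agent.Lib.MP_f04ccf_co.Large.S2Core
import Pool.Agent.Lib.MP_f04ccf_co.Large.S2Basic
import Pool.Agent.Lib.MP_f04ccf_co.Large.Basic2
import Pool.Agent.Lib.MP_f04ccf_co.Large.Defs

/-!
MP_f04ccf_co, large `r`: Stage 2 of the argument (`stage2`).
-/

set_option autoImplicit false

namespace Pool.Agent.EG

open Finset

section
variable {V : Type*} [Fintype V] [DecidableEq V] {F : V → V → Prop} [DecidableRel F]
variable {r : ℕ} {p : V → Fin r}










-- end of stubs

/-- the partners of `y` at the class `w` -/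
private noncomputable def PP (F : V → V → Prop) [DecidableRel F] (p : V → Fin r) (w : Fin r) (y : V) :
    Finset V := univ.filter (fun y' => p y' = p y ∧ F y y' ∧
      (((cl p w).filter (fun z => F y z ∧ F y' z)).card : ℝ) < r/50)

private theorem cover_cl (y y' : V) (w : Fin r) :
    (cl p w).card ≤ cx F p w y + cx F p w y'
      + ((cl p w).filter (fun z => F y z ∧ F y' z)).card := by
  classical
  have h1 : cl p w ⊆ ((cl p w).filter (fun z => ¬ F y z) ∪ (cl p w).filter (fun z => ¬ F y' z))
      ∪ (cl p w).filter (fun z => F y z ∧ F y' z) := by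
    intro z hz
    simp only [mem_union, mem_filter]
    tauto
  calc (cl p w).card ≤ _ := card_le_card h1
    _ ≤ _ := card_union_le _ _
    _ ≤ _ := Nat.add_le_add_right (card_union_le _ _) _

omit [Fintype V] in
private theorem dF_split (y y' : V) (S : Finset V) :
    dF F y S ≤ nF F y' S + (S.filter (fun z => F y z ∧ F y' z)).card := by
  classical
  have h1 : S.filter (fun z => F y z) ⊆ S.filter (fun z => ¬ F y' z)
      ∪ S.filter (fun z => F y z ∧ F y' z) := by
    intro z hz
    simp only [mem_union, mem_filter] at hz ⊢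
    tauto
  exact (card_le_card h1).trans (card_union_le _ _)

/-- the number of pairs inside the classes, split according to `s2_core` -/
private theorem D2_le (h : Cfg F p) (hr : (10:ℝ)^20 ≤ r) (hD : (D2 F p : ℝ)/2 ≤ (r:ℝ)^2/10^16) :
    (D2 F p : ℝ) ≤ 2 * ∑ w : Fin r, ∑ y ∈ univ.filter
      (fun y => p y ≠ w ∧ 2/5 * (r:ℝ) ≤ (cx F p w y : ℝ)), ((PP F p w y).card : ℝ) := by
  classical
  -- ordered pairs
  set E : Finset (V × V) := univ.filter (fun q => p q.2 = p q.1 ∧ F q.1 q.2) with hE
  have hDE : D2 F p = E.card := by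
    rw [hE, card_filter, ← univ_product_univ, sum_product]
    unfold D2 ind dF
    refine sum_congr rfl (fun x _ => ?_)
    rw [card_filter]
    unfold cl
    rw [sum_filter]
    refine sum_congr rfl (fun y _ => ?_)
    by_cases h1 : p y = p x <;> by_cases h2 : F x y <;> simp [h1, h2]
  set B : Finset ((_ : Fin r) × (_ : V) × V) :=
    univ.sigma (fun w => (univ.filter
      (fun y => p y ≠ w ∧ 2/5 * (r:ℝ) ≤ (cx F p w y : ℝ))).sigma (fun y => PP F p w y)) with hB
  have hBc : B.card = ∑ w : Fin r, ∑ y ∈ univ.filter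
      (fun y => p y ≠ w ∧ 2/5 * (r:ℝ) ≤ (cx F p w y : ℝ)), (PP F p w y).card := by
    rw [hB, card_sigma]
    refine sum_congr rfl (fun w _ => ?_)
    rw [card_sigma]
  have hsub : E ⊆ B.image (fun t => (t.2.1, t.2.2)) ∪ B.image (fun t => (t.2.2, t.2.1)) := by
    rintro ⟨y, y'⟩ hq
    rw [hE, mem_filter] at hq
    obtain ⟨-, hpy, hF⟩ := hq
    simp only at hpy hF
    obtain ⟨w, hw, hcom⟩ := s2_core h hr hD y y' hpy hF
    have hr0 : (0:ℝ) < r := lt_of_lt_of_le (by positivity) hr
    have h1 := abs_le.mp (s2_card h hr hD w)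
    have h2 : ((cl p w).card : ℝ) ≤ cx F p w y + cx F p w y'
      + ((cl p w).filter (fun z => F y z ∧ F y' z)).card := by exact_mod_cast cover_cl y y' w
    have h3 : 2/5 * (r:ℝ) ≤ (cx F p w y : ℝ) ∨ 2/5 * (r:ℝ) ≤ (cx F p w y' : ℝ) := by
      by_contra hcon
      push Not at hcon
      obtain ⟨ha, hb⟩ := hcon
      have h4 := h1.1
      nlinarith
    rw [mem_union]
    rcases h3 with h3 | h3
    · left
      rw [mem_image]
      refine ⟨⟨w, y, y'⟩, ?_, rfl⟩
      rw [hB]
      simp only [mem_sigma, mem_univ, true_and, mem_filter, PP]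
      exact ⟨⟨fun h => hw h.symm, h3⟩, hpy, hF, hcom⟩
    · right
      rw [mem_image]
      refine ⟨⟨w, y', y⟩, ?_, rfl⟩
      rw [hB]
      simp only [mem_sigma, mem_univ, true_and, mem_filter, PP]
      refine ⟨⟨fun h => hw (by rw [← h, hpy]), h3⟩, hpy.symm, h.symm _ _ hF, ?_⟩
      have : (cl p w).filter (fun z => F y' z ∧ F y z) = (cl p w).filter (fun z => F y z ∧ F y' z) := by
        apply filter_congr
        intro z _
        exact and_comm
      rw [this]
      exact hcom
  have hcard : E.card ≤ 2 * B.card := by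
    calc E.card ≤ _ := card_le_card hsub
      _ ≤ _ := card_union_le _ _
      _ ≤ B.card + B.card := Nat.add_le_add card_image_le card_image_le
      _ = 2 * B.card := by ring
  rw [hDE]
  rw [hBc] at hcard
  exact_mod_cast hcard

theorem stage2 (h : Cfg F p) (hr : (10:ℝ)^20 ≤ r) (hD : (D2 F p : ℝ)/2 ≤ (r:ℝ)^2/10^16) : False := by
  classical
  have hr0 : (0:ℝ) < r := lt_of_lt_of_le (by positivity) hr
  have hr1 : (1:ℝ) < r := lt_of_lt_of_le (by norm_num) hr
  have hsl := fun u => slack_nonneg h.toHyp p u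
  have hsum := sum_slack h.toHyp p
  have hDpos : (0:ℝ) < D2 F p := by
    have : 0 ≤ ∑ u, slack F p u := sum_nonneg (fun u _ => hsl u)
    linarith
  have hsle : ∀ w, slack F p w ≤ (D2 F p : ℝ)/2 := by
    intro w
    have : slack F p w ≤ ∑ u, slack F p u := single_le_sum (fun u _ => hsl u) (mem_univ w)
    linarith
  -- every set of partners is small
  have hPP : ∀ w y, p y ≠ w → ((PP F p w y).card : ℝ) ≤ r/20 := by
    intro w y hpy
    by_contra hcon
    push Not at hcon
    have h1 : (PP F p w y).card ≤ ind F p y := by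
      unfold ind dF
      apply card_le_card
      intro z hz
      simp only [PP, mem_filter, mem_univ, true_and] at hz
      simp only [cl, mem_filter, mem_univ, true_and]
      exact ⟨hz.1, hz.2.1⟩
    have h2 := ind_le h y w
    have h3 : (r:ℝ)/20 ≤ dF F y (cl p w) := by
      have : ((PP F p w y).card : ℝ) ≤ dF F y (cl p w) := by exact_mod_cast h1.trans h2
      linarith
    have h4 : ∀ y' ∈ PP F p w y, 3/100 * (r:ℝ) ≤ (cx F p w y' : ℝ) := by
      intro y' hy'
      simp only [PP, mem_filter, mem_univ, true_and] at hy'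
      have h5 : (dF F y (cl p w) : ℝ) ≤ cx F p w y' +
          ((cl p w).filter (fun z => F y z ∧ F y' z)).card := by
        exact_mod_cast dF_split y y' (cl p w)
      linarith [hy'.2.2]
    have h5 := s2_count h hr hD w (3/100) (by norm_num) (by norm_num) (PP F p w y)
      (by
        intro y' hy'
        simp only [PP, mem_filter, mem_univ, true_and] at hy'
        rw [hy'.1]
        exact hpy) h4
    have h6 : 4 * slack F p w / (3/100 * (r:ℝ)) ≤ r/20 := by
      rw [div_le_iff₀ (by positivity)]
      have := hsle w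
      nlinarith [sq_nonneg (r:ℝ)]
    linarith
  have hcnt : ∀ w, ((univ.filter
      (fun y => p y ≠ w ∧ 2/5 * (r:ℝ) ≤ (cx F p w y : ℝ))).card : ℝ) ≤ 10/r * slack F p w := by
    intro w
    have h5 := s2_count h hr hD w (2/5) (by norm_num) (by norm_num) (univ.filter
      (fun y => p y ≠ w ∧ 2/5 * (r:ℝ) ≤ (cx F p w y : ℝ)))
      (by
        intro y hy
        exact ((mem_filter.mp hy).2).1)
      (by
        intro y hy
        exact ((mem_filter.mp hy).2).2)
    refine h5.trans (le_of_eq ?_)
    field_simp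
    ring
  have hmain := D2_le h hr hD
  have hb : ∑ w : Fin r, ∑ y ∈ univ.filter
      (fun y => p y ≠ w ∧ 2/5 * (r:ℝ) ≤ (cx F p w y : ℝ)), ((PP F p w y).card : ℝ)
      ≤ 1/2 * ∑ w, slack F p w := by
    rw [mul_sum]
    apply sum_le_sum
    intro w _
    set T : Finset V := univ.filter
      (fun y => p y ≠ w ∧ 2/5 * (r:ℝ) ≤ (cx F p w y : ℝ)) with hT
    calc ∑ y ∈ T, ((PP F p w y).card : ℝ)
        ≤ ∑ y ∈ T, (r:ℝ)/20 := by
          apply sum_le_sum
          intro y hy
          exact hPP w y ((mem_filter.mp hy).2).1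
      _ = (T.card : ℝ) * ((r:ℝ)/20) := by
          rw [sum_const, nsmul_eq_mul]
      _ ≤ (10/r * slack F p w) * ((r:ℝ)/20) := by
          apply mul_le_mul_of_nonneg_right (hcnt w) (by positivity)
      _ = 1/2 * slack F p w := by
          field_simp
          ring
  rw [hsum] at hb
  linarith

end

end Pool.Agent.EG
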