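import Pool.Agent.Lib.MP_f04ccf_co.Large.Colour
import Pool.Agent.Lib.MP_f04ccf_co.Large.Furedi
import Pool.Agent.Lib.MP_f04ccf_co.Large.Stage1
import Pool.Agent.Lib.MP_f04ccf_co.Large.Stage2

set_option autoImplicit false

namespace Pool.Agent.EG

open Finset

theorem log_bd : Real.log (5/(1/10^142 : ℝ)) ≤ 1000 := by
  have h1 : (5/(1/10^142 : ℝ)) ≤ 10^143 := by norm_num
  have h2 : Real.log (5/(1/10^142 : ℝ)) ≤ Real.log ((10:ℝ)^143) :=
    Real.log_le_log (by norm_num) h1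
  have h3 : Real.log ((10:ℝ)^143) = 143 * Real.log 10 := by
    rw [Real.log_pow]; norm_num
  have h4 : Real.log 10 ≤ 4 := by
    have : Real.log 10 ≤ Real.log ((2:ℝ)^4) := Real.log_le_log (by norm_num) (by norm_num)
    rw [Real.log_pow] at this
    have := Real.log_two_lt_d9
    push_cast at *
    linarith
  rw [h3] at h2
  linarith

theorem par_num (r : ℕ) (hr : 10^430 ≤ r) :
    Par r (1/10^18 : ℝ) (1/10^142 : ℝ) (10^21 : ℝ) := by
  have hr' : ((10:ℝ)^430) ≤ r := by exact_mod_cast hr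
  refine ⟨by norm_num, by norm_num, by norm_num, by norm_num, ?_, by norm_num, ?_⟩
  · have := log_bd
    have h1 : 100/(1/10^18 : ℝ) = 10^20 := by norm_num
    rw [h1]
    linarith
  · have h1 : (1:ℝ) ≤ (1/10^142)^3 * 10^430 := by
      have e1 : (10:ℝ)^430 = ((10:ℝ)^142)^3 * 10^4 := by
        rw [← pow_mul, ← pow_add]
      have e2 : (0:ℝ) < (10:ℝ)^142 := by positivity
      rw [e1, div_pow, one_pow]
      generalize (10:ℝ)^142 = a at e2
      have e3 : 1 / a^3 * (a^3 * 10^4) = 10^4 := by field_simp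
      rw [e3]
      norm_num
    refine le_trans h1 ?_
    exact mul_le_mul_of_nonneg_left hr' (by positivity)

theorem main_large (r : ℕ) (hr : 10^430 ≤ r) (c : Fin (r ^ 2 + 1) → Fin (r ^ 2 + 1) → Fin r)
    (hc : ∀ x y, c x y = c y x) :
    ∃ S : Finset (Fin (r ^ 2 + 1)), S.card = r + 1 ∧
      ∃ k : Fin r, ∀ x ∈ S, ∀ y ∈ S, x ≠ y → c x y ≠ k := by
  by_contra hcon
  push Not at hcon
  have hr1 : 1 ≤ r := le_trans (Nat.one_le_pow _ _ (by norm_num)) hr
  obtain ⟨j, hj⟩ := hyp_of_colouring r hr1 c hc hcon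
  obtain ⟨p, hp⟩ := exists_cfg hj hr1
  have hP := par_num r hr
  have h1 := stage1 hp hP
  have hr' : ((10:ℝ)^430) ≤ r := by exact_mod_cast hr
  have hr20 : ((10:ℝ)^20) ≤ r :=
    le_trans (pow_le_pow_right₀ (by norm_num) (by norm_num)) hr'
  refine stage2 hp hr20 (le_trans h1 (le_of_eq ?_))
  ring

end Pool.Agent.EG
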