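import Pool.Agent.Lib.MP_f04ccf_co.Large.S2Basic
import Pool.Agent.Lib.MP_f04ccf_co.Large.Ext
import Pool.Agent.Lib.MP_f04ccf_co.Large.Basic3

set_option autoImplicit false

namespace Pool.Agent.EG

open Finset

section
variable {V : Type*} [Fintype V] [DecidableEq V] {F : V → V → Prop} [DecidableRel F]
variable {r : ℕ} {p : V → Fin r}

/-- the vertices with a large cross degree into some foreign class are few -/
theorem s2_bad (h : Cfg F p) (hr : (10:ℝ)^20 ≤ r) (hD : (D2 F p : ℝ)/2 ≤ (r:ℝ)^2/10^16) :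
    (((univ : Finset V).filter (fun x => ∃ w, p x ≠ w ∧ 1/(8*10^6) * (r:ℝ) ≤ (cx F p w x : ℝ))).card : ℝ)
      ≤ (r:ℝ)/10^8 := by
  classical
  have hr0 : (0:ℝ) < r := lt_of_lt_of_le (by positivity) hr
  have h1 : (univ : Finset V).filter (fun x => ∃ w, p x ≠ w ∧ 1/(8*10^6) * (r:ℝ) ≤ (cx F p w x : ℝ))
      ⊆ (univ : Finset (Fin r)).biUnion (fun w => (univ : Finset V).filter
          (fun x => p x ≠ w ∧ 1/(8*10^6) * (r:ℝ) ≤ (cx F p w x : ℝ))) := by
    intro x hx
    simp only [mem_filter, mem_univ, true_and] at hx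
    obtain ⟨w, hw⟩ := hx
    simp only [mem_biUnion, mem_filter, mem_univ, true_and]
    exact ⟨w, hw⟩
  have h2 := (card_le_card h1).trans card_biUnion_le
  have h3 : (((univ : Finset V).filter (fun x => ∃ w, p x ≠ w ∧
      1/(8*10^6) * (r:ℝ) ≤ (cx F p w x : ℝ))).card : ℝ) ≤ ∑ w : Fin r, 4 * slack F p w / (1/(8*10^6)*r) := by
    calc (((univ : Finset V).filter (fun x => ∃ w, p x ≠ w ∧
          1/(8*10^6) * (r:ℝ) ≤ (cx F p w x : ℝ))).card : ℝ)
        ≤ ((∑ w : Fin r, ((univ : Finset V).filter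
          (fun x => p x ≠ w ∧ 1/(8*10^6) * (r:ℝ) ≤ (cx F p w x : ℝ))).card : ℕ) : ℝ) := by
          exact_mod_cast h2
      _ = ∑ w : Fin r, (((univ : Finset V).filter
          (fun x => p x ≠ w ∧ 1/(8*10^6) * (r:ℝ) ≤ (cx F p w x : ℝ))).card : ℝ) := by push_cast; rfl
      _ ≤ ∑ w : Fin r, 4 * slack F p w / (1/(8*10^6)*r) := by
          apply sum_le_sum
          intro w _
          apply s2_count h hr hD w (1/(8*10^6)) (by norm_num) (by norm_num)
          · intro y hy
            exact (mem_filter.mp hy).2.1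
          · intro y hy
            exact (mem_filter.mp hy).2.2
  refine h3.trans ?_
  rw [← sum_div, ← mul_sum, sum_slack h.toHyp p, div_le_iff₀ (by positivity)]
  have h4 : (r:ℝ) - 1 ≥ 0 := by nlinarith
  nlinarith [mul_pos hr0 hr0]

theorem s2_greedy (h : Cfg F p) (hr : (10:ℝ)^20 ≤ r) (hD : (D2 F p : ℝ)/2 ≤ (r:ℝ)^2/10^16)
    (y y' : V) (hF : F y y')
    (hcom : ∀ w, w ≠ p y → (r:ℝ)/50 ≤ (((cl p w).filter (fun z => F y z ∧ F y' z)).card : ℝ))
    (S : Finset (Fin r)) (hu : p y ∉ S) (hS : (S.card : ℝ) ≤ 40000) :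
    ∃ J : Finset V, IsClq F J ∧ J.card = S.card + 2 ∧
      ∀ v, v ∉ insert (p y) S → (r:ℝ)/50 - S.card * (1/(8*10^6) * (r:ℝ))
        ≤ (((cl p v).filter (fun z => ∀ x ∈ J, F x z)).card : ℝ) := by
  classical
  have hr0 : (0:ℝ) < r := lt_of_lt_of_le (by positivity) hr
  induction S using Finset.induction_on with
  | empty =>
    refine ⟨{y, y'}, ?_, ?_, ?_⟩
    · intro a ha b hb hab
      simp only [mem_insert, mem_singleton] at ha hb
      rcases ha with rfl | rfl <;> rcases hb with rfl | rfl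
      · exact absurd rfl hab
      · exact hF
      · exact h.symm _ _ hF
      · exact absurd rfl hab
    · rw [card_pair]
      · simp
      · rintro rfl
        exact h.irr _ hF
    · intro v hv
      have hv' : v ≠ p y := by
        intro e
        exact hv (by simp [e])
      have := hcom v hv'
      simp only [card_empty, Nat.cast_zero, zero_mul, sub_zero]
      refine this.trans (le_of_eq ?_)
      congr 2
      apply filter_congr
      intro z _
      simp
  | insert a S ha ih =>
    have hcard : ((insert a S).card : ℝ) = S.card + 1 := by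
      rw [card_insert_of_notMem ha]
      push_cast
      ring
    obtain ⟨J, hJ, hJc, hJv⟩ := ih (fun e => hu (mem_insert_of_mem e)) (by linarith)
    have hau : a ∉ insert (p y) S := by
      simp only [mem_insert, not_or]
      refine ⟨?_, ha⟩
      rintro rfl
      exact hu (mem_insert_self _ _)
    have h1 := hJv a hau
    set X := (cl p a).filter (fun z => ∀ x ∈ J, F x z) with hX
    set B := (univ : Finset V).filter (fun x => ∃ w, p x ≠ w ∧ 1/(8*10^6) * (r:ℝ) ≤ (cx F p w x : ℝ))
      with hB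
    have h2 : (B.card : ℝ) ≤ (r:ℝ)/10^8 := s2_bad h hr hD
    have h3 : (B.card : ℝ) < X.card := by
      have : (S.card : ℝ) * (1/(8*10^6) * (r:ℝ)) ≤ 40000 * (1/(8*10^6) * (r:ℝ)) := by
        apply mul_le_mul_of_nonneg_right _ (by positivity)
        linarith
      nlinarith
    have h4 : B.card < X.card := by exact_mod_cast h3
    obtain ⟨z, hzX, hzB⟩ := exists_mem_notMem_of_card_lt_card h4
    have hz1 : p z = a ∧ ∀ x ∈ J, F x z := by
      simpa [hX, cl] using hzX
    have hz2 : ∀ w, p z ≠ w → (cx F p w z : ℝ) < 1/(8*10^6) * (r:ℝ) := by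
      intro w hw
      by_contra hcon
      apply hzB
      simp only [hB, mem_filter, mem_univ, true_and]
      exact ⟨w, hw, not_lt.mp hcon⟩
    have hzJ : z ∉ J := fun e => h.irr _ (hz1.2 z e)
    refine ⟨insert z J, ?_, ?_, ?_⟩
    · intro b hb c hc hbc
      simp only [mem_insert] at hb hc
      rcases hb with rfl | hb <;> rcases hc with rfl | hc
      · exact absurd rfl hbc
      · exact h.symm _ _ (hz1.2 _ hc)
      · exact hz1.2 _ hb
      · exact hJ _ hb _ hc hbc
    · rw [card_insert_of_notMem hzJ, card_insert_of_notMem ha, hJc]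
    · intro v hv
      have hv1 : v ∉ insert (p y) S := by
        intro e
        apply hv
        simp only [mem_insert] at e ⊢
        tauto
      have hva : a ≠ v := by
        rintro rfl
        exact hv (by simp)
      have h5 := hJv v hv1
      have h6 := hz2 v (by rw [hz1.1]; exact hva)
      have h7 : ((cl p v).filter (fun z => ∀ x ∈ J, F x z)).card
          ≤ ((cl p v).filter (fun w => ∀ x ∈ insert z J, F x w)).card + cx F p v z := by
        unfold cx nF
        refine (card_le_card ?_).trans (card_union_le _ _)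
        intro w hw
        simp only [mem_filter] at hw
        simp only [mem_union, mem_filter, mem_insert, forall_eq_or_imp]
        by_cases hzw : F z w
        · left
          exact ⟨hw.1, hzw, hw.2⟩
        · right
          exact ⟨hw.1, hzw⟩
      have h8 : (((cl p v).filter (fun z => ∀ x ∈ J, F x z)).card : ℝ)
          ≤ ((cl p v).filter (fun w => ∀ x ∈ insert z J, F x w)).card + cx F p v z := by
        exact_mod_cast h7
      rw [hcard]
      linarith

/-- every inside `F`-edge has a class in which the two ends have few common neighbours -/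
theorem s2_core (h : Cfg F p) (hr : (10:ℝ)^20 ≤ r) (hD : (D2 F p : ℝ)/2 ≤ (r:ℝ)^2/10^16)
    (y y' : V) (hyy : p y' = p y) (hF : F y y') :
    ∃ w, w ≠ p y ∧ (((cl p w).filter (fun z => F y z ∧ F y' z)).card : ℝ) < r/50 := by
  classical
  by_contra hcon
  push Not at hcon
  have hr0 : (0:ℝ) < r := lt_of_lt_of_le (by positivity) hr
  have hr1 : 1 ≤ r := by
    have : (0:ℝ) < (r:ℝ) := hr0
    exact_mod_cast this
  set N := (univ : Finset (Fin r)).filter (fun v => v ≠ p y ∧ 1/20000 * (r:ℝ)^2 < (Ev F p v : ℝ)) with hN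
  have hNc : (N.card : ℝ) ≤ 40000 := by
    have h1 : (∑ v, (Ev F p v : ℝ)) ≤ 2*(r:ℝ)^2 := by
      have h2 := sum_cd h hr1
      rw [← sum_Ev] at h2
      calc (∑ v, (Ev F p v : ℝ)) = ((∑ v, Ev F p v : ℕ) : ℝ) := by push_cast; rfl
        _ ≤ _ := h2
    have h3 : (N.card : ℝ) * (1/20000 * (r:ℝ)^2) ≤ ∑ v ∈ N, (Ev F p v : ℝ) := by
      rw [← nsmul_eq_mul]
      apply card_nsmul_le_sum
      intro v hv
      exact ((mem_filter.mp hv).2.2).le
    have h4 : ∑ v ∈ N, (Ev F p v : ℝ) ≤ ∑ v, (Ev F p v : ℝ) :=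
      sum_le_sum_of_subset_of_nonneg (subset_univ _) (fun _ _ _ => Nat.cast_nonneg _)
    have h5 : (N.card : ℝ) * (1/20000 * (r:ℝ)^2) ≤ 40000 * (1/20000 * (r:ℝ)^2) := by
      linarith
    exact le_of_mul_le_mul_right h5 (by positivity)
  have huN : p y ∉ N := by
    intro e
    exact (mem_filter.mp e).2.1 rfl
  obtain ⟨J, hJ, hJc, hJv⟩ := s2_greedy h hr hD y y' hF hcon N huN hNc
  apply ext h.toHyp p (insert (p y) N) J hJ (by rw [hJc, card_insert_of_notMem huN]) (3/200)
    (by norm_num) hr1
  · intro v hv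
    refine le_trans ?_ (hJv v hv)
    have : (N.card : ℝ) * (1/(8*10^6) * (r:ℝ)) ≤ 40000 * (1/(8*10^6) * (r:ℝ)) :=
      mul_le_mul_of_nonneg_right hNc (by positivity)
    nlinarith
  · intro v hv
    simp only [mem_insert, not_or] at hv
    have h6 : ¬ (1/20000 * (r:ℝ)^2 < (Ev F p v : ℝ)) := by
      intro e
      exact hv.2 (by simp only [hN, mem_filter, mem_univ, true_and]; exact ⟨hv.1, e⟩)
    push Not at h6
    nlinarith [mul_pos hr0 hr0]

end

end Pool.Agent.EG
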