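import Pool.Agent.Lib.MP_f04ccf_co.Large.Basic3
import Pool.Agent.Lib.MP_f04ccf_co.Large.Claim2

set_option autoImplicit false

namespace Pool.Agent.EG

open Finset

section
variable {V : Type*} [Fintype V] [DecidableEq V] {F : V → V → Prop} [DecidableRel F]
variable {r : ℕ} {p : V → Fin r} {ε η H : ℝ} {U : Finset (Fin r)}

theorem Par_r_pos (hP : Par r ε η H) : (0:ℝ) < r := by
  have h1 := hP.r1
  have h2 : (0:ℝ) < η^3 := pow_pos hP.η0 3
  by_contra hr
  push Not at hr
  nlinarith [mul_nonneg h2.le (neg_nonneg.mpr hr)]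

/-- in a light class at most `8 η r` vertices have cross degree `≥ r/8` -/
theorem light_big_card (h : Cfg F p) (hP : Par r ε η H) (hU : Lt F p η U) (v : Fin r)
    (hv : v ∉ U) :
    (((cl p v).filter (fun x => (r:ℝ)/8 ≤ cd F p x)).card : ℝ) ≤ 8*η*r := by
  have hr := Par_r_pos hP
  have h1 := hU.E v hv
  rw [Ev_eq h.toHyp] at h1
  push_cast at h1
  have h2 : (((cl p v).filter (fun x => (r:ℝ)/8 ≤ cd F p x)).card : ℝ) * (r/8)
      ≤ ∑ x ∈ (cl p v).filter (fun x => (r:ℝ)/8 ≤ cd F p x), (cd F p x : ℝ) := by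
    rw [← nsmul_eq_mul]
    exact card_nsmul_le_sum _ _ _ (fun x hx => (mem_filter.mp hx).2)
  have h3 : ∑ x ∈ (cl p v).filter (fun x => (r:ℝ)/8 ≤ cd F p x), (cd F p x : ℝ)
      ≤ ∑ x ∈ cl p v, (cd F p x : ℝ) :=
    sum_le_sum_of_subset_of_nonneg (filter_subset _ _) (fun _ _ _ => by positivity)
  have h4 : (((cl p v).filter (fun x => (r:ℝ)/8 ≤ cd F p x)).card : ℝ) * (r/8)
      ≤ η * (r:ℝ)^2 := h2.trans (h3.trans h1)
  have h5 : (((cl p v).filter (fun x => (r:ℝ)/8 ≤ cd F p x)).card : ℝ) * (r/8)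
      ≤ (8*η*r) * (r/8) := by
    calc _ ≤ η * (r:ℝ)^2 := h4
      _ = _ := by ring
  exact le_of_mul_le_mul_right h5 (by positivity)

/-- in a light class at most `8 η r` vertices have cross degree `≥ r/8`
(`Ev_eq`), and a vertex with inside degree `≥ 4 ε r > 8 η r` must be one of them -/
theorem YA_class (h : Cfg F p) (hP : Par r ε η H) (hU : Lt F p η U) (hk : (U.card : ℝ) ≤ 3/η + 1)
    (hk1 : 1 ≤ U.card) (v : Fin r) (hv : v ∉ U) :
    (((YA F p ε U).filter (fun y => p y = v)).card : ℝ) ≤ 8*η*r := by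
  have hr := Par_r_pos hP
  have hB := light_big_card h hP hU v hv
  refine le_trans ?_ hB
  have hsub : (YA F p ε U).filter (fun y => p y = v) ⊆
      (cl p v).filter (fun x => (r:ℝ)/8 ≤ cd F p x) := by
    intro y hy
    obtain ⟨hyA, hyv⟩ := mem_filter.mp hy
    unfold YA at hyA
    obtain ⟨-, hyU, -, hind⟩ := mem_filter.mp hyA
    refine mem_filter.mpr ⟨mem_cl.mpr hyv, ?_⟩
    by_contra hlt
    -- all neighbours of `y` inside the class have large cross degree
    have hN : (cl p (p y)).filter (fun z => F y z) ⊆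
        (cl p v).filter (fun x => (r:ℝ)/8 ≤ cd F p x) := by
      intro z hz
      obtain ⟨hz1, hz2⟩ := mem_filter.mp hz
      have hpz : p z = p y := mem_cl.mp hz1
      refine mem_filter.mpr ⟨mem_cl.mpr (hpz.trans hyv), ?_⟩
      rcases claim2 h hP hU hk hk1 y z hyU hpz hz2 with h1 | h1
      · exact absurd h1 hlt
      · exact h1
    have hc : (ind F p y : ℝ) ≤
        (((cl p v).filter (fun x => (r:ℝ)/8 ≤ cd F p x)).card : ℝ) := by
      unfold ind dF
      exact_mod_cast card_le_card hN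
    have h1 : 4*ε*r ≤ 8*η*r := hind.trans (hc.trans hB)
    have h2 : 4*ε ≤ 8*η := le_of_mul_le_mul_right h1 hr
    have h3 := hP.η1
    have h4 := hP.ε0
    have h5 := hP.ε1
    have h6 : ε^2 ≤ ε * (1/1000) := by
      rw [pow_two]; exact mul_le_mul_of_nonneg_left h5 h4.le
    have : ε^2/10^6 ≤ ε * (1/1000)/10^6 := by
      apply div_le_div_of_nonneg_right h6 (by norm_num)
    norm_num at this
    linarith
  exact_mod_cast card_le_card hsub

theorem YA_card (h : Cfg F p) (hP : Par r ε η H) : ((YA F p ε U).card : ℝ) ≤ r/(4*ε) := by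
  have hr := Par_r_pos hP
  have hε := hP.ε0
  have h1 : ((YA F p ε U).card : ℝ) * (4*ε*r) ≤ ∑ x ∈ YA F p ε U, (ind F p x : ℝ) := by
    rw [← nsmul_eq_mul]
    refine card_nsmul_le_sum _ _ _ (fun x hx => ?_)
    unfold YA at hx
    exact (mem_filter.mp hx).2.2.2
  have h2 : ∑ x ∈ YA F p ε U, (ind F p x : ℝ) ≤ (D2 F p : ℝ) := by
    unfold D2
    push_cast
    exact sum_le_sum_of_subset_of_nonneg (subset_univ _) (fun _ _ _ => by positivity)
  have h3 := h.D2le
  have h4 : ((YA F p ε U).card : ℝ) * (4*ε*r) ≤ (r/(4*ε)) * (4*ε*r) := by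
    calc _ ≤ (r:ℝ)^2 := h1.trans (h2.trans h3)
      _ = _ := by field_simp
  exact le_of_mul_le_mul_right h4 (by positivity)

end

end Pool.Agent.EG
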